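import Mathlib
import Pool.Agent.W301.SS.ModQ

/-! Fejer weights for intervals modulo one and their Fourier expansion. -/

set_option autoImplicit false

namespace Pool.Agent.W301.RM
open Finset
open Pool.Agent.H807R2.Dav Pool.Agent.W301.SS

/-- Dirichlet kernel -/
noncomputable def DK (R : ℕ) (v : ℝ) : ℂ := ∑ k ∈ range R, ee ((k : ℝ) * v)

/-- the weight -/
noncomputable def Wt (R : ℕ) (c : ℤ) (n : ℕ) (u : ℝ) : ℝ :=
  (∑ a ∈ range n, ‖DK R (u - ((c : ℝ) + a) / R)‖ ^ 2) / (R : ℝ) ^ 2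

lemma DK_neg (R : ℕ) (v : ℝ) : ‖DK R v‖ = ‖∑ k ∈ range R, ee (-((k : ℝ) * v))‖ := by
  have : ∑ k ∈ range R, ee (-((k : ℝ) * v)) = (starRingEnd ℂ) (DK R v) := by
    unfold DK
    rw [map_sum]
    exact sum_congr rfl fun a _ => (star_ee _).symm
  rw [this, RCLike.norm_conj]

lemma DK_full {R : ℕ} (hR : 1 ≤ R) (c : ℤ) (u : ℝ) :
    ∑ a ∈ range R, ‖DK R (u - ((c : ℝ) + a) / R)‖ ^ 2 = (R : ℝ) ^ 2 := by
  have h := parsevalF hR (fun k => ee (-((k : ℝ) * (u - (c : ℝ) / R))))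
  have e : ∀ a ∈ range R, ‖DK R (u - ((c : ℝ) + a) / R)‖ ^ 2 =
      ‖∑ n ∈ range R, ee (-((n : ℝ) * (u - (c : ℝ) / R))) * ee ((n : ℝ) * ((a : ℝ) / R))‖ ^ 2 := by
    intro a _
    rw [DK_neg]
    congr 2
    apply sum_congr rfl
    intro k _
    rw [← ee_add]
    congr 1
    have : (R : ℝ) ≠ 0 := by positivity
    field_simp
    ring
  rw [sum_congr rfl e, h]
  simp only [norm_ee, one_pow, sum_const, card_range, nsmul_eq_mul, mul_one]
  ring

lemma Wt_nonneg (R : ℕ) (c : ℤ) (n : ℕ) (u : ℝ) : 0 ≤ Wt R c n u := by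
  unfold Wt
  positivity

lemma Wt_le_one {R : ℕ} (hR : 1 ≤ R) (c : ℤ) {n : ℕ} (hn : n ≤ R) (u : ℝ) : Wt R c n u ≤ 1 := by
  unfold Wt
  rw [div_le_one (by positivity), ← DK_full hR c u]
  exact sum_le_sum_of_subset_of_nonneg (range_mono hn) (fun _ _ _ => by positivity)

lemma DK_le (R : ℕ) {v d : ℝ} (hd : 0 < d) (h : d ≤ dd v) : ‖DK R v‖ ≤ 3 / d := by
  have h1 := geo_bound 0 R (by omega) (M := R) (by simp) v
  rw [← Finset.range_eq_Ico] at h1
  exact h1.trans (KK_le' (by positivity) hd h)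

lemma Wt_lower {ρ Q R' a0 : ℕ} (hρ : 2 ≤ ρ) (hQ : Q * R' = ρ ^ 4) (hn : R' + 2 * ρ ^ 3 ≤ ρ ^ 4)
    {u : ℝ} {z : ℤ} (h1 : (z : ℝ) + a0 / Q ≤ u) (h2 : u < z + ((a0 : ℝ) + 1) / Q) :
    1 - 1 / (ρ : ℝ) ^ 2 ≤ Wt (ρ ^ 4) ((a0 : ℤ) * R' - ρ ^ 3) (R' + 2 * ρ ^ 3) u := by
  set R : ℕ := ρ ^ 4 with hR
  have hρ0 : (0 : ℝ) < ρ := by positivity
  have hρ2 : (2 : ℝ) ≤ ρ := by exact_mod_cast hρ
  have hR1 : 1 ≤ R := Nat.one_le_pow _ _ (by omega)
  have hRR : (R : ℝ) = (ρ : ℝ) ^ 4 := by rw [hR]; push_cast; ring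
  have hR0 : (0 : ℝ) < R := by rw [hRR]; positivity
  have hQ0 : (Q : ℝ) ≠ 0 := by
    intro h
    have : Q = 0 := by exact_mod_cast h
    rw [this, zero_mul] at hQ
    omega
  have hR'0 : (R' : ℝ) ≠ 0 := by
    intro h
    have : R' = 0 := by exact_mod_cast h
    rw [this, mul_zero] at hQ
    omega
  have hQR : (Q : ℝ) * R' = R := by exact_mod_cast hQ
  set c : ℤ := (a0 : ℤ) * R' - ρ ^ 3 with hc
  set n : ℕ := R' + 2 * ρ ^ 3 with hnn
  unfold Wt
  rw [le_div_iff₀ (by positivity)]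
  have hsplit : ∑ a ∈ range n, ‖DK R (u - ((c : ℝ) + a) / R)‖ ^ 2 =
      (R : ℝ) ^ 2 - ∑ a ∈ Ico n R, ‖DK R (u - ((c : ℝ) + a) / R)‖ ^ 2 := by
    rw [← DK_full hR1 c u, ← sum_range_add_sum_Ico _ hn]
    ring
  rw [hsplit]
  have hb : ∑ a ∈ Ico n R, ‖DK R (u - ((c : ℝ) + a) / R)‖ ^ 2 ≤ (R : ℝ) * (3 / (4 / ρ)) ^ 2 := by
    calc ∑ a ∈ Ico n R, ‖DK R (u - ((c : ℝ) + a) / R)‖ ^ 2 ≤ ∑ a ∈ Ico n R, (3 / (4 / (ρ : ℝ))) ^ 2 := by
          apply sum_le_sum
          intro a ha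
          rw [mem_Ico] at ha
          apply pow_le_pow_left₀ (norm_nonneg _)
          apply DK_le _ (by positivity)
          set t : ℝ := ((c : ℝ) + a) / R - (u - z) with ht
          have e1 : u - ((c : ℝ) + a) / R = -t + z := by rw [ht]; ring
          rw [e1, dd_add_int, dd_neg]
          have hcR : (c : ℝ) = (a0 : ℝ) * R' - (ρ : ℝ) ^ 3 := by rw [hc]; push_cast; ring
          have haR : (n : ℝ) ≤ a := by exact_mod_cast ha.1
          have haR2 : (a : ℝ) ≤ R - 1 := by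
            have : a + 1 ≤ R := ha.2
            have h3 : ((a : ℝ) + 1) ≤ R := by exact_mod_cast this
            linarith
          have hnR : (n : ℝ) = R' + 2 * (ρ : ℝ) ^ 3 := by rw [hnn]; push_cast; ring
          have hρR : (ρ : ℝ) ^ 3 / R = 1 / ρ := by rw [hRR]; field_simp
          have e2 : (a0 : ℝ) / Q = a0 * R' / R := by rw [← hQR]; field_simp
          have e3 : ((a0 : ℝ) + 1) / Q = (a0 + 1) * R' / R := by rw [← hQR]; field_simp
          have t1 : 1 / (ρ : ℝ) ≤ t := by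
            rw [ht]
            have : ((a0 : ℝ) + 1) / Q + 1 / ρ ≤ ((c : ℝ) + a) / R := by
              rw [e3, ← hρR, ← add_div]
              apply div_le_div_of_nonneg_right _ hR0.le
              rw [hcR]
              nlinarith
            linarith
          have t2 : t ≤ 1 - 1 / (ρ : ℝ) := by
            rw [ht]
            have : ((c : ℝ) + a) / R ≤ (a0 : ℝ) / Q + (1 - 1 / ρ) := by
              rw [e2, ← hρR]
              have : (a0 : ℝ) * R' / R + (1 - (ρ : ℝ) ^ 3 / R) = (a0 * R' + R - (ρ : ℝ) ^ 3) / R := by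
                field_simp
                ring
              rw [this]
              apply div_le_div_of_nonneg_right _ hR0.le
              rw [hcR]
              linarith
            linarith
          have t0 : 0 ≤ 1 / (ρ : ℝ) := by positivity
          have h4 := dd_ge (t := t) (by linarith) (by linarith)
          have h5 : 1 / (ρ : ℝ) ≤ min t (1 - t) := le_min t1 (by linarith)
          calc 4 / (ρ : ℝ) = 4 * (1 / ρ) := by ring
            _ ≤ 4 * min t (1 - t) := by linarith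
            _ ≤ _ := h4
      _ = ((R - n : ℕ) : ℝ) * (3 / (4 / (ρ : ℝ))) ^ 2 := by
          rw [sum_const, Nat.card_Ico, nsmul_eq_mul]
      _ ≤ _ := by
          apply mul_le_mul_of_nonneg_right _ (by positivity)
          exact_mod_cast Nat.sub_le _ _
  have e4 : (R : ℝ) * (3 / (4 / ρ)) ^ 2 = 9 / 16 * ((R : ℝ) * ρ ^ 2) := by
    field_simp
    ring
  have e5 : (1 - 1 / (ρ : ℝ) ^ 2) * (R : ℝ) ^ 2 = (R : ℝ) ^ 2 - R * ρ ^ 2 := by
    rw [hRR]
    field_simp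
  rw [e5]
  rw [e4] at hb
  nlinarith [mul_pos hR0 (by positivity : (0:ℝ) < (ρ : ℝ) ^ 2)]

/-! ### the Fourier expansion -/

lemma DK_sq (R : ℕ) (w : ℝ) :
    ((‖DK R w‖ ^ 2 : ℝ) : ℂ) = ∑ k ∈ range R, ∑ l ∈ range R, ee ((((k : ℤ) - (l : ℤ) : ℤ) : ℝ) * w) := by
  push_cast
  rw [← Complex.mul_conj']
  unfold DK
  rw [map_sum, sum_mul_sum]
  apply sum_congr rfl
  intro a _
  apply sum_congr rfl
  intro b _
  rw [star_ee, ← ee_add]
  congr 1
  push_cast; ring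

/-- indices of the expansion -/
def Om (R n : ℕ) : Finset (ℕ × ℕ × ℕ) := range n ×ˢ (range R ×ˢ range R)

lemma card_Om (R n : ℕ) : (Om R n).card = n * R ^ 2 := by
  unfold Om
  rw [card_product, card_product, card_range, card_range]
  ring

/-- frequency of an index -/
def fr (p : ℕ × ℕ × ℕ) : ℤ := (p.2.1 : ℤ) - (p.2.2 : ℤ)

lemma fr_abs {R n : ℕ} {p : ℕ × ℕ × ℕ} (hp : p ∈ Om R n) : |fr p| < R := by
  unfold Om at hp
  rw [mem_product, mem_product, mem_range, mem_range, mem_range] at hp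
  unfold fr
  rw [abs_lt]
  constructor <;> omega

lemma Wt_fourier (R : ℕ) (c : ℤ) (n : ℕ) (u : ℝ) :
    ((Wt R c n u : ℝ) : ℂ) = ∑ p ∈ Om R n, (1 / (R : ℂ) ^ 2) *
      ee ((fr p : ℝ) * (u - ((c : ℝ) + p.1) / R)) := by
  unfold Wt Om
  rw [Complex.ofReal_div, Complex.ofReal_sum, sum_product]
  simp_rw [sum_product]
  rw [sum_div]
  apply sum_congr rfl
  intro a _
  rw [DK_sq]
  rw [sum_div]
  apply sum_congr rfl
  intro k _
  rw [sum_div]
  apply sum_congr rfl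
  intro l _
  unfold fr
  push_cast
  ring

lemma prod_ee {ι : Type*} (s : Finset ι) (f : ι → ℝ) : ∏ i ∈ s, ee (f i) = ee (∑ i ∈ s, f i) := by
  classical
  induction s using Finset.induction_on with
  | empty => simp [ee_zero]
  | insert a s ha ih => rw [prod_insert ha, sum_insert ha, ih, ee_add]

lemma Wt_prod {s : ℕ} (R : ℕ) (c : Fin s → ℤ) (n : Fin s → ℕ) (v : Fin s → ℝ) (y : ℝ) :
    ((∏ j, Wt R (c j) (n j) (v j * y) : ℝ) : ℂ) =
      ∑ p ∈ Fintype.piFinset (fun j => Om R (n j)), (1 / (R : ℂ) ^ 2) ^ s *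
        ee (-(∑ j, (fr (p j) : ℝ) * (((c j : ℝ) + (p j).1) / R))) *
        ee ((∑ j, (fr (p j) : ℝ) * v j) * y) := by
  rw [Complex.ofReal_prod]
  simp_rw [Wt_fourier]
  rw [prod_univ_sum]
  apply sum_congr rfl
  intro p _
  rw [prod_mul_distrib, prod_const, card_univ, Fintype.card_fin, prod_ee, mul_assoc, ← ee_add]
  congr 2
  rw [sum_mul, ← sum_neg_distrib, ← sum_add_distrib]
  apply sum_congr rfl
  intro j _
  ring

end Pool.Agent.W301.RM
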