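import Mathlib
import Pool.Agent.W301.RM.Kernel

/-! Comparison of two families of points. -/

set_option autoImplicit false

namespace Pool.Agent.W301.RM
open Finset
open Pool.Agent.H807R2.Dav Pool.Agent.W301.SS

/-- the exponential sums of the points `y i`, `i ∈ I`, at the nonzero integer frequencies
`∑ λ_j b^(e_j)`, `|λ_j| < R`, are at most `B |I|` -/
def Small {ι : Type*} (I : Finset ι) (y : ι → ℝ) (b s : ℕ) (e : Fin s → ℕ) (R : ℕ) (B : ℝ) : Prop :=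
  ∀ lam : Fin s → ℤ, (∀ j, |lam j| < R) → ∑ j, lam j * (b : ℤ) ^ (e j) ≠ 0 →
    ‖∑ i ∈ I, ee (((∑ j, lam j * (b : ℤ) ^ (e j) : ℤ) : ℝ) * y i)‖ ≤ B * I.card

lemma grid_sum {T : ℕ} (hT : 1 ≤ T) (L : ℤ) (h0 : L ≠ 0) (h1 : |L| < T) :
    ∑ t ∈ range T, ee ((L : ℝ) * ((t : ℝ) / T)) = 0 := by
  rw [orth hT, if_neg]
  intro h
  exact h0 (Int.eq_zero_of_abs_lt_dvd h h1)

lemma freq_bound {s b : ℕ} (hb : 2 ≤ b) {e : Fin s → ℕ} {N K R : ℕ} (he : ∀ j, e j ≤ N)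
    (hK : s * R * b ^ N ≤ b ^ K) (hR : 1 ≤ R) (hs : 1 ≤ s) {lam : Fin s → ℤ} (hl : ∀ j, |lam j| < R) :
    |∑ j, lam j * (b : ℤ) ^ (e j)| < ((b ^ K : ℕ) : ℤ) := by
  have h1 : |∑ j, lam j * (b : ℤ) ^ (e j)| ≤ ∑ j : Fin s, ((R : ℤ) - 1) * (b : ℤ) ^ N := by
    refine (abs_sum_le_sum_abs _ _).trans (sum_le_sum fun j _ => ?_)
    rw [abs_mul, abs_of_nonneg (by positivity : (0 : ℤ) ≤ (b : ℤ) ^ e j)]
    apply mul_le_mul _ _ (by positivity) (by have : (1 : ℤ) ≤ R := by exact_mod_cast hR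
                                             omega)
    · have := hl j; omega
    · exact pow_le_pow_right₀ (by have : (2 : ℤ) ≤ b := by exact_mod_cast hb
                                  omega) (he j)
  rw [sum_const, card_univ, Fintype.card_fin, nsmul_eq_mul] at h1
  have h2 : ((s * R * b ^ N : ℕ) : ℤ) ≤ ((b ^ K : ℕ) : ℤ) := by exact_mod_cast hK
  push_cast at h2 ⊢
  have h3 : (0 : ℤ) < (b : ℤ) ^ N := by positivity
  have h4 : (1 : ℤ) ≤ s := by exact_mod_cast hs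
  nlinarith [mul_pos (by omega : (0 : ℤ) < s) h3]

/-- comparison of the mean values of products of weights -/
lemma compare {ι : Type*} (I : Finset ι) (hI : I.Nonempty) (y : ι → ℝ) {b s : ℕ} (hb : 2 ≤ b) (hs : 1 ≤ s)
    (e : Fin s → ℕ) {N K R : ℕ} (he : ∀ j, e j ≤ N) (hK : s * R * b ^ N ≤ b ^ K) (hR : 1 ≤ R)
    {B : ℝ} (hB : 0 ≤ B) (hsm : Small I y b s e R B) (c : Fin s → ℤ) (n : Fin s → ℕ)
    (hn : ∀ j, n j ≤ R) :
    (∑ i ∈ I, ∏ j, Wt R (c j) (n j) ((b : ℝ) ^ (e j) * y i)) / I.card ≤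
      (∑ t ∈ range (b ^ K), ∏ j, Wt R (c j) (n j) ((b : ℝ) ^ (e j) * ((t : ℝ) / (b ^ K : ℕ)))) / (b ^ K : ℕ)
        + (R : ℝ) ^ s * B := by
  have hR0 : (0 : ℝ) < R := by exact_mod_cast hR
  have hI0 : (0 : ℝ) < I.card := by exact_mod_cast hI.card_pos
  have hT1 : 1 ≤ b ^ K := Nat.one_le_pow _ _ (by omega)
  have hT0 : (0 : ℝ) < ((b ^ K : ℕ) : ℝ) := by exact_mod_cast hT1
  set P := Fintype.piFinset (fun j => Om R (n j)) with hP
  set co : (Fin s → ℕ × ℕ × ℕ) → ℂ := fun p => (1 / (R : ℂ) ^ 2) ^ s *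
        ee (-(∑ j, (fr (p j) : ℝ) * (((c j : ℝ) + (p j).1) / R))) with hco
  set La : (Fin s → ℕ × ℕ × ℕ) → ℤ := fun p => ∑ j, fr (p j) * (b : ℤ) ^ (e j) with hLa
  have hLaR : ∀ p, (∑ j, (fr (p j) : ℝ) * (b : ℝ) ^ (e j)) = ((La p : ℤ) : ℝ) := by
    intro p
    rw [hLa]
    push_cast
    rfl
  have hnco : ∀ p, ‖co p‖ = (1 / (R : ℝ) ^ 2) ^ s := by
    intro p
    rw [hco]
    simp only
    rw [norm_mul, norm_ee, mul_one, norm_pow, norm_div, norm_one, norm_pow, Complex.norm_natCast]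
  -- the two averages as complex numbers
  have hA : ∀ {κ : Type} (J : Finset κ) (w : κ → ℝ), (((∑ i ∈ J, ∏ j, Wt R (c j) (n j)
      ((b : ℝ) ^ (e j) * w i)) : ℝ) : ℂ) = ∑ p ∈ P, co p * ∑ i ∈ J, ee ((La p : ℝ) * w i) := by
    intro κ J w
    rw [Complex.ofReal_sum]
    simp_rw [Wt_prod, hLaR]
    rw [sum_comm]
    apply sum_congr rfl
    intro p _
    rw [mul_sum]
  have hA' : (((∑ i ∈ I, ∏ j, Wt R (c j) (n j)
      ((b : ℝ) ^ (e j) * y i)) : ℝ) : ℂ) = ∑ p ∈ P, co p * ∑ i ∈ I, ee ((La p : ℝ) * y i) := by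
    rw [Complex.ofReal_sum]
    simp_rw [Wt_prod, hLaR]
    rw [sum_comm]
    apply sum_congr rfl
    intro p _
    rw [mul_sum]
  set X : ℝ := (∑ i ∈ I, ∏ j, Wt R (c j) (n j) ((b : ℝ) ^ (e j) * y i)) / I.card with hX
  set Y : ℝ := (∑ t ∈ range (b ^ K), ∏ j, Wt R (c j) (n j)
    ((b : ℝ) ^ (e j) * ((t : ℝ) / (b ^ K : ℕ)))) / (b ^ K : ℕ) with hY
  have hdiff : ((X - Y : ℝ) : ℂ) = ∑ p ∈ P, co p * ((∑ i ∈ I, ee ((La p : ℝ) * y i)) / I.card -
      (∑ t ∈ range (b ^ K), ee ((La p : ℝ) * ((t : ℝ) / (b ^ K : ℕ)))) / (b ^ K : ℕ)) := by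
    rw [hX, hY, Complex.ofReal_sub, Complex.ofReal_div, Complex.ofReal_div, hA',
      hA (range (b ^ K)) (fun t => (t : ℝ) / (b ^ K : ℕ)), sum_div, sum_div, ← sum_sub_distrib]
    apply sum_congr rfl
    intro p _
    push_cast
    ring
  have hterm : ∀ p ∈ P, ‖co p * ((∑ i ∈ I, ee ((La p : ℝ) * y i)) / I.card -
      (∑ t ∈ range (b ^ K), ee ((La p : ℝ) * ((t : ℝ) / (b ^ K : ℕ)))) / (b ^ K : ℕ))‖ ≤
      (1 / (R : ℝ) ^ 2) ^ s * B := by
    intro p hp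
    rw [norm_mul, hnco]
    apply mul_le_mul_of_nonneg_left _ (by positivity)
    have hpj : ∀ j, |fr (p j)| < R := by
      intro j
      rw [hP, Fintype.mem_piFinset] at hp
      exact fr_abs (hp j)
    by_cases h0 : La p = 0
    · rw [h0]
      simp only [Int.cast_zero, zero_mul, ee_zero, sum_const, nsmul_eq_mul, mul_one, card_range]
      rw [div_self (by exact_mod_cast hI0.ne'), div_self (by exact_mod_cast hT0.ne'), sub_self, norm_zero]
      exact hB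
    · rw [grid_sum hT1 _ h0 (freq_bound hb he hK hR hs hpj), zero_div, sub_zero, norm_div,
        Complex.norm_natCast, div_le_iff₀ hI0]
      exact hsm _ hpj h0
  have hfin : ‖((X - Y : ℝ) : ℂ)‖ ≤ (R : ℝ) ^ s * B := by
    rw [hdiff]
    refine (norm_sum_le _ _).trans ((sum_le_sum hterm).trans ?_)
    rw [sum_const, nsmul_eq_mul]
    have hcard : (P.card : ℝ) ≤ ((R : ℝ) ^ 3) ^ s := by
      rw [hP, Fintype.card_piFinset]
      push_cast
      calc ∏ j : Fin s, ((Om R (n j)).card : ℝ) ≤ ∏ j : Fin s, (R : ℝ) ^ 3 := by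
            apply prod_le_prod (fun _ _ => by positivity)
            intro j _
            rw [card_Om]
            have : (n j : ℝ) ≤ R := by exact_mod_cast hn j
            push_cast
            calc (n j : ℝ) * (R : ℝ) ^ 2 ≤ R * (R : ℝ) ^ 2 := mul_le_mul_of_nonneg_right this (by positivity)
              _ = _ := by ring
        _ = _ := by rw [prod_const, card_univ, Fintype.card_fin]
    calc (P.card : ℝ) * ((1 / (R : ℝ) ^ 2) ^ s * B) ≤ ((R : ℝ) ^ 3) ^ s * ((1 / (R : ℝ) ^ 2) ^ s * B) :=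
          mul_le_mul_of_nonneg_right hcard (by positivity)
      _ = ((R : ℝ) ^ 3 * (1 / (R : ℝ) ^ 2)) ^ s * B := by rw [mul_pow]; ring
      _ = _ := by congr 2; field_simp
  rw [Complex.norm_real, Real.norm_eq_abs] at hfin
  have := le_abs_self (X - Y)
  linarith

end Pool.Agent.W301.RM
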