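import Mathlib
import Pool.Agent.W301.RM.Compare

/-! The uniform model: the fractions `t / b^K`. -/

set_option autoImplicit false

namespace Pool.Agent.W301.RM
open Finset
open Pool.Agent.H807R2.Dav Pool.Agent.W301.SS

/-- the integer whose base `b` digits are the digits `n+1, …, n+ℓ` of `y` after the point -/
noncomputable def wd (b ℓ n : ℕ) (y : ℝ) : ℤ := ⌊(b : ℝ) ^ (n + ℓ) * y⌋ % (b : ℤ) ^ ℓ

lemma wd_nonneg {b : ℕ} (hb : 2 ≤ b) (ℓ n : ℕ) (y : ℝ) : 0 ≤ wd b ℓ n y :=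
  Int.emod_nonneg _ (by positivity)

lemma wd_lt {b : ℕ} (hb : 2 ≤ b) (ℓ n : ℕ) (y : ℝ) : wd b ℓ n y < (b : ℤ) ^ ℓ :=
  Int.emod_lt_of_pos _ (by positivity)

lemma wd_mem {b : ℕ} (hb : 2 ≤ b) {ℓ n : ℕ} {y : ℝ} {a : ℕ} (h : wd b ℓ n y = a) :
    ∃ z : ℤ, (z : ℝ) + (a : ℝ) / ((b ^ ℓ : ℕ) : ℝ) ≤ (b : ℝ) ^ n * y ∧
      (b : ℝ) ^ n * y < z + ((a : ℝ) + 1) / ((b ^ ℓ : ℕ) : ℝ) := by
  have hb0 : (0 : ℝ) < b := by positivity
  set F : ℤ := ⌊(b : ℝ) ^ (n + ℓ) * y⌋ with hF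
  have h1 : F % (b : ℤ) ^ ℓ = a := h
  have h2 : F = (b : ℤ) ^ ℓ * (F / (b : ℤ) ^ ℓ) + a := by
    rw [← h1]; exact (Int.mul_ediv_add_emod F ((b : ℤ) ^ ℓ)).symm
  set z : ℤ := F / (b : ℤ) ^ ℓ with hz
  have h3 : (F : ℝ) = (b : ℝ) ^ ℓ * z + a := by
    have := congrArg (Int.cast (R := ℝ)) h2
    push_cast at this
    exact this
  have hp : (0 : ℝ) < (b : ℝ) ^ ℓ := by positivity
  have h4 : (F : ℝ) ≤ (b : ℝ) ^ (n + ℓ) * y := Int.floor_le _
  have h5 : (b : ℝ) ^ (n + ℓ) * y < F + 1 := Int.lt_floor_add_one _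
  have h6 : (b : ℝ) ^ (n + ℓ) * y = (b : ℝ) ^ ℓ * ((b : ℝ) ^ n * y) := by rw [pow_add]; ring
  rw [h6, h3] at h4 h5
  push_cast
  refine ⟨z, ?_, ?_⟩
  · have : (z : ℝ) + a / (b : ℝ) ^ ℓ = ((b : ℝ) ^ ℓ * z + a) / (b : ℝ) ^ ℓ := by field_simp
    rw [this, div_le_iff₀ hp]
    linarith
  · have : (z : ℝ) + (a + 1) / (b : ℝ) ^ ℓ = ((b : ℝ) ^ ℓ * z + a + 1) / (b : ℝ) ^ ℓ := by
      field_simp
      ring
    rw [this, lt_div_iff₀ hp]
    linarith

lemma wd_grid {b : ℕ} (hb : 2 ≤ b) {ℓ n K : ℕ} (h : n + ℓ ≤ K) (t : ℕ) :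
    wd b ℓ n ((t : ℝ) / ((b ^ K : ℕ) : ℝ)) = ((t / b ^ (K - (n + ℓ)) % b ^ ℓ : ℕ) : ℤ) := by
  have hb0 : (0 : ℝ) < b := by positivity
  unfold wd
  have h1 : (b : ℝ) ^ (n + ℓ) * ((t : ℝ) / ((b ^ K : ℕ) : ℝ)) = (t : ℝ) / ((b ^ (K - (n + ℓ)) : ℕ) : ℝ) := by
    have h2 : (b : ℝ) ^ K = (b : ℝ) ^ (K - (n + ℓ)) * (b : ℝ) ^ (n + ℓ) := by
      rw [← pow_add]; congr 1; omega
    push_cast
    rw [h2]
    field_simp
  rw [h1, Int.floor_div_natCast, Int.floor_natCast]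
  push_cast
  rfl

lemma count_one {b : ℕ} (hb : 2 ≤ b) {P ℓ α : ℕ} (hℓ : ℓ ≤ P) (hα : α < b ^ ℓ) :
    ((range (b ^ P)).filter (fun u => u % b ^ ℓ = α)).card = b ^ (P - ℓ) := by
  have h0 : 0 < b ^ ℓ := by positivity
  have hP : b ^ P = b ^ (P - ℓ) * b ^ ℓ := by rw [← pow_add]; congr 1; omega
  have : (range (b ^ P)).filter (fun u => u % b ^ ℓ = α) = (range (b ^ (P - ℓ))).image (fun w => w * b ^ ℓ + α) := by
    ext u
    simp only [mem_filter, mem_range, mem_image]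
    constructor
    · rintro ⟨h1, h2⟩
      refine ⟨u / b ^ ℓ, ?_, ?_⟩
      · rw [Nat.div_lt_iff_lt_mul h0, ← hP]; exact h1
      · have := Nat.div_add_mod u (b ^ ℓ)
        rw [h2] at this
        rw [mul_comm]; exact this
    · rintro ⟨w, hw, rfl⟩
      refine ⟨?_, ?_⟩
      · rw [hP]
        calc w * b ^ ℓ + α < w * b ^ ℓ + b ^ ℓ := by omega
          _ = (w + 1) * b ^ ℓ := by ring
          _ ≤ _ := Nat.mul_le_mul_right _ hw
      · rw [mul_comm, Nat.mul_add_mod, Nat.mod_eq_of_lt hα]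
  rw [this, card_image_of_injOn, card_range]
  intro x _ y _ hxy
  simp only at hxy
  have := Nat.add_right_cancel hxy
  exact Nat.eq_of_mul_eq_mul_right h0 this

lemma digit_low {b : ℕ} (hb : 2 ≤ b) {q Q ℓ : ℕ} (h : q + ℓ ≤ Q) (t : ℕ) :
    t / b ^ q % b ^ ℓ = (t % b ^ Q) / b ^ q % b ^ ℓ := by
  have hQ : b ^ Q = b ^ q * (b ^ ℓ * b ^ (Q - q - ℓ)) := by
    rw [← pow_add, ← pow_add]; congr 1; omega
  have h1 := Nat.div_add_mod t (b ^ Q)
  have h2 : t = b ^ q * (b ^ ℓ * (b ^ (Q - q - ℓ) * (t / b ^ Q))) + t % b ^ Q := by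
    have h3 : b ^ q * (b ^ ℓ * (b ^ (Q - q - ℓ) * (t / b ^ Q))) = b ^ Q * (t / b ^ Q) := by
      rw [hQ]; ring
    rw [h3, h1]
  conv_lhs => rw [h2]
  rw [Nat.mul_add_div (by positivity), Nat.mul_add_mod]

/-- counting the integers below `b^K` with prescribed digits in disjoint windows -/
lemma count_win {b : ℕ} (hb : 2 ≤ b) {ℓ : ℕ} (hℓ : 1 ≤ ℓ) {ι : Type*} [DecidableEq ι] (q al : ι → ℕ)
    (hal : ∀ i, al i < b ^ ℓ) (J : Finset ι) :
    (∀ i ∈ J, ∀ j ∈ J, i ≠ j → q i + ℓ ≤ q j ∨ q j + ℓ ≤ q i) → ∀ K : ℕ, (∀ i ∈ J, q i + ℓ ≤ K) →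
      J.card * ℓ ≤ K ∧
      ((range (b ^ K)).filter (fun t => ∀ i ∈ J, t / b ^ (q i) % b ^ ℓ = al i)).card = b ^ (K - J.card * ℓ) := by
  induction J using Finset.induction_on_max_value q with
  | empty =>
    intro _ K _
    simp
  | insert a J ha hmax ih =>
    intro hdis K hK
    have hJa : ∀ i ∈ J, q i + ℓ ≤ q a := by
      intro i hi
      have hia : i ≠ a := fun h => ha (h ▸ hi)
      rcases hdis i (mem_insert_of_mem hi) a (mem_insert_self _ _) hia with h | h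
      · exact h
      · have := hmax i hi
        omega
    obtain ⟨h1, h2⟩ := ih (fun i hi j hj => hdis i (mem_insert_of_mem hi) j (mem_insert_of_mem hj)) (q a) hJa
    have hKa := hK a (mem_insert_self _ _)
    rw [card_insert_of_notMem ha]
    refine ⟨by nlinarith, ?_⟩
    have hcount := count_one hb (P := K - q a) (ℓ := ℓ) (α := al a) (by omega) (hal a)
    have hKK : b ^ K = b ^ (q a) * b ^ (K - q a) := by rw [← pow_add]; congr 1; omega
    have hq0 : 0 < b ^ (q a) := by positivity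
    have hbij : ((range (b ^ K)).filter (fun t => ∀ i ∈ insert a J, t / b ^ (q i) % b ^ ℓ = al i)).card =
        (((range (b ^ (K - q a))).filter (fun u => u % b ^ ℓ = al a)) ×ˢ
          ((range (b ^ (q a))).filter (fun t => ∀ i ∈ J, t / b ^ (q i) % b ^ ℓ = al i))).card := by
      apply card_nbij' (fun t => (t / b ^ (q a), t % b ^ (q a))) (fun p => b ^ (q a) * p.1 + p.2)
      · intro t ht
        rw [mem_coe, mem_filter, mem_range] at ht
        rw [mem_coe, mem_product, mem_filter, mem_filter, mem_range, mem_range]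
        refine ⟨⟨?_, ht.2 a (mem_insert_self _ _)⟩, Nat.mod_lt _ hq0, ?_⟩
        · show t / b ^ (q a) < _
          rw [Nat.div_lt_iff_lt_mul hq0, mul_comm, ← hKK]; exact ht.1
        · intro i hi
          rw [← digit_low hb (hJa i hi)]
          exact ht.2 i (mem_insert_of_mem hi)
      · intro p hp
        rw [mem_coe, mem_product, mem_filter, mem_filter, mem_range, mem_range] at hp
        rw [mem_coe, mem_filter, mem_range]
        have hd : (b ^ (q a) * p.1 + p.2) / b ^ (q a) = p.1 := by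
          rw [Nat.mul_add_div hq0, Nat.div_eq_of_lt hp.2.1, add_zero]
        have hm : (b ^ (q a) * p.1 + p.2) % b ^ (q a) = p.2 := by
          rw [Nat.mul_add_mod, Nat.mod_eq_of_lt hp.2.1]
        refine ⟨?_, ?_⟩
        · rw [hKK]
          have h3 : p.1 + 1 ≤ b ^ (K - q a) := hp.1.1
          calc b ^ (q a) * p.1 + p.2 < b ^ (q a) * p.1 + b ^ (q a) := by have := hp.2.1; omega
            _ = b ^ (q a) * (p.1 + 1) := by ring
            _ ≤ _ := Nat.mul_le_mul_left _ h3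
        · intro i hi
          rw [mem_insert] at hi
          rcases hi with rfl | hi
          · rw [hd]; exact hp.1.2
          · rw [digit_low hb (hJa i hi), hm]
            exact hp.2.2 i hi
      · intro t _
        exact Nat.div_add_mod t _
      · intro p hp
        rw [mem_coe, mem_product, mem_filter, mem_filter, mem_range, mem_range] at hp
        have hd : (b ^ (q a) * p.1 + p.2) / b ^ (q a) = p.1 := by
          rw [Nat.mul_add_div hq0, Nat.div_eq_of_lt hp.2.1, add_zero]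
        have hm : (b ^ (q a) * p.1 + p.2) % b ^ (q a) = p.2 := by
          rw [Nat.mul_add_mod, Nat.mod_eq_of_lt hp.2.1]
        exact Prod.ext hd hm
    rw [hbij, card_product, hcount, h2, ← pow_add]
    congr 1
    have : (J.card + 1) * ℓ = J.card * ℓ + ℓ := by ring
    omega

lemma count_win' {b : ℕ} (hb : 2 ≤ b) {ℓ : ℕ} (hℓ : 1 ≤ ℓ) {ι : Type*} [DecidableEq ι] (q al : ι → ℕ)
    (hal : ∀ i, al i < b ^ ℓ) (J : Finset ι)
    (hd : ∀ i ∈ J, ∀ j ∈ J, i ≠ j → q i + ℓ ≤ q j ∨ q j + ℓ ≤ q i) (K : ℕ) (hK : ∀ i ∈ J, q i + ℓ ≤ K)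
    (p : ℕ → Prop) [DecidablePred p] (hp : ∀ t, p t ↔ ∀ i ∈ J, t / b ^ (q i) % b ^ ℓ = al i) :
    ((range (b ^ K)).filter p).card = b ^ (K - J.card * ℓ) := by
  rw [← (count_win hb hℓ q al hal J hd K hK).2]
  congr 1
  ext t
  rw [mem_filter, mem_filter, hp]

/-- the mean value of a weight in the uniform model -/
lemma Wt_mean {b : ℕ} (hb : 2 ≤ b) {K R e : ℕ} (hR : 1 ≤ R) (he : R * b ^ e ≤ b ^ K) (c : ℤ) (n : ℕ) :
    ∑ t ∈ range (b ^ K), Wt R c n ((b : ℝ) ^ e * ((t : ℝ) / ((b ^ K : ℕ) : ℝ))) = ((b ^ K : ℕ) : ℝ) * (n / R) := by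
  have hT1 : 1 ≤ b ^ K := Nat.one_le_pow _ _ (by omega)
  have hR0 : (R : ℝ) ≠ 0 := by positivity
  have key : ∀ φ : ℝ, ∑ t ∈ range (b ^ K), ‖DK R ((b : ℝ) ^ e * ((t : ℝ) / ((b ^ K : ℕ) : ℝ)) - φ)‖ ^ 2 =
      ((b ^ K : ℕ) : ℝ) * R := by
    intro φ
    have h1 : ((∑ t ∈ range (b ^ K), ‖DK R ((b : ℝ) ^ e * ((t : ℝ) / ((b ^ K : ℕ) : ℝ)) - φ)‖ ^ 2 : ℝ) : ℂ) =
        (((b ^ K : ℕ) : ℝ) * R : ℝ) := by
      rw [Complex.ofReal_sum]
      simp_rw [DK_sq]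
      rw [sum_comm]
      have h2 : ∀ k ∈ range R, ∑ t ∈ range (b ^ K), ∑ l ∈ range R,
          ee ((((k : ℤ) - (l : ℤ) : ℤ) : ℝ) * ((b : ℝ) ^ e * ((t : ℝ) / ((b ^ K : ℕ) : ℝ)) - φ)) = ((b ^ K : ℕ) : ℂ) := by
        intro k hk
        rw [sum_comm, sum_eq_single k]
        · simp [ee_zero]
        · intro l hl hlk
          have h3 : ∀ t : ℕ, ee ((((k : ℤ) - (l : ℤ) : ℤ) : ℝ) * ((b : ℝ) ^ e * ((t : ℝ) / ((b ^ K : ℕ) : ℝ)) - φ)) =
              ee (-((((k : ℤ) - (l : ℤ) : ℤ) : ℝ) * φ)) *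
                ee (((((k : ℤ) - (l : ℤ)) * (b : ℤ) ^ e : ℤ) : ℝ) * ((t : ℝ) / ((b ^ K : ℕ) : ℝ))) := by
            intro t
            rw [← ee_add]
            congr 1
            push_cast
            ring
          simp_rw [h3]
          rw [← mul_sum, grid_sum hT1, mul_zero]
          · rw [mem_range] at hk hl
            have : (k : ℤ) - l ≠ 0 := by omega
            positivity
          · rw [mem_range] at hk hl
            rw [abs_mul, abs_of_nonneg (by positivity : (0 : ℤ) ≤ (b : ℤ) ^ e)]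
            have h4 : |(k : ℤ) - l| < R := by rw [abs_lt]; constructor <;> omega
            have h5 : ((R * b ^ e : ℕ) : ℤ) ≤ ((b ^ K : ℕ) : ℤ) := by exact_mod_cast he
            push_cast at h5 ⊢
            have h6 : (0 : ℤ) < (b : ℤ) ^ e := by positivity
            nlinarith
        · intro h; exact absurd hk h
      rw [sum_congr rfl h2, sum_const, card_range, nsmul_eq_mul]
      push_cast
      ring
    exact_mod_cast h1
  unfold Wt
  rw [← sum_div, sum_comm]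
  have h7 : ∀ a ∈ range n, ∑ t ∈ range (b ^ K), ‖DK R ((b : ℝ) ^ e * ((t : ℝ) / ((b ^ K : ℕ) : ℝ)) - ((c : ℝ) + a) / R)‖ ^ 2 =
      ((b ^ K : ℕ) : ℝ) * R := fun a _ => key _
  rw [sum_congr rfl h7, sum_const, card_range, nsmul_eq_mul]
  field_simp

end Pool.Agent.W301.RM
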