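import Mathlib
import Pool.Agent.W301.RM.Unif

/-! Joint distribution of the words of digits of a family of points. -/

set_option autoImplicit false

namespace Pool.Agent.W301.RM
open Finset
open Pool.Agent.H807R2.Dav Pool.Agent.W301.SS

lemma upper {ι : Type*} (I : Finset ι) (hI : I.Nonempty) (y : ι → ℝ) {b s ℓ ρ R' : ℕ} (hb : 2 ≤ b)
    (hs : 1 ≤ s) (hℓ : 1 ≤ ℓ) (hρ : 2 ≤ ρ) (hQ : b ^ ℓ * R' = ρ ^ 4) (hn : R' + 2 * ρ ^ 3 ≤ ρ ^ 4)
    (n : Fin s → ℕ) (hdis : ∀ i j, i ≠ j → n i + ℓ ≤ n j ∨ n j + ℓ ≤ n i)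
    {B : ℝ} (hB : 0 ≤ B) (hsm : Small I y b s n (ρ ^ 4) B) (a : Fin s → ℕ) (ha : ∀ j, a j < b ^ ℓ) :
    ((I.filter (fun i => ∀ j, wd b ℓ (n j) (y i) = a j)).card : ℝ) ≤
      (1 / ((b ^ (s * ℓ) : ℕ) : ℝ) + (4 * s / ρ + ((ρ : ℝ) ^ 4) ^ s * B)) * I.card := by
  classical
  set R : ℕ := ρ ^ 4 with hR
  set n0 : ℕ := R' + 2 * ρ ^ 3 with hn0
  have hρ0 : (0 : ℝ) < ρ := by positivity
  have hρ2 : (2 : ℝ) ≤ ρ := by exact_mod_cast hρ
  have hR1 : 1 ≤ R := Nat.one_le_pow _ _ (by omega)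
  have hRR : (R : ℝ) = (ρ : ℝ) ^ 4 := by rw [hR]; push_cast; ring
  have hR0 : (0 : ℝ) < R := by rw [hRR]; positivity
  have hI0 : (0 : ℝ) < I.card := by exact_mod_cast hI.card_pos
  set N : ℕ := ∑ j, n j with hN
  have hnN : ∀ j, n j ≤ N := fun j => single_le_sum (f := n) (fun _ _ => Nat.zero_le _) (mem_univ j)
  set K : ℕ := N + ℓ + s + R with hK
  set T : ℕ := b ^ K with hT
  have hT1 : 1 ≤ T := Nat.one_le_pow _ _ (by omega)
  have hT0 : (0 : ℝ) < (T : ℝ) := by exact_mod_cast hT1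
  have hpow : ∀ m : ℕ, m ≤ b ^ m := fun m => (Nat.lt_pow_self (by omega : 1 < b)).le
  have hKs : s * R * b ^ N ≤ b ^ K := by
    calc s * R * b ^ N ≤ b ^ s * b ^ R * b ^ N := Nat.mul_le_mul_right _ (Nat.mul_le_mul (hpow s) (hpow R))
      _ = b ^ (s + R + N) := by rw [pow_add, pow_add]
      _ ≤ b ^ K := Nat.pow_le_pow_right (by omega) (by omega)
  set c : Fin s → ℤ := fun j => (a j : ℤ) * R' - ρ ^ 3 with hc
  set W : Fin s → ℝ → ℝ := fun j y => Wt R (c j) n0 ((b : ℝ) ^ (n j) * y) with hW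
  have hW0 : ∀ j y, 0 ≤ W j y := fun j y => Wt_nonneg _ _ _ _
  have hW1 : ∀ j y, W j y ≤ 1 := fun j y => Wt_le_one hR1 _ hn _
  have hWlow : ∀ j y, wd b ℓ (n j) y = a j → 1 - 1 / (ρ : ℝ) ^ 2 ≤ W j y := by
    intro j y h
    obtain ⟨z, h1, h2⟩ := wd_mem hb h
    exact Wt_lower hρ hQ hn h1 h2
  have hτ0 : (0 : ℝ) ≤ 1 / (ρ : ℝ) ^ 2 := by positivity
  have hτ1 : 1 / (ρ : ℝ) ^ 2 ≤ 1 := by
    rw [div_le_one (by positivity)]
    nlinarith
  have hττ : 1 / (ρ : ℝ) ^ 2 ≤ 1 / ρ := by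
    apply one_div_le_one_div_of_le hρ0
    nlinarith
  -- step 1
  have h1 : ((I.filter (fun i => ∀ j, wd b ℓ (n j) (y i) = a j)).card : ℝ) ≤
      ∑ i ∈ I, ∏ j, W j (y i) + s * (1 / (ρ : ℝ) ^ 2) * I.card := by
    have h2 : ((I.filter (fun i => ∀ j, wd b ℓ (n j) (y i) = a j)).card : ℝ) * (1 - s * (1 / (ρ : ℝ) ^ 2)) ≤
        ∑ i ∈ I, ∏ j, W j (y i) := by
      calc ((I.filter (fun i => ∀ j, wd b ℓ (n j) (y i) = a j)).card : ℝ) * (1 - s * (1 / (ρ : ℝ) ^ 2)) =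
            ∑ i ∈ I.filter (fun i => ∀ j, wd b ℓ (n j) (y i) = a j), (1 - s * (1 / (ρ : ℝ) ^ 2)) := by
            rw [sum_const, nsmul_eq_mul]
        _ ≤ ∑ i ∈ I.filter (fun i => ∀ j, wd b ℓ (n j) (y i) = a j), ∏ j, W j (y i) := by
            apply sum_le_sum
            intro i hi
            rw [mem_filter] at hi
            have h3 : (1 - 1 / (ρ : ℝ) ^ 2) ^ s ≤ ∏ j, W j (y i) := by
              calc (1 - 1 / (ρ : ℝ) ^ 2) ^ s = ∏ _j : Fin s, (1 - 1 / (ρ : ℝ) ^ 2) := by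
                    rw [prod_const, card_univ, Fintype.card_fin]
                _ ≤ _ := prod_le_prod (fun _ _ => by linarith) (fun j _ => hWlow j _ (hi.2 j))
            have h4 := one_add_mul_le_pow (a := -(1 / (ρ : ℝ) ^ 2)) (by linarith) s
            have h5 : (1 : ℝ) + -(1 / (ρ : ℝ) ^ 2) = 1 - 1 / (ρ : ℝ) ^ 2 := by ring
            rw [h5] at h4
            linarith
        _ ≤ _ := sum_le_sum_of_subset_of_nonneg (filter_subset _ _)
            (fun _ _ _ => prod_nonneg fun _ _ => hW0 _ _)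
    have h6 : ((I.filter (fun i => ∀ j, wd b ℓ (n j) (y i) = a j)).card : ℝ) ≤ I.card := by
      exact_mod_cast card_filter_le _ _
    have h7 : (0 : ℝ) ≤ s * (1 / (ρ : ℝ) ^ 2) := by positivity
    nlinarith [mul_le_mul_of_nonneg_left h6 h7]
  -- step 2
  have h2 := compare I hI y hb hs n hnN hKs hR1 hB hsm c (fun _ => n0) (fun _ => hn)
  -- step 3
  have hq : ∀ j, n j + ℓ ≤ K := fun j => by have := hnN j; omega
  have hev : ∀ (j : Fin s) (t : ℕ), wd b ℓ (n j) ((t : ℝ) / ((b ^ K : ℕ) : ℝ)) = a j ↔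
      t / b ^ (K - (n j + ℓ)) % b ^ ℓ = a j := by
    intro j t
    rw [wd_grid hb (hq j)]
    exact_mod_cast Iff.rfl
  have hdis' : ∀ i ∈ (univ : Finset (Fin s)), ∀ j ∈ (univ : Finset (Fin s)), i ≠ j →
      (K - (n i + ℓ)) + ℓ ≤ K - (n j + ℓ) ∨ (K - (n j + ℓ)) + ℓ ≤ K - (n i + ℓ) := by
    intro i _ j _ hij
    have h3 := hq i
    have h4 := hq j
    rcases hdis i j hij with h | h
    · right; omega
    · left; omega
  have hall := count_win hb hℓ (fun j => K - (n j + ℓ)) a ha (univ : Finset (Fin s)) hdis' K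
    (fun i _ => by have := hq i; omega)
  rw [card_univ, Fintype.card_fin] at hall
  have hsing : ∀ j : Fin s, ((range T).filter (fun t : ℕ => wd b ℓ (n j) ((t : ℝ) / ((b ^ K : ℕ) : ℝ)) = a j)).card =
      b ^ (K - ℓ) := by
    intro j
    have h3 := count_win' hb hℓ (fun j => K - (n j + ℓ)) a ha ({j} : Finset (Fin s)) (by
      intro i hi k hk hik
      rw [mem_singleton] at hi hk
      exact absurd (hi.trans hk.symm) hik) K (fun i _ => by have := hq i; omega)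
      (fun t : ℕ => wd b ℓ (n j) ((t : ℝ) / ((b ^ K : ℕ) : ℝ)) = a j) (by
        intro t
        rw [hev]
        simp)
    rw [card_singleton, one_mul] at h3
    exact h3
  have hallc : ((range T).filter (fun t : ℕ => ∀ j, wd b ℓ (n j) ((t : ℝ) / ((b ^ K : ℕ) : ℝ)) = a j)).card =
      b ^ (K - s * ℓ) := by
    have h3 := count_win' hb hℓ (fun j => K - (n j + ℓ)) a ha (univ : Finset (Fin s)) hdis' K
      (fun i _ => by have := hq i; omega)
      (fun t : ℕ => ∀ j, wd b ℓ (n j) ((t : ℝ) / ((b ^ K : ℕ) : ℝ)) = a j) (by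
        intro t
        simp only [hev, mem_univ, true_implies])
    rw [card_univ, Fintype.card_fin] at h3
    exact h3
  have hRb : (b : ℝ) ^ ℓ * R' = R := by exact_mod_cast hQ
  have hn0R : (n0 : ℝ) / R = 1 / (b : ℝ) ^ ℓ + 2 / ρ := by
    have hR'0 : (R' : ℝ) ≠ 0 := by
      intro h
      rw [h, mul_zero] at hRb
      exact hR0.ne hRb
    have e1 : (n0 : ℝ) = R' + 2 * (ρ : ℝ) ^ 3 := by rw [hn0]; push_cast; ring
    have e2 : (R' : ℝ) / R = 1 / (b : ℝ) ^ ℓ := by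
      rw [← hRb]
      have hb0 : (b : ℝ) ≠ 0 := by positivity
      field_simp
    have e3 : 2 * (ρ : ℝ) ^ 3 / R = 2 / ρ := by
      rw [hRR]; field_simp
    rw [e1, add_div, e2, e3]
  have hTl : ((b ^ (K - ℓ) : ℕ) : ℝ) = T * (1 / (b : ℝ) ^ ℓ) := by
    have : (b : ℝ) ^ K = (b : ℝ) ^ (K - ℓ) * (b : ℝ) ^ ℓ := by rw [← pow_add]; congr 1; omega
    have hb0 : (b : ℝ) ≠ 0 := by positivity
    rw [hT]
    push_cast
    rw [this]
    field_simp
  have hTs : ((b ^ (K - s * ℓ) : ℕ) : ℝ) = T * (1 / ((b ^ (s * ℓ) : ℕ) : ℝ)) := by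
    have : (b : ℝ) ^ K = (b : ℝ) ^ (K - s * ℓ) * (b : ℝ) ^ (s * ℓ) := by
      rw [← pow_add]; congr 1; have := hall.1; omega
    have hb0 : (b : ℝ) ≠ 0 := by positivity
    rw [hT]
    push_cast
    rw [this]
    field_simp
  have hout : ∀ j : Fin s, ∑ t ∈ range T, (if wd b ℓ (n j) ((t : ℝ) / ((b ^ K : ℕ) : ℝ)) = a j then 0
      else W j ((t : ℝ) / ((b ^ K : ℕ) : ℝ))) ≤ T * (3 / ρ) := by
    intro j
    have h3 := Wt_mean hb (K := K) (R := R) (e := n j) hR1 (by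
      refine le_trans ?_ hKs
      have h5 : b ^ (n j) ≤ b ^ N := Nat.pow_le_pow_right (by omega) (hnN j)
      calc R * b ^ (n j) ≤ R * b ^ N := Nat.mul_le_mul_left _ h5
        _ ≤ s * (R * b ^ N) := Nat.le_mul_of_pos_left _ hs
        _ = _ := by ring) (c j) n0
    have h4 : ∑ t ∈ range T, (if wd b ℓ (n j) ((t : ℝ) / ((b ^ K : ℕ) : ℝ)) = a j then 0
        else W j ((t : ℝ) / ((b ^ K : ℕ) : ℝ))) = ∑ t ∈ range T, W j ((t : ℝ) / ((b ^ K : ℕ) : ℝ)) -
        ∑ t ∈ (range T).filter (fun t : ℕ => wd b ℓ (n j) ((t : ℝ) / ((b ^ K : ℕ) : ℝ)) = a j),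
          W j ((t : ℝ) / ((b ^ K : ℕ) : ℝ)) := by
      rw [sum_filter, ← sum_sub_distrib]
      apply sum_congr rfl
      intro t _
      split_ifs <;> ring
    have h5 : ((b ^ (K - ℓ) : ℕ) : ℝ) * (1 - 1 / (ρ : ℝ) ^ 2) ≤
        ∑ t ∈ (range T).filter (fun t : ℕ => wd b ℓ (n j) ((t : ℝ) / ((b ^ K : ℕ) : ℝ)) = a j),
          W j ((t : ℝ) / ((b ^ K : ℕ) : ℝ)) := by
      rw [← hsing j, ← nsmul_eq_mul, ← sum_const]
      apply sum_le_sum
      intro t ht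
      rw [mem_filter] at ht
      exact hWlow j _ ht.2
    have h6 : ∑ t ∈ range T, W j ((t : ℝ) / ((b ^ K : ℕ) : ℝ)) = T * (1 / (b : ℝ) ^ ℓ + 2 / ρ) := by
      rw [← hn0R]; exact h3
    rw [h4, h6]
    rw [hTl] at h5
    have h7 : 1 / (b : ℝ) ^ ℓ ≤ 1 := by
      rw [div_le_one (by positivity)]
      apply one_le_pow₀
      have : (2 : ℝ) ≤ b := by exact_mod_cast hb
      linarith
    have h8 : (0 : ℝ) ≤ 1 / (b : ℝ) ^ ℓ := by positivity
    have h9 : 1 / (b : ℝ) ^ ℓ * (1 / (ρ : ℝ) ^ 2) ≤ 1 / ρ := by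
      calc 1 / (b : ℝ) ^ ℓ * (1 / (ρ : ℝ) ^ 2) ≤ 1 * (1 / (ρ : ℝ) ^ 2) := mul_le_mul_of_nonneg_right h7 hτ0
        _ ≤ _ := by rw [one_mul]; exact hττ
    have h10 : (T : ℝ) * (1 / (b : ℝ) ^ ℓ + 2 / ρ) - T * (1 / (b : ℝ) ^ ℓ) * (1 - 1 / (ρ : ℝ) ^ 2) =
        T * (2 / ρ + 1 / (b : ℝ) ^ ℓ * (1 / (ρ : ℝ) ^ 2)) := by ring
    have h11 : (T : ℝ) * (2 / ρ + 1 / (b : ℝ) ^ ℓ * (1 / (ρ : ℝ) ^ 2)) ≤ T * (3 / ρ) := by
      apply mul_le_mul_of_nonneg_left _ hT0.le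
      have : (3 : ℝ) / ρ = 2 / ρ + 1 / ρ := by ring
      linarith
    linarith
  have h3 : ∑ t ∈ range T, ∏ j, W j ((t : ℝ) / ((b ^ K : ℕ) : ℝ)) ≤
      T * (1 / ((b ^ (s * ℓ) : ℕ) : ℝ) + s * (3 / ρ)) := by
    calc ∑ t ∈ range T, ∏ j, W j ((t : ℝ) / ((b ^ K : ℕ) : ℝ)) ≤
          ∑ t ∈ range T, ((if ∀ j, wd b ℓ (n j) ((t : ℝ) / ((b ^ K : ℕ) : ℝ)) = a j then 1 else 0) +
            ∑ j : Fin s, (if wd b ℓ (n j) ((t : ℝ) / ((b ^ K : ℕ) : ℝ)) = a j then 0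
              else W j ((t : ℝ) / ((b ^ K : ℕ) : ℝ)))) := by
          apply sum_le_sum
          intro t _
          split_ifs with h
          · have h4 : ∏ j, W j ((t : ℝ) / ((b ^ K : ℕ) : ℝ)) ≤ 1 :=
              prod_le_one (fun _ _ => hW0 _ _) (fun _ _ => hW1 _ _)
            have h5 : 0 ≤ ∑ j : Fin s, (if wd b ℓ (n j) ((t : ℝ) / ((b ^ K : ℕ) : ℝ)) = a j then 0
              else W j ((t : ℝ) / ((b ^ K : ℕ) : ℝ))) := by
              apply sum_nonneg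
              intro j _
              split_ifs
              · exact le_rfl
              · exact hW0 _ _
            linarith
          · push Not at h
            obtain ⟨j0, hj0⟩ := h
            have h4 : ∏ j, W j ((t : ℝ) / ((b ^ K : ℕ) : ℝ)) ≤ W j0 ((t : ℝ) / ((b ^ K : ℕ) : ℝ)) := by
              rw [← mul_prod_erase univ _ (mem_univ j0)]
              apply mul_le_of_le_one_right (hW0 _ _)
              exact prod_le_one (fun _ _ => hW0 _ _) (fun _ _ => hW1 _ _)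
            have h5 : W j0 ((t : ℝ) / ((b ^ K : ℕ) : ℝ)) ≤
                ∑ j : Fin s, (if wd b ℓ (n j) ((t : ℝ) / ((b ^ K : ℕ) : ℝ)) = a j then 0
                  else W j ((t : ℝ) / ((b ^ K : ℕ) : ℝ))) := by
              have h6 := single_le_sum (f := fun j : Fin s => (if wd b ℓ (n j) ((t : ℝ) / ((b ^ K : ℕ) : ℝ)) = a j
                  then 0 else W j ((t : ℝ) / ((b ^ K : ℕ) : ℝ)))) (fun j _ => by
                    show 0 ≤ (if wd b ℓ (n j) ((t : ℝ) / ((b ^ K : ℕ) : ℝ)) = a j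
                      then 0 else W j ((t : ℝ) / ((b ^ K : ℕ) : ℝ)))
                    split_ifs
                    · exact le_rfl
                    · exact hW0 _ _) (mem_univ j0)
              simp only [if_neg hj0] at h6
              exact h6
            linarith
      _ = ((b ^ (K - s * ℓ) : ℕ) : ℝ) + ∑ j : Fin s, ∑ t ∈ range T,
            (if wd b ℓ (n j) ((t : ℝ) / ((b ^ K : ℕ) : ℝ)) = a j then 0
              else W j ((t : ℝ) / ((b ^ K : ℕ) : ℝ))) := by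
          rw [sum_add_distrib, sum_comm (s := range T) (t := univ), ← hallc, card_filter]
          push_cast
          rfl
      _ ≤ T * (1 / ((b ^ (s * ℓ) : ℕ) : ℝ)) + ∑ _j : Fin s, ((T : ℝ) * (3 / (ρ : ℝ))) := by
          rw [hTs]
          exact add_le_add le_rfl (sum_le_sum fun j _ => hout j)
      _ = _ := by
          rw [sum_const, card_univ, Fintype.card_fin, nsmul_eq_mul]
          ring
  have h4 : (∑ t ∈ range (b ^ K), ∏ j, Wt R (c j) n0 ((b : ℝ) ^ (n j) * ((t : ℝ) / (b ^ K : ℕ)))) / (b ^ K : ℕ) ≤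
      1 / ((b ^ (s * ℓ) : ℕ) : ℝ) + s * (3 / ρ) := by
    rw [div_le_iff₀ hT0, mul_comm]
    exact h3
  rw [div_le_iff₀ hI0] at h2
  have h5 : ∑ i ∈ I, ∏ j, W j (y i) ≤ (1 / ((b ^ (s * ℓ) : ℕ) : ℝ) + s * (3 / ρ) + (R : ℝ) ^ s * B) * I.card := by
    refine h2.trans ?_
    apply mul_le_mul_of_nonneg_right _ hI0.le
    linarith
  have h6 : (s : ℝ) * (1 / (ρ : ℝ) ^ 2) * I.card ≤ s * (1 / ρ) * I.card := by
    apply mul_le_mul_of_nonneg_right _ hI0.le
    exact mul_le_mul_of_nonneg_left hττ (by positivity)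
  calc _ ≤ _ := h1
    _ ≤ (1 / ((b ^ (s * ℓ) : ℕ) : ℝ) + s * (3 / ρ) + (R : ℝ) ^ s * B) * I.card + s * (1 / ρ) * I.card :=
        add_le_add h5 h6
    _ = _ := by rw [hRR]; ring

/-- the tuple of words at the places `n j` -/
noncomputable def tup (b ℓ : ℕ) {s : ℕ} (n : Fin s → ℕ) (y : ℝ) : Fin s → ℤ := fun j => wd b ℓ (n j) y

/-- the box of all tuples of words -/
noncomputable def Box (b ℓ s : ℕ) : Finset (Fin s → ℤ) := Fintype.piFinset (fun _ => Finset.Ico (0 : ℤ) ((b : ℤ) ^ ℓ))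

lemma card_Box (b ℓ s : ℕ) : (Box b ℓ s).card = b ^ (s * ℓ) := by
  unfold Box
  rw [Fintype.card_piFinset, prod_const, card_univ, Fintype.card_fin, Int.card_Ico, sub_zero]
  have : ((b : ℤ) ^ ℓ).toNat = b ^ ℓ := by
    rw [← Nat.cast_pow]; exact Int.toNat_natCast _
  rw [this, ← pow_mul, mul_comm]

lemma tup_mem {b : ℕ} (hb : 2 ≤ b) (ℓ : ℕ) {s : ℕ} (n : Fin s → ℕ) (y : ℝ) : tup b ℓ n y ∈ Box b ℓ s := by
  unfold Box tup
  rw [Fintype.mem_piFinset]
  intro j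
  rw [mem_Ico]
  exact ⟨wd_nonneg hb _ _ _, wd_lt hb _ _ _⟩

open Classical in
lemma joint {ι : Type*} (I : Finset ι) (hI : I.Nonempty) (y : ι → ℝ) {b s ℓ ρ R' : ℕ} (hb : 2 ≤ b)
    (hs : 1 ≤ s) (hℓ : 1 ≤ ℓ) (hρ : 2 ≤ ρ) (hQ : b ^ ℓ * R' = ρ ^ 4) (hn : R' + 2 * ρ ^ 3 ≤ ρ ^ 4)
    (n : Fin s → ℕ) (hdis : ∀ i j, i ≠ j → n i + ℓ ≤ n j ∨ n j + ℓ ≤ n i)
    {B : ℝ} (hB : 0 ≤ B) (hsm : Small I y b s n (ρ ^ 4) B) (A : Finset (Fin s → ℤ)) (hA : A ⊆ Box b ℓ s) :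
    |((I.filter (fun i => tup b ℓ n (y i) ∈ A)).card : ℝ) - A.card / ((b ^ (s * ℓ) : ℕ) : ℝ) * I.card| ≤
      ((b ^ (s * ℓ) : ℕ) : ℝ) * (4 * s / ρ + ((ρ : ℝ) ^ 4) ^ s * B) * I.card := by
  set V : ℝ := ((b ^ (s * ℓ) : ℕ) : ℝ) with hV
  set er : ℝ := 4 * s / ρ + ((ρ : ℝ) ^ 4) ^ s * B with her
  have hV0 : 0 < V := by rw [hV]; positivity
  have her0 : 0 ≤ er := by rw [her]; positivity
  have hI0 : (0 : ℝ) < I.card := by exact_mod_cast hI.card_pos
  have hup : ∀ D : Finset (Fin s → ℤ), D ⊆ Box b ℓ s →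
      ((I.filter (fun i => tup b ℓ n (y i) ∈ D)).card : ℝ) ≤ D.card * ((1 / V + er) * I.card) := by
    intro D hD
    have h1 : (I.filter (fun i => tup b ℓ n (y i) ∈ D)).card =
        ∑ w ∈ D, (I.filter (fun i => tup b ℓ n (y i) = w)).card := by
      rw [card_eq_sum_card_fiberwise (f := fun i => tup b ℓ n (y i)) (t := D)]
      · apply sum_congr rfl
        intro w hw
        congr 1
        ext i
        simp only [mem_filter]
        constructor
        · rintro ⟨⟨h1, h2⟩, h3⟩; exact ⟨h1, h3⟩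
        · rintro ⟨h1, h3⟩; exact ⟨⟨h1, by rw [h3]; exact hw⟩, h3⟩
      · intro i hi
        rw [mem_coe, mem_filter] at hi
        exact hi.2
    rw [h1]
    push_cast
    rw [← nsmul_eq_mul, ← sum_const]
    apply sum_le_sum
    intro w hw
    have hwB := hD hw
    unfold Box at hwB
    rw [Fintype.mem_piFinset] at hwB
    have h2 := upper I hI y hb hs hℓ hρ hQ hn n hdis hB hsm (fun j => (w j).toNat) (fun j => by
      have h3 := mem_Ico.1 (hwB j)
      have h4 : ((w j).toNat : ℤ) < ((b ^ ℓ : ℕ) : ℤ) := by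
        rw [Int.toNat_of_nonneg h3.1]; push_cast; exact h3.2
      exact_mod_cast h4)
    refine le_trans ?_ h2
    exact_mod_cast card_le_card (by
      intro i hi
      rw [mem_filter] at hi ⊢
      refine ⟨hi.1, fun j => ?_⟩
      have h3 := mem_Ico.1 (hwB j)
      rw [Int.toNat_of_nonneg h3.1, ← hi.2]
      rfl)
  have h1 := hup A hA
  have h2 := hup (Box b ℓ s \ A) sdiff_subset
  have h3 : ((Box b ℓ s \ A).card : ℝ) = V - A.card := by
    rw [card_sdiff_of_subset hA, card_Box, Nat.cast_sub (by rw [← card_Box b ℓ s]; exact card_le_card hA)]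
  have h4 : ((I.filter (fun i => tup b ℓ n (y i) ∈ Box b ℓ s \ A)).card : ℝ) =
      I.card - (I.filter (fun i => tup b ℓ n (y i) ∈ A)).card := by
    have h5 := card_filter_add_card_filter_not (s := I) (fun i => tup b ℓ n (y i) ∈ A)
    have h6 : (I.filter (fun i => tup b ℓ n (y i) ∈ Box b ℓ s \ A)).card =
        (I.filter (fun i => ¬ tup b ℓ n (y i) ∈ A)).card := by
      congr 1
      apply filter_congr
      intro i _
      rw [mem_sdiff]
      constructor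
      · exact fun h => h.2
      · exact fun h => ⟨tup_mem hb _ _ _, h⟩
    rw [h6]
    have : ((I.filter (fun i => tup b ℓ n (y i) ∈ A)).card : ℝ) +
      ((I.filter (fun i => ¬ tup b ℓ n (y i) ∈ A)).card : ℝ) = I.card := by exact_mod_cast h5
    linarith
  rw [h3, h4] at h2
  have hAc : (A.card : ℝ) ≤ V := by
    rw [hV, ← card_Box b ℓ s]; exact_mod_cast card_le_card hA
  have hA0 : (0 : ℝ) ≤ A.card := Nat.cast_nonneg _
  have e1 : A.card * ((1 / V + er) * I.card) = A.card / V * I.card + A.card * er * (I.card : ℝ) := by ring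
  have e2 : (V - A.card) * ((1 / V + er) * I.card) = I.card - A.card / V * I.card +
      (V - A.card) * er * (I.card : ℝ) := by
    field_simp
  have h7 : A.card * er * (I.card : ℝ) ≤ V * er * I.card :=
    mul_le_mul_of_nonneg_right (mul_le_mul_of_nonneg_right hAc her0) hI0.le
  have h8 : (V - A.card) * er * (I.card : ℝ) ≤ V * er * I.card :=
    mul_le_mul_of_nonneg_right (mul_le_mul_of_nonneg_right (by linarith) her0) hI0.le
  rw [abs_le]
  constructor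
  · linarith
  · linarith

end Pool.Agent.W301.RM
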