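import Pool.Agent.W301.RM.Pow
import Pool.Agent.W346.NM.Poly
import Pool.Agent.W301.SS.Core

/-! Exponential sums over blocks. -/

set_option autoImplicit false

namespace Pool.Agent.W301.RM
open Finset
open Pool.Agent.H373R2.NB
open Pool.Agent.Helper602.MK (ee)
open Pool.Agent.Helper602.MK.N_J5b (norm_ee ee_add)

lemma ee_lip (x y : ℝ) : ‖ee x - ee y‖ ≤ 2 * Real.pi * |x - y| := by
  have h1 : ee x - ee y = ee y * (ee (x - y) - 1) := by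
    rw [mul_sub, ← ee_add, mul_one]; congr 2; ring
  rw [h1, norm_mul, norm_ee, one_mul]
  unfold ee
  have h2 := Real.norm_exp_I_mul_ofReal_sub_one_le (x := 2 * Real.pi * (x - y))
  have h3 : Complex.I * ((2 * Real.pi * (x - y) : ℝ) : ℂ) = 2 * Real.pi * ((x - y : ℝ) : ℂ) * Complex.I := by
    push_cast; ring
  rw [h3] at h2
  refine h2.trans (le_of_eq ?_)
  rw [Real.norm_eq_abs, abs_mul, abs_mul, abs_two, abs_of_pos Real.pi_pos]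

open Polynomial in
/-- sums of polynomial phases whose leading coefficient is small but not too small -/
lemma block_poly {k : ℕ} {cI mI : ℕ} (hcI : 1 ≤ cI)
    (hI : ∀ (N : ℕ) (u α : ℝ) (φ : ℕ → ℝ), 1 ≤ N → 1 ≤ u → Ph k α φ →
      (N : ℝ) ≤ u * ‖∑ n ∈ range N, ee (φ n)‖ →
      ∃ q : ℕ, 1 ≤ q ∧ (q : ℝ) ≤ cI * u ^ mI ∧ ∃ a : ℤ, |q * α - a| ≤ cI * u ^ mI / (N : ℝ) ^ k)
    (Q : ℝ[X]) (hQ : Q.natDegree ≤ k) {L : ℕ} (hL : 1 ≤ L) {u : ℝ} (hu : 1 ≤ u)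
    (h1 : cI * u ^ mI * |(k.factorial : ℝ) * Q.coeff k| < 1 / 2)
    (h2 : cI * u ^ mI < |(k.factorial : ℝ) * Q.coeff k| * (L : ℝ) ^ k) :
    ‖∑ n ∈ range L, ee (Q.eval (n : ℝ))‖ ≤ L / u := by
  by_contra hcon
  push Not at hcon
  set α : ℝ := (k.factorial : ℝ) * Q.coeff k with hα
  have hu0 : 0 < u := by linarith
  have hL0 : (0 : ℝ) < L := by exact_mod_cast hL
  have hLk : (0 : ℝ) < (L : ℝ) ^ k := by positivity
  have hcu : (1 : ℝ) ≤ cI * u ^ mI := by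
    have h3 : (1 : ℝ) ≤ cI := by exact_mod_cast hcI
    have h4 : (1 : ℝ) ≤ u ^ mI := one_le_pow₀ hu
    nlinarith
  have hPh := Pool.Agent.W346.NM.Ph_polyR k Q hQ 1
  rw [one_mul] at hPh
  simp only [one_mul] at hPh
  obtain ⟨q, hq1, hq2, a, ha⟩ := hI L u α _ hL hu hPh (by
    have := (div_lt_iff₀ hu0).1 hcon
    linarith)
  have hq1' : (1 : ℝ) ≤ q := by exact_mod_cast hq1
  have h3 : |(q : ℝ) * α| < 1 / 2 := by
    rw [abs_mul, abs_of_pos (by linarith : (0 : ℝ) < q)]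
    exact lt_of_le_of_lt (mul_le_mul_of_nonneg_right hq2 (abs_nonneg _)) h1
  have h4 : cI * u ^ mI / (L : ℝ) ^ k < |α| := by
    rw [div_lt_iff₀ hLk]; exact h2
  have h5 : |α| < 1 / 2 := by
    have := abs_nonneg α
    nlinarith
  have h6 : a = 0 := by
    have h7 : |(a : ℝ)| < 1 := by
      have e : (a : ℝ) = q * α - (q * α - a) := by ring
      rw [e]
      refine lt_of_le_of_lt (abs_sub _ _) ?_
      linarith
    exact Int.abs_lt_one_iff.1 (by exact_mod_cast h7)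
  rw [h6] at ha
  rw [Int.cast_zero, sub_zero, abs_mul, abs_of_pos (by linarith : (0 : ℝ) < q)] at ha
  have := abs_nonneg α
  nlinarith

open Polynomial in
/-- the same for small perturbations -/
lemma block_pert {k : ℕ} {cI mI : ℕ} (hcI : 1 ≤ cI)
    (hI : ∀ (N : ℕ) (u α : ℝ) (φ : ℕ → ℝ), 1 ≤ N → 1 ≤ u → Ph k α φ →
      (N : ℝ) ≤ u * ‖∑ n ∈ range N, ee (φ n)‖ →
      ∃ q : ℕ, 1 ≤ q ∧ (q : ℝ) ≤ cI * u ^ mI ∧ ∃ a : ℤ, |q * α - a| ≤ cI * u ^ mI / (N : ℝ) ^ k)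
    (Q : ℝ[X]) (hQ : Q.natDegree ≤ k) {L : ℕ} (hL : 1 ≤ L) {u : ℝ} (hu : 1 ≤ u)
    (h1 : cI * u ^ mI * |(k.factorial : ℝ) * Q.coeff k| < 1 / 2)
    (h2 : cI * u ^ mI < |(k.factorial : ℝ) * Q.coeff k| * (L : ℝ) ^ k)
    (φ : ℕ → ℝ) {ε : ℝ} (hφ : ∀ n < L, |φ n - Q.eval (n : ℝ)| ≤ ε) :
    ‖∑ n ∈ range L, ee (φ n)‖ ≤ L * (1 / u + 2 * Real.pi * ε) := by
  have h3 := block_poly hcI hI Q hQ hL hu h1 h2
  have h4 : ‖∑ n ∈ range L, ee (φ n) - ∑ n ∈ range L, ee (Q.eval (n : ℝ))‖ ≤ L * (2 * Real.pi * ε) := by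
    rw [← sum_sub_distrib]
    refine (norm_sum_le _ _).trans ?_
    have : ∀ n ∈ range L, ‖ee (φ n) - ee (Q.eval (n : ℝ))‖ ≤ 2 * Real.pi * ε := by
      intro n hn
      refine (ee_lip _ _).trans ?_
      exact mul_le_mul_of_nonneg_left (hφ n (mem_range.1 hn)) (by positivity)
    refine (sum_le_card_nsmul _ _ _ this).trans (le_of_eq ?_)
    rw [card_range, nsmul_eq_mul]
  have h5 : ∑ n ∈ range L, ee (φ n) = (∑ n ∈ range L, ee (φ n) - ∑ n ∈ range L, ee (Q.eval (n : ℝ))) +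
      ∑ n ∈ range L, ee (Q.eval (n : ℝ)) := by ring
  rw [h5]
  refine (norm_add_le _ _).trans ?_
  calc _ ≤ L * (2 * Real.pi * ε) + L / u := add_le_add h4 h3
    _ = _ := by ring

open Polynomial in
/-- blocks of the sequence `A m ^ κ + P(m)` -/
lemma block_pow {k : ℕ} {cI mI : ℕ} (hcI : 1 ≤ cI)
    (hI : ∀ (N : ℕ) (u α : ℝ) (φ : ℕ → ℝ), 1 ≤ N → 1 ≤ u → Ph k α φ →
      (N : ℝ) ≤ u * ‖∑ n ∈ range N, ee (φ n)‖ →
      ∃ q : ℕ, 1 ≤ q ∧ (q : ℝ) ≤ cI * u ^ mI ∧ ∃ a : ℤ, |q * α - a| ≤ cI * u ^ mI / (N : ℝ) ^ k)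
    {κ : ℝ} (hκ : κ ≤ k) (P : ℝ[X]) (hP : P.natDegree < k) {L : ℕ} (hL : 1 ≤ L) {u : ℝ} (hu : 1 ≤ u)
    (A : ℝ) {a : ℕ} (ha : 1 ≤ a)
    (h1 : cI * u ^ mI * (|(k.factorial : ℝ) * bc κ k| * (|A| * (a : ℝ) ^ (κ - k))) < 1 / 2)
    (h2 : cI * u ^ mI < |(k.factorial : ℝ) * bc κ k| * (|A| * (a : ℝ) ^ (κ - k)) * (L : ℝ) ^ k)
    {ε : ℝ} (h3 : |bc κ (k + 1)| * (|A| * (a : ℝ) ^ (κ - (k + 1 : ℕ))) * (L : ℝ) ^ (k + 1) ≤ ε) :
    ‖∑ t ∈ range L, ee (A * ((a + t : ℕ) : ℝ) ^ κ + P.eval ((a + t : ℕ) : ℝ))‖ ≤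
      L * (1 / u + 2 * Real.pi * ε) := by
  have ha0 : (0 : ℝ) < a := by exact_mod_cast ha
  set Q : ℝ[X] := C A * TPp κ a (k + 1) + taylor (a : ℝ) P with hQ
  have hPd : (taylor (a : ℝ) P).natDegree < k := by rw [natDegree_taylor]; exact hP
  have hQd : Q.natDegree ≤ k := by
    rw [hQ]
    refine (natDegree_add_le _ _).trans (max_le ?_ hPd.le)
    exact (natDegree_C_mul_le _ _).trans (TPp_natDegree κ a k)
  have hQc : Q.coeff k = A * (bc κ k * (a : ℝ) ^ (κ - k)) := by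
    rw [hQ, coeff_add, coeff_C_mul, TPp_coeff, coeff_eq_zero_of_natDegree_lt hPd, add_zero]
  have hQa : |(k.factorial : ℝ) * Q.coeff k| =
      |(k.factorial : ℝ) * bc κ k| * (|A| * (a : ℝ) ^ (κ - k)) := by
    rw [hQc, ← abs_of_pos (Real.rpow_pos_of_pos ha0 (κ - k)), ← abs_mul, ← abs_mul,
      abs_of_pos (Real.rpow_pos_of_pos ha0 (κ - k))]
    congr 1; ring
  refine block_pert hcI hI Q hQd hL hu (by rw [hQa]; exact h1) (by rw [hQa]; exact h2) _ ?_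
  intro n hn
  have hn0 : (0 : ℝ) ≤ n := Nat.cast_nonneg _
  have e1 : Q.eval (n : ℝ) = A * TP κ a (k + 1) n + P.eval ((a + n : ℕ) : ℝ) := by
    rw [hQ, eval_add, eval_mul, eval_C, TPp_eval, taylor_eval]
    push_cast
    rw [add_comm (n : ℝ) (a : ℝ)]
  have h4 := taylor_pow ha0 (k + 1) κ (by push_cast; linarith) n hn0
  rw [e1]
  have e2 : A * ((a + n : ℕ) : ℝ) ^ κ + P.eval ((a + n : ℕ) : ℝ) -
      (A * TP κ a (k + 1) n + P.eval ((a + n : ℕ) : ℝ)) =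
      A * (((a : ℝ) + n) ^ κ - TP κ a (k + 1) n) := by
    push_cast; ring
  rw [e2, abs_mul]
  calc |A| * |((a : ℝ) + n) ^ κ - TP κ a (k + 1) n| ≤
        |A| * (|bc κ (k + 1)| * (a : ℝ) ^ (κ - (k + 1 : ℕ)) * (n : ℝ) ^ (k + 1)) :=
        mul_le_mul_of_nonneg_left h4 (abs_nonneg _)
    _ ≤ |A| * (|bc κ (k + 1)| * (a : ℝ) ^ (κ - (k + 1 : ℕ)) * (L : ℝ) ^ (k + 1)) := by
        have h5 : (n : ℝ) ≤ L := by exact_mod_cast hn.le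
        gcongr
    _ = |bc κ (k + 1)| * (|A| * (a : ℝ) ^ (κ - (k + 1 : ℕ))) * (L : ℝ) ^ (k + 1) := by ring
    _ ≤ ε := h3

end Pool.Agent.W301.RM
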