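import Mathlib
import Pool.Agent.W301.RM.Joint
import Pool.Agent.H648R2.S.Merge

/-! The multiples of an algebraic irrational number. -/

set_option autoImplicit false

namespace Pool.Agent.W301.RM
open Finset
open Pool.Agent.H807R2.Dav Pool.Agent.W301.SS

lemma dd_dist (v d : ℝ) (h : ∀ P : ℤ, d ≤ |v - P|) : 4 * d ≤ dd v := by
  have h0 := Int.fract_nonneg v
  have h1 := Int.fract_lt_one v
  have h2 : dd v = dd (Int.fract v) := by
    conv_lhs => rw [← Int.fract_add_floor v]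
    rw [dd_add_int]
  rw [h2]
  refine le_trans ?_ (dd_ge h0 h1.le)
  have h3 := h ⌊v⌋
  have h4 := h (⌊v⌋ + 1)
  have h5 : v - ⌊v⌋ = Int.fract v := rfl
  rw [h5, abs_of_nonneg h0] at h3
  have h6 : v - ((⌊v⌋ + 1 : ℤ) : ℝ) = Int.fract v - 1 := by rw [← h5]; push_cast; ring
  rw [h6, abs_of_nonpos (by linarith)] at h4
  have : d ≤ min (Int.fract v) (1 - Int.fract v) := le_min h3 (by linarith)
  linarith

/-- lower bound for the distance to the integers -/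
lemma dist_low (b : ℕ) (hb : 2 ≤ b) (ξ : ℝ) (halg : IsAlgebraic ℚ ξ) (hirr : Irrational ξ) (s : ℕ)
    (η : ℝ) (hη : 0 < η) :
    ∃ κ : ℝ, 0 < κ ∧ ∃ N0 : ℕ, ∀ N : ℕ, N0 ≤ N → ∀ n : Fin s → ℕ, (∀ j, n j ≤ N) →
      ∀ lam : Fin s → ℤ, (∀ j, |(lam j : ℝ)| ≤ (b : ℝ) ^ (κ * N)) → ∑ j, lam j * (b : ℤ) ^ (n j) ≠ 0 →
      ∀ P : ℤ, (b : ℝ) ^ (-(η * N)) ≤ |((∑ j, lam j * (b : ℤ) ^ (n j) : ℤ) : ℝ) * ξ - P| := by
  have hbR : (2 : ℝ) ≤ b := by exact_mod_cast hb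
  have hb0 : (0 : ℝ) < b := by linarith
  have hb1 : (1 : ℝ) ≤ b := by linarith
  have hlb : 0 < Real.log b := Real.log_pos (by linarith)
  set τ : ℝ := min η 1 / 4 with hτ
  have hm0 : 0 < min η 1 := lt_min hη one_pos
  have hτ0 : 0 < τ := by positivity
  have hτ1 : τ ≤ 1 / 4 := by have := min_le_right η 1; linarith
  have hτη : 4 * τ ≤ η := by have := min_le_left η 1; linarith
  obtain ⟨ε, hε, L0, h⟩ := Pool.Agent.H648R2.S.merge b hb ξ halg hirr s (τ / 4) (by positivity)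
  refine ⟨ε * τ, by positivity, max 1 (max ⌈L0 / τ⌉₊ ⌈4 / η⌉₊), fun N hN n hn lam hlam hne P => ?_⟩
  have hN1 : 1 ≤ N := (le_max_left _ _).trans hN
  have hN2 : (L0 : ℝ) / τ ≤ N := (Nat.le_ceil _).trans (by
    exact_mod_cast ((le_max_left _ _).trans (le_max_right _ _)).trans hN)
  have hN3 : 4 / η ≤ N := (Nat.le_ceil _).trans (by
    exact_mod_cast ((le_max_right _ _).trans (le_max_right _ _)).trans hN)
  have hN1R : (1 : ℝ) ≤ N := by exact_mod_cast hN1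
  set L : ℕ := ⌈τ * N⌉₊ with hL
  have hL1 : τ * N ≤ L := Nat.le_ceil _
  have hL2 : (L : ℝ) < τ * N + 1 := Nat.ceil_lt_add_one (by positivity)
  have hLL : L0 ≤ L := by
    rw [div_le_iff₀ hτ0] at hN2
    have : (L0 : ℝ) ≤ L := by linarith
    exact_mod_cast this
  have h1 := h L hLL (fun j => n j + L) (fun j => by omega) (fun j => by
    have h2 : (n j : ℝ) ≤ N := by exact_mod_cast hn j
    push_cast
    nlinarith) lam (fun j => by
      refine (hlam j).trans ?_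
      rw [Real.rpow_def_of_pos hb0]
      apply Real.exp_le_exp.2
      nlinarith [mul_le_mul_of_nonneg_left hL1 hε.le, mul_pos hlb hε]) (by
      have h3 : ∑ j, lam j * (b : ℤ) ^ (n j + L) = (b : ℤ) ^ L * ∑ j, lam j * (b : ℤ) ^ (n j) := by
        rw [mul_sum]
        apply sum_congr rfl
        intro j _
        rw [pow_add]; ring
      rw [h3]
      apply mul_ne_zero _ hne
      positivity) ((b : ℤ) ^ L * P)
  have h4 : ξ * ∑ j, (lam j : ℝ) * (b : ℝ) ^ (n j + L) - (((b : ℤ) ^ L * P : ℤ) : ℝ) =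
      (b : ℝ) ^ L * (((∑ j, lam j * (b : ℤ) ^ (n j) : ℤ) : ℝ) * ξ - P) := by
    push_cast
    rw [mul_sub, ← mul_assoc, mul_comm ξ, mul_sum]
    congr 2
    apply sum_congr rfl
    intro j _
    rw [pow_add]; ring
  rw [h4, abs_mul, abs_of_pos (by positivity)] at h1
  have h5 : (b : ℝ) ^ L * (b : ℝ) ^ (-(η * N)) ≤ Real.exp (-(τ / 4 * (L * Real.log b))) := by
    rw [← Real.rpow_natCast, ← Real.rpow_add hb0, Real.rpow_def_of_pos hb0]
    apply Real.exp_le_exp.2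
    rw [div_le_iff₀ hη] at hN3
    have h6 : (L : ℝ) + -(η * N) ≤ -(τ / 4 * L) := by nlinarith
    nlinarith
  have h7 := lt_of_le_of_lt h5 h1
  exact (lt_of_mul_lt_mul_left h7 (by positivity)).le

/-- exponential sums over the multiples -/
theorem small_mult (b : ℕ) (hb : 2 ≤ b) (ξ : ℝ) (halg : IsAlgebraic ℚ ξ) (hirr : Irrational ξ) (s : ℕ)
    (η : ℝ) (hη : 0 < η) :
    ∃ κ : ℝ, 0 < κ ∧ ∃ N0 : ℕ, ∀ N : ℕ, N0 ≤ N → ∀ n : Fin s → ℕ, (∀ j, n j ≤ N) →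
      ∀ R : ℕ, (R : ℝ) ≤ (b : ℝ) ^ (κ * N) → ∀ M : ℕ, 1 ≤ M → ∀ x : ℝ,
        Small (range M) (fun m => x + m * ξ) b s n R ((b : ℝ) ^ (η * N) / M) := by
  obtain ⟨κ, hκ, N0, h⟩ := dist_low b hb ξ halg hirr s η hη
  refine ⟨κ, hκ, N0, fun N hN n hn R hR M hM x lam hlam hne => ?_⟩
  have hb0 : (0 : ℝ) < b := by positivity
  have hM0 : (0 : ℝ) < M := by exact_mod_cast hM
  have h1 := h N hN n hn lam (fun j => by
    refine le_trans ?_ hR
    have := (hlam j).le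
    exact_mod_cast this) hne
  set La : ℝ := ((∑ j, lam j * (b : ℤ) ^ (n j) : ℤ) : ℝ) with hLa
  have hd := dd_dist (La * ξ) _ h1
  have hp : 0 < (b : ℝ) ^ (-(η * N)) := Real.rpow_pos_of_pos hb0 _
  have h2 : ∑ i ∈ range M, ee (La * (x + i * ξ)) = ee (La * x) * ∑ i ∈ range M, ee ((i : ℝ) * (La * ξ)) := by
    rw [mul_sum]
    apply sum_congr rfl
    intro i _
    rw [← ee_add]; congr 1; ring
  show ‖∑ i ∈ range M, ee (La * (x + i * ξ))‖ ≤ _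
  rw [h2, norm_mul, norm_ee, one_mul, card_range, div_mul_cancel₀ _ hM0.ne', Finset.range_eq_Ico]
  refine (geo_bound 0 M (by omega) (M := M) (by simp) _).trans ?_
  refine (KK_le' hM0.le (by positivity) hd).trans ?_
  rw [Real.rpow_neg hb0.le]
  have hq : 0 < (b : ℝ) ^ (η * N) := Real.rpow_pos_of_pos hb0 _
  rw [div_le_iff₀ (by positivity)]
  have : (b : ℝ) ^ (η * N) * (4 * ((b : ℝ) ^ (η * N))⁻¹) = 4 := by field_simp
  rw [this]
  norm_num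

/-- Disjoint windows of digits of the multiples are independent up to an exponentially small error. -/
theorem indep (b : ℕ) (hb : 2 ≤ b) (ξ : ℝ) (halg : IsAlgebraic ℚ ξ) (hirr : Irrational ξ) (s : ℕ)
    (hs : 1 ≤ s) (η : ℝ) (hη : 0 < η) :
    ∃ c : ℝ, 0 < c ∧ ∃ N0 : ℕ, ∀ N : ℕ, N0 ≤ N → ∀ M : ℕ, (b : ℝ) ^ (η * N) ≤ M → ∀ (x : ℝ) (ℓ : ℕ),
      1 ≤ ℓ → (ℓ : ℝ) ≤ c * N → ∀ n : Fin s → ℕ, (∀ j, n j ≤ N) →
      (∀ i j, i ≠ j → n i + ℓ ≤ n j ∨ n j + ℓ ≤ n i) → ∀ A : Finset (Fin s → ℤ), A ⊆ Box b ℓ s →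
      |(((range M).filter (fun m : ℕ => tup b ℓ n (x + m * ξ) ∈ A)).card : ℝ) -
        A.card / ((b ^ (s * ℓ) : ℕ) : ℝ) * M| ≤ (b : ℝ) ^ (-(c * N)) * M := by
  have hbR : (2 : ℝ) ≤ b := by exact_mod_cast hb
  have hb0 : (0 : ℝ) < b := by linarith
  have hb1 : (1 : ℝ) ≤ b := by linarith
  have hs0 : (0 : ℝ) < s := by exact_mod_cast hs
  have hs1 : (1 : ℝ) ≤ s := by exact_mod_cast hs
  obtain ⟨κ, hκ, N1, hsm⟩ := small_mult b hb ξ halg hirr s (η / 2) (by positivity)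
  set κ' : ℝ := min (κ / 4) (η / (16 * s)) with hκ'
  have hκ'0 : 0 < κ' := lt_min (by positivity) (by positivity)
  have hκ'1 : 4 * κ' ≤ κ := by have := min_le_left (κ / 4) (η / (16 * s)); linarith
  have hκ'2 : 16 * s * κ' ≤ η := by
    have := min_le_right (κ / 4) (η / (16 * s))
    rw [← hκ', le_div_iff₀ (by positivity)] at this
    linarith
  set c : ℝ := κ' / (2 * (s + 1)) with hc
  have hc0 : 0 < c := by positivity
  have hcs : (s + 1) * c = κ' / 2 := by rw [hc]; field_simp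
  have hcκ : c ≤ κ' / 2 := by nlinarith
  refine ⟨c, hc0, max N1 (max ⌈4 / κ'⌉₊ ⌈2 * (8 * s + 1) / κ'⌉₊), fun N hN M hM x ℓ hℓ hℓc n hn hdis A hA => ?_⟩
  have hNN1 : N1 ≤ N := (le_max_left _ _).trans hN
  have hN2 : 4 / κ' ≤ N := (Nat.le_ceil _).trans (by
    exact_mod_cast ((le_max_left _ _).trans (le_max_right _ _)).trans hN)
  have hN3 : 2 * (8 * s + 1) / κ' ≤ N := (Nat.le_ceil _).trans (by
    exact_mod_cast ((le_max_right _ _).trans (le_max_right _ _)).trans hN)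
  rw [div_le_iff₀ hκ'0] at hN2 hN3
  have hM1 : 1 ≤ M := by
    have h1 : (0 : ℝ) < M := lt_of_lt_of_le (Real.rpow_pos_of_pos hb0 _) hM
    exact_mod_cast h1
  have hM0 : (0 : ℝ) < M := by exact_mod_cast hM1
  have hN0 : (0 : ℝ) ≤ N := Nat.cast_nonneg _
  set r : ℕ := ⌊κ' * N⌋₊ with hr
  have hr1 : (r : ℝ) ≤ κ' * N := Nat.floor_le (by positivity)
  have hr2 : κ' * N < r + 1 := Nat.lt_floor_add_one _
  have hr3 : 2 ≤ r := by
    have : (2 : ℝ) < r := by linarith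
    exact_mod_cast this.le
  have hℓr : ℓ ≤ r := by
    have : (ℓ : ℝ) < r + 1 := by nlinarith
    have : ℓ < r + 1 := by exact_mod_cast this
    omega
  set ρ : ℕ := b ^ r with hρ
  have hρR : (ρ : ℝ) = (b : ℝ) ^ r := by rw [hρ]; push_cast; rfl
  have hρ4 : 4 ≤ ρ := by
    calc 4 = 2 ^ 2 := by norm_num
      _ ≤ b ^ 2 := Nat.pow_le_pow_left hb 2
      _ ≤ b ^ r := Nat.pow_le_pow_right (by omega) hr3
  have hR : ((ρ ^ 4 : ℕ) : ℝ) ≤ (b : ℝ) ^ (κ * N) := by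
    push_cast
    rw [hρR, ← pow_mul, ← Real.rpow_natCast]
    apply Real.rpow_le_rpow_of_exponent_le hb1
    push_cast
    nlinarith
  have hQ : b ^ ℓ * b ^ (4 * r - ℓ) = ρ ^ 4 := by
    rw [hρ, ← pow_add, ← pow_mul]; congr 1; omega
  have hn' : b ^ (4 * r - ℓ) + 2 * ρ ^ 3 ≤ ρ ^ 4 := by
    have h1 : 2 * b ^ (4 * r - ℓ) ≤ ρ ^ 4 := by
      rw [← hQ]
      apply Nat.mul_le_mul_right
      calc 2 ≤ b := hb
        _ = b ^ 1 := (pow_one b).symm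
        _ ≤ b ^ ℓ := Nat.pow_le_pow_right (by omega) hℓ
    have h2 : 4 * ρ ^ 3 ≤ ρ ^ 4 := by
      calc 4 * ρ ^ 3 ≤ ρ * ρ ^ 3 := Nat.mul_le_mul_right _ hρ4
        _ = ρ ^ 4 := by ring
    omega
  have hne : (range M).Nonempty := ⟨0, mem_range.2 hM1⟩
  have hj := joint (range M) hne (fun m : ℕ => x + m * ξ) hb hs hℓ (by omega : 2 ≤ ρ) hQ hn' n hdis
    (B := (b : ℝ) ^ (η / 2 * N) / M) (by positivity) (hsm N hNN1 n hn _ hR M hM1 x) A hA
  rw [card_range] at hj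
  refine le_trans hj ?_
  apply mul_le_mul_of_nonneg_right _ hM0.le
  -- bounding the error
  have e1 : ((b ^ (s * ℓ) : ℕ) : ℝ) ≤ (b : ℝ) ^ (s * c * N) := by
    push_cast
    rw [← Real.rpow_natCast]
    apply Real.rpow_le_rpow_of_exponent_le hb1
    push_cast
    nlinarith
  have e2 : (b : ℝ) ^ (η / 2 * N) / M ≤ (b : ℝ) ^ (-(η / 2 * N)) := by
    rw [div_le_iff₀ hM0]
    calc (b : ℝ) ^ (η / 2 * N) = (b : ℝ) ^ (-(η / 2 * N)) * (b : ℝ) ^ (η * N) := by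
          rw [← Real.rpow_add hb0]; congr 1; ring
      _ ≤ _ := mul_le_mul_of_nonneg_left hM (by positivity)
  have e3 : ((ρ : ℝ) ^ 4) ^ s ≤ (b : ℝ) ^ (4 * s * κ' * N) := by
    rw [hρR, ← pow_mul, ← pow_mul, ← Real.rpow_natCast]
    apply Real.rpow_le_rpow_of_exponent_le hb1
    push_cast
    nlinarith
  have e4 : ((ρ : ℝ) ^ 4) ^ s * ((b : ℝ) ^ (η / 2 * N) / M) ≤ (b : ℝ) ^ (-(κ' * N)) := by
    calc ((ρ : ℝ) ^ 4) ^ s * ((b : ℝ) ^ (η / 2 * N) / M) ≤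
          (b : ℝ) ^ (4 * s * κ' * N) * (b : ℝ) ^ (-(η / 2 * N)) :=
          mul_le_mul e3 e2 (by positivity) (by positivity)
      _ = (b : ℝ) ^ (4 * s * κ' * N + -(η / 2 * N)) := (Real.rpow_add hb0 _ _).symm
      _ ≤ _ := by
          apply Real.rpow_le_rpow_of_exponent_le hb1
          nlinarith
  have e5 : 4 * (s : ℝ) / ρ ≤ 4 * s * b * (b : ℝ) ^ (-(κ' * N)) := by
    rw [hρR, mul_assoc, div_eq_mul_inv, ← Real.rpow_natCast, ← Real.rpow_neg hb0.le]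
    apply mul_le_mul_of_nonneg_left _ (by positivity)
    have : (b : ℝ) * (b : ℝ) ^ (-(κ' * N)) = (b : ℝ) ^ (1 + -(κ' * N)) := by
      rw [Real.rpow_add hb0, Real.rpow_one]
    rw [this]
    apply Real.rpow_le_rpow_of_exponent_le hb1
    linarith
  have e6 : 4 * (s : ℝ) / ρ + ((ρ : ℝ) ^ 4) ^ s * ((b : ℝ) ^ (η / 2 * N) / M) ≤
      (b : ℝ) ^ (8 * s + 1 : ℝ) * (b : ℝ) ^ (-(κ' * N)) := by
    have h1 : 4 * (s : ℝ) * b + 1 ≤ (b : ℝ) ^ (8 * s + 1 : ℝ) := by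
      have h2 : (8 * s : ℝ) + 1 ≤ (b : ℝ) ^ (8 * s : ℝ) := by
        have h3 : (b : ℝ) ^ (8 * s : ℝ) = (b : ℝ) ^ (8 * s : ℕ) := by
          rw [← Real.rpow_natCast]; push_cast; rfl
        rw [h3]
        have h4 : 8 * s < b ^ (8 * s) := Nat.lt_pow_self (by omega)
        exact_mod_cast h4
      rw [Real.rpow_add hb0, Real.rpow_one]
      nlinarith
    have hpos : (0 : ℝ) < (b : ℝ) ^ (-(κ' * N)) := Real.rpow_pos_of_pos hb0 _
    nlinarith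
  calc ((b ^ (s * ℓ) : ℕ) : ℝ) * (4 * s / ρ + ((ρ : ℝ) ^ 4) ^ s * ((b : ℝ) ^ (η / 2 * N) / M)) ≤
        (b : ℝ) ^ (s * c * N) * ((b : ℝ) ^ (8 * s + 1 : ℝ) * (b : ℝ) ^ (-(κ' * N))) :=
        mul_le_mul e1 e6 (by positivity) (by positivity)
    _ = (b : ℝ) ^ (s * c * N + (8 * s + 1) + -(κ' * N)) := by
        rw [← Real.rpow_add hb0, ← Real.rpow_add hb0]; congr 1; ring
    _ ≤ (b : ℝ) ^ (-(c * N)) := by
        apply Real.rpow_le_rpow_of_exponent_le hb1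
        have h1 : (s + 1) * c * N = κ' / 2 * N := by rw [hcs]
        nlinarith

end Pool.Agent.W301.RM
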