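import Pool.Agent.W301.RM.IndepGen
import Pool.Agent.W226.MP.Freq

/-! Frequencies of digits and blocks. -/

set_option autoImplicit false

namespace Pool.Agent.W301.RM
open Finset Filter Topology
open Pool.Agent.H807R2.Dav Pool.Agent.W301.SS
open Pool.Agent.W226.MP (cnt)

lemma wd_digit {B : ℕ} (hB : 2 ≤ B) {ℓ j : ℕ} (p : ℕ) (hj : j < ℓ) (y : ℝ) :
    wd B ℓ p y / (B : ℤ) ^ j % (B : ℤ) = wd B 1 (p + (ℓ - 1 - j)) y := by
  have hB0 : (0 : ℝ) < B := by positivity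
  unfold wd
  set Z := ⌊(B : ℝ) ^ (p + ℓ) * y⌋ with hZ
  have h1 := Int.emod_add_mul_ediv Z ((B : ℤ) ^ ℓ)
  have h2 : ⌊(B : ℝ) ^ (p + (ℓ - 1 - j) + 1) * y⌋ = Z / (B : ℤ) ^ j := by
    have e1 : (B : ℝ) ^ (p + (ℓ - 1 - j) + 1) * y = (B : ℝ) ^ (p + ℓ) * y / ((B ^ j : ℕ) : ℝ) := by
      push_cast
      rw [eq_div_iff (by positivity)]
      have : (B : ℝ) ^ (p + ℓ) = (B : ℝ) ^ (p + (ℓ - 1 - j) + 1) * (B : ℝ) ^ j := by
        rw [← pow_add]; congr 1; omega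
      rw [this]; ring
    rw [e1, Int.floor_div_natCast]
    push_cast
    rfl
  rw [h2, pow_one]
  have h3 : Z % (B : ℤ) ^ ℓ = Z + (B : ℤ) ^ j * (-((B : ℤ) ^ (ℓ - j) * (Z / (B : ℤ) ^ ℓ))) := by
    have : (B : ℤ) ^ ℓ = (B : ℤ) ^ j * (B : ℤ) ^ (ℓ - j) := by rw [← pow_add]; congr 1; omega
    have h4 : Z % (B : ℤ) ^ ℓ = Z - (B : ℤ) ^ ℓ * (Z / (B : ℤ) ^ ℓ) := by linarith
    rw [h4]
    nth_rewrite 1 [this]
    ring
  rw [h3, Int.add_mul_ediv_left _ _ (by positivity)]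
  have h5 : (B : ℤ) ^ (ℓ - j) = (B : ℤ) * (B : ℤ) ^ (ℓ - j - 1) := by
    rw [← pow_succ']; congr 1; omega
  rw [h5]
  have h6 : Z / (B : ℤ) ^ j + -((B : ℤ) * (B : ℤ) ^ (ℓ - j - 1) * (Z / (B : ℤ) ^ ℓ)) =
      Z / (B : ℤ) ^ j + (B : ℤ) * (-((B : ℤ) ^ (ℓ - j - 1) * (Z / (B : ℤ) ^ ℓ))) := by ring
  rw [h6, Int.add_mul_emod_self_left]

/-- the number of digits `a` among the first `n` digits of `y` -/
noncomputable def oc (B a n : ℕ) (y : ℝ) : ℕ := ((range n).filter (fun i => wd B 1 i y = a)).card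

lemma oc_add (B a p ℓ : ℕ) (y : ℝ) :
    oc B a (p + ℓ) y = oc B a p y + ((range ℓ).filter (fun i => wd B 1 (p + i) y = a)).card := by
  unfold oc
  rw [card_filter, card_filter, card_filter, sum_range_add]

lemma cnt_wd {B : ℕ} (hB : 2 ≤ B) (a ℓ p : ℕ) (y : ℝ) :
    cnt B a ℓ (wd B ℓ p y).toNat = ((range ℓ).filter (fun i => wd B 1 (p + i) y = a)).card := by
  unfold cnt
  rw [card_filter, card_filter, ← sum_range_reflect]
  apply sum_congr rfl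
  intro j hj
  rw [mem_range] at hj
  have h1 := wd_digit hB p (show ℓ - 1 - j < ℓ by omega) y
  have h2 : ℓ - 1 - (ℓ - 1 - j) = j := by omega
  rw [h2] at h1
  have h3 : (((wd B ℓ p y).toNat / B ^ (ℓ - 1 - j) % B : ℕ) : ℤ) = wd B 1 (p + j) y := by
    rw [← h1]
    push_cast
    rw [Int.toNat_of_nonneg (wd_nonneg hB _ _ _)]
  have h4 : ((wd B ℓ p y).toNat / B ^ (ℓ - 1 - j) % B = a) ↔ (wd B 1 (p + j) y = a) := by
    rw [← h3]
    exact_mod_cast Iff.rfl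
  simp only [h4]

/-- one window -/
lemma win_bad {ι : Type} (I : Finset ι) (y : ι → ℝ) {B ℓ p : ℕ} (hB : 2 ≤ B) (a : ℕ) (ha : a < B)
    (ε : ℝ) (hε : 0 < ε) (hε1 : ε ≤ 1) {er : ℝ}
    (h : ∀ A : Finset (Fin 1 → ℤ), A ⊆ Box B ℓ 1 →
      |((I.filter (fun i => tup B ℓ (fun _ : Fin 1 => p) (y i) ∈ A)).card : ℝ) -
        A.card / ((B ^ (1 * ℓ) : ℕ) : ℝ) * I.card| ≤ er * I.card) :
    ((I.filter (fun i => ε * ℓ < |(cnt B a ℓ (wd B ℓ p (y i)).toNat : ℝ) - ℓ / (B : ℝ)|)).card : ℝ) ≤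
      (2 * Real.exp (-(ε ^ 2 / 4) * ℓ) + er) * I.card := by
  classical
  set A := (Box B ℓ 1).filter (fun w => ε * ℓ < |(cnt B a ℓ (w 0).toNat : ℝ) - ℓ / (B : ℝ)|) with hA
  have hAB : A ⊆ Box B ℓ 1 := filter_subset _ _
  have hB0 : (0 : ℝ) < B := by positivity
  have h1 := h A hAB
  have h2 : I.filter (fun i => ε * ℓ < |(cnt B a ℓ (wd B ℓ p (y i)).toNat : ℝ) - ℓ / (B : ℝ)|) ⊆
      I.filter (fun i => tup B ℓ (fun _ : Fin 1 => p) (y i) ∈ A) := by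
    intro i hi
    rw [mem_filter] at hi ⊢
    refine ⟨hi.1, ?_⟩
    rw [hA, mem_filter]
    exact ⟨tup_mem hB _ _ _, hi.2⟩
  have h3 : (A.card : ℝ) ≤ 2 * Real.exp (-(ε ^ 2 / 4) * ℓ) * (B : ℝ) ^ ℓ := by
    refine le_trans ?_ (Pool.Agent.W226.MP.bad_words B a hB ha ε hε hε1 ℓ)
    have : A.card ≤ ((range (B ^ ℓ)).filter (fun z : ℕ => ε * ℓ < |(cnt B a ℓ z : ℝ) - ℓ / (B : ℝ)|)).card := by
      apply card_le_card_of_injOn (fun w => (w 0).toNat)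
      · intro w hw
        have hw' := (mem_filter.1 (mem_coe.1 hw))
        have h5 := Fintype.mem_piFinset.1 hw'.1 0
        rw [mem_Ico] at h5
        rw [mem_coe, mem_filter, mem_range]
        refine ⟨?_, hw'.2⟩
        have : ((w 0).toNat : ℤ) < ((B ^ ℓ : ℕ) : ℤ) := by
          rw [Int.toNat_of_nonneg h5.1]; push_cast; exact h5.2
        exact_mod_cast this
      · intro w hw w' hw' heq
        have h5 := Fintype.mem_piFinset.1 (mem_filter.1 (mem_coe.1 hw)).1 0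
        have h6 := Fintype.mem_piFinset.1 (mem_filter.1 (mem_coe.1 hw')).1 0
        rw [mem_Ico] at h5 h6
        funext j
        have hj : j = 0 := Subsingleton.elim _ _
        rw [hj]
        have h7 : ((w 0).toNat : ℤ) = ((w' 0).toNat : ℤ) := by
          have : (w 0).toNat = (w' 0).toNat := heq
          exact_mod_cast this
        rw [Int.toNat_of_nonneg h5.1, Int.toNat_of_nonneg h6.1] at h7
        exact h7
    exact_mod_cast this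
  have h4 : (A.card : ℝ) / ((B ^ (1 * ℓ) : ℕ) : ℝ) ≤ 2 * Real.exp (-(ε ^ 2 / 4) * ℓ) := by
    rw [one_mul]
    push_cast
    rw [div_le_iff₀ (by positivity)]
    exact h3
  have h5 : ((I.filter (fun i => ε * ℓ < |(cnt B a ℓ (wd B ℓ p (y i)).toNat : ℝ) - ℓ / (B : ℝ)|)).card : ℝ) ≤
      ((I.filter (fun i => tup B ℓ (fun _ : Fin 1 => p) (y i) ∈ A)).card : ℝ) := by
    exact_mod_cast card_le_card h2
  have h6 := (abs_le.1 h1).2
  have h7 : (0 : ℝ) ≤ I.card := Nat.cast_nonneg _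
  have h8 := mul_le_mul_of_nonneg_right h4 h7
  nlinarith

/-- the digit counts at the ends of the windows -/
lemma oc_windows {B a ℓ : ℕ} (hB : 2 ≤ B) (y : ℝ) {ε : ℝ} (J : ℕ)
    (h : ∀ j < J, |(cnt B a ℓ (wd B ℓ (j * ℓ) y).toNat : ℝ) - ℓ / (B : ℝ)| ≤ ε * ℓ) :
    |(oc B a (J * ℓ) y : ℝ) - (J * ℓ : ℕ) / (B : ℝ)| ≤ ε * (J * ℓ : ℕ) := by
  induction J with
  | zero => simp [oc]
  | succ J ih =>
    have h1 := ih (fun j hj => h j (by omega))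
    have h2 := h J (by omega)
    rw [cnt_wd hB] at h2
    have e : (J + 1) * ℓ = J * ℓ + ℓ := by ring
    rw [e, oc_add]
    push_cast at h1 h2 ⊢
    have e2 : ((oc B a (J * ℓ) y : ℝ) + (((range ℓ).filter (fun i => wd B 1 (J * ℓ + i) y = a)).card : ℝ)) -
        ((J : ℝ) * ℓ + ℓ) / B = ((oc B a (J * ℓ) y : ℝ) - (J : ℝ) * ℓ / B) +
        ((((range ℓ).filter (fun i => wd B 1 (J * ℓ + i) y = a)).card : ℝ) - ℓ / B) := by ring
    rw [e2]
    refine (abs_add_le _ _).trans ?_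
    nlinarith

lemma oc_all {B a ℓ N : ℕ} (hB : 2 ≤ B) (hℓ : 1 ≤ ℓ) (y : ℝ) {ε : ℝ} (hε : 0 ≤ ε)
    (h : ∀ j < N / ℓ, |(cnt B a ℓ (wd B ℓ (j * ℓ) y).toNat : ℝ) - ℓ / (B : ℝ)| ≤ ε * ℓ) (n : ℕ) (hn : n ≤ N) :
    |(oc B a n y : ℝ) - n / (B : ℝ)| ≤ ε * N + ℓ := by
  have hB1 : (1 : ℝ) ≤ B := by exact_mod_cast (by omega : 1 ≤ B)
  set J := n / ℓ with hJ
  have hJN : J ≤ N / ℓ := Nat.div_le_div_right hn
  have h1 := oc_windows (a := a) hB y J (fun j hj => h j (by omega))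
  have h2 : J * ℓ ≤ n := Nat.div_mul_le_self n ℓ
  obtain ⟨r, hr⟩ := Nat.exists_eq_add_of_le h2
  have h3 : r < ℓ := by
    have := Nat.mod_lt n (show 0 < ℓ by omega)
    have h4 := Nat.div_add_mod n ℓ
    rw [← hJ] at h4
    nlinarith
  rw [hr, oc_add]
  have h4 : (((range r).filter (fun i => wd B 1 (J * ℓ + i) y = a)).card : ℝ) ≤ r := by
    exact_mod_cast (card_filter_le _ _).trans (card_range r).le
  have h5 : (0 : ℝ) ≤ (((range r).filter (fun i => wd B 1 (J * ℓ + i) y = a)).card : ℝ) := Nat.cast_nonneg _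
  have h6 : (r : ℝ) / B ≤ r := div_le_self (Nat.cast_nonneg _) hB1
  have h6' : (0 : ℝ) ≤ (r : ℝ) / B := by positivity
  have h7 : (r : ℝ) ≤ ℓ := by exact_mod_cast h3.le
  have h8 : ((J * ℓ : ℕ) : ℝ) ≤ N := by exact_mod_cast h2.trans hn
  push_cast at h1 h8 ⊢
  have h9 : ε * (J * ℓ) ≤ ε * N := mul_le_mul_of_nonneg_left h8 hε
  have e2 : ((J : ℝ) * ℓ + r) / B = (J : ℝ) * ℓ / B + r / B := by ring
  rw [e2]
  rw [abs_le] at h1 ⊢
  constructor <;> linarith [h1.1, h1.2]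

end Pool.Agent.W301.RM
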