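import Pool.Agent.W301.RM.Freq

/-! Frequencies of digits and blocks outside an exponentially small set. -/

set_option autoImplicit false

namespace Pool.Agent.W301.RM
open Finset Filter Topology
open Pool.Agent.H807R2.Dav Pool.Agent.W301.SS
open Pool.Agent.W226.MP (cnt)

lemma exp_lower {B : ℝ} (hB : 1 < B) (x : ℝ) : Real.exp (-x) = B ^ (-(x / Real.log B)) := by
  rw [Real.rpow_def_of_pos (by linarith)]
  congr 1
  have : Real.log B ≠ 0 := (Real.log_pos hB).ne'
  field_simp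

open Classical in
/-- digits -/
theorem dfreq (B : ℕ) (hB : 2 ≤ B) (κ η ε : ℝ) (hκ : 0 < κ) (hη : 0 < η) (hε : 0 < ε) (hε1 : ε ≤ 1) :
    ∃ c : ℝ, 0 < c ∧ ∃ N0 : ℕ, ∀ N : ℕ, N0 ≤ N → ∀ {ι : Type} (I : Finset ι), I.Nonempty →
      ∀ (y : ι → ℝ),
      (∀ e : ℕ, e ≤ N → ∀ R : ℕ, 1 ≤ R → (R : ℝ) ≤ (B : ℝ) ^ (κ * N) →
        Small I y B 1 (fun _ => e) R ((B : ℝ) ^ (-(η * N)))) →
      ((I.filter (fun i => ¬ ∀ n ≤ N, ∀ a < B, |(oc B a n (y i) : ℝ) - n / (B : ℝ)| ≤ ε * N)).card : ℝ) ≤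
        (B : ℝ) ^ (-(c * N)) * I.card := by
  obtain ⟨c0, hc0, N1, hind⟩ := indep_gen B hB 1 le_rfl κ η hκ hη
  have hBR : (2 : ℝ) ≤ B := by exact_mod_cast hB
  have hB0 : (0 : ℝ) < B := by linarith
  have hB1 : (1 : ℝ) < B := by linarith
  have hlog : 0 < Real.log B := Real.log_pos hB1
  set c1 : ℝ := min c0 (ε / 4) with hc1
  have hc10 : 0 < c1 := lt_min hc0 (by linarith)
  have hc1a : c1 ≤ c0 := min_le_left _ _
  have hc1b : c1 ≤ ε / 4 := min_le_right _ _
  set ε' : ℝ := ε / 2 with hε'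
  set c2 : ℝ := ε' ^ 2 / 4 * (c1 / 2) / Real.log B with hc2
  have hc20 : 0 < c2 := by positivity
  set c3 : ℝ := min c2 c0 with hc3
  have hc30 : 0 < c3 := lt_min hc20 hc0
  have hc3a : c3 ≤ c2 := min_le_left _ _
  have hc3b : c3 ≤ c0 := min_le_right _ _
  have hlim : Tendsto (fun N : ℕ => (N : ℝ) * (((B : ℝ) ^ (-(c3 / 2))) ^ N)) atTop (𝓝 0) := by
    apply tendsto_self_mul_const_pow_of_lt_one (by positivity)
    apply Real.rpow_lt_one_of_one_lt_of_neg hB1 (by linarith)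
  obtain ⟨N2, hN2⟩ := eventually_atTop.1 (hlim.eventually (gt_mem_nhds (show (0 : ℝ) < 1 / (3 * B) by positivity)))
  refine ⟨c3 / 2, by positivity, max N1 (max N2 ⌈2 / c1⌉₊), fun N hN {ι} I hI y hsm => ?_⟩
  have hNN1 : N1 ≤ N := (le_max_left _ _).trans hN
  have hNN2 : N2 ≤ N := ((le_max_left _ _).trans (le_max_right _ _)).trans hN
  have hNN3 : 2 / c1 ≤ N := (Nat.le_ceil _).trans (by
    exact_mod_cast ((le_max_right _ _).trans (le_max_right _ _)).trans hN)
  rw [div_le_iff₀ hc10] at hNN3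
  have hN0 : (0 : ℝ) ≤ N := Nat.cast_nonneg _
  have hI0 : (0 : ℝ) ≤ I.card := Nat.cast_nonneg _
  set ℓ : ℕ := ⌊c1 * N⌋₊ with hℓ
  have hℓ1 : (ℓ : ℝ) ≤ c1 * N := Nat.floor_le (by positivity)
  have hℓ2 : c1 * N / 2 ≤ ℓ := by
    have := Nat.lt_floor_add_one (c1 * N)
    rw [← hℓ] at this
    linarith
  have hℓ3 : 1 ≤ ℓ := by
    have : (1 : ℝ) ≤ ℓ := by linarith
    exact_mod_cast this
  set Bd : ℕ → ℕ → Finset ι := fun j a =>
    I.filter (fun i => ε' * ℓ < |(cnt B a ℓ (wd B ℓ (j * ℓ) (y i)).toNat : ℝ) - ℓ / (B : ℝ)|) with hBd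
  have hsub : I.filter (fun i => ¬ ∀ n ≤ N, ∀ a < B, |(oc B a n (y i) : ℝ) - n / (B : ℝ)| ≤ ε * N) ⊆
      (range (N / ℓ)).biUnion (fun j => (range B).biUnion (fun a => Bd j a)) := by
    intro i hi
    rw [mem_filter] at hi
    by_contra hcon
    apply hi.2
    intro n hn a ha
    have h1 : ∀ j < N / ℓ, |(cnt B a ℓ (wd B ℓ (j * ℓ) (y i)).toNat : ℝ) - ℓ / (B : ℝ)| ≤ ε' * ℓ := by
      intro j hj
      by_contra h2
      push Not at h2
      apply hcon
      rw [mem_biUnion]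
      refine ⟨j, mem_range.2 hj, ?_⟩
      rw [mem_biUnion]
      exact ⟨a, mem_range.2 ha, by rw [hBd]; exact mem_filter.2 ⟨hi.1, h2⟩⟩
    refine (oc_all hB hℓ3 (y i) (by positivity) h1 n hn).trans ?_
    rw [hε']
    nlinarith
  have hbad : ∀ j ∈ range (N / ℓ), ∀ a ∈ range B, ((Bd j a).card : ℝ) ≤ 3 * (B : ℝ) ^ (-(c3 * N)) * I.card := by
    intro j hj a ha
    rw [mem_range] at hj ha
    have hjℓ : j * ℓ ≤ N := by
      have := Nat.div_mul_le_self N ℓ
      nlinarith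
    have h1 := hind N hNN1 I hI y ℓ hℓ3 (hℓ1.trans (by nlinarith)) (fun _ : Fin 1 => j * ℓ)
      (fun i i' h => absurd (Subsingleton.elim i i') h) (fun R hR1 hR => hsm (j * ℓ) hjℓ R hR1 hR)
    have h2 := win_bad I y hB a ha ε' (by positivity) (by linarith) h1
    refine h2.trans ?_
    apply mul_le_mul_of_nonneg_right _ hI0
    have h3 : Real.exp (-(ε' ^ 2 / 4) * ℓ) ≤ (B : ℝ) ^ (-(c3 * N)) := by
      calc Real.exp (-(ε' ^ 2 / 4) * ℓ) ≤ Real.exp (-(c2 * N * Real.log B)) := by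
            apply Real.exp_le_exp.2
            have e : c2 * N * Real.log B = ε' ^ 2 / 4 * (c1 * N / 2) := by
              rw [hc2]; field_simp
            rw [e]
            have : 0 ≤ ε' ^ 2 / 4 := by positivity
            nlinarith
        _ = (B : ℝ) ^ (-(c2 * N)) := by
            rw [exp_lower hB1]
            congr 2
            field_simp
        _ ≤ _ := by
            apply Real.rpow_le_rpow_of_exponent_le hB1.le
            nlinarith
    have h4 : (B : ℝ) ^ (-(c0 * N)) ≤ (B : ℝ) ^ (-(c3 * N)) := by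
      apply Real.rpow_le_rpow_of_exponent_le hB1.le
      nlinarith
    linarith
  have htot : ((I.filter (fun i => ¬ ∀ n ≤ N, ∀ a < B, |(oc B a n (y i) : ℝ) - n / (B : ℝ)| ≤ ε * N)).card : ℝ) ≤
      N * (B * (3 * (B : ℝ) ^ (-(c3 * N)) * I.card)) := by
    calc ((I.filter (fun i => ¬ ∀ n ≤ N, ∀ a < B, |(oc B a n (y i) : ℝ) - n / (B : ℝ)| ≤ ε * N)).card : ℝ) ≤
          (((range (N / ℓ)).biUnion (fun j => (range B).biUnion (fun a => Bd j a))).card : ℝ) := by
          exact_mod_cast card_le_card hsub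
      _ ≤ ∑ j ∈ range (N / ℓ), ∑ a ∈ range B, ((Bd j a).card : ℝ) := by
          have h1 : ((range (N / ℓ)).biUnion (fun j => (range B).biUnion (fun a => Bd j a))).card ≤
              ∑ j ∈ range (N / ℓ), ∑ a ∈ range B, (Bd j a).card := by
            refine card_biUnion_le.trans (sum_le_sum fun j _ => card_biUnion_le)
          exact_mod_cast h1
      _ ≤ ∑ j ∈ range (N / ℓ), ∑ a ∈ range B, 3 * (B : ℝ) ^ (-(c3 * N)) * I.card :=
          sum_le_sum fun j hj => sum_le_sum fun a ha => hbad j hj a ha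
      _ = ((N / ℓ : ℕ) : ℝ) * (B * (3 * (B : ℝ) ^ (-(c3 * N)) * I.card)) := by
          rw [sum_const, sum_const, card_range, card_range, nsmul_eq_mul, nsmul_eq_mul]
      _ ≤ _ := by
          apply mul_le_mul_of_nonneg_right _ (by positivity)
          exact_mod_cast Nat.div_le_self N ℓ
  refine htot.trans ?_
  have h5 := hN2 N hNN2
  have h6 : ((B : ℝ) ^ (-(c3 / 2))) ^ N = (B : ℝ) ^ (-(c3 / 2 * N)) := by
    rw [← Real.rpow_natCast, ← Real.rpow_mul hB0.le]
    congr 1; ring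
  rw [h6, lt_div_iff₀ (by positivity)] at h5
  have h7 : (B : ℝ) ^ (-(c3 * N)) = (B : ℝ) ^ (-(c3 / 2 * N)) * (B : ℝ) ^ (-(c3 / 2 * N)) := by
    rw [← Real.rpow_add hB0]; congr 1; ring
  rw [h7]
  calc (N : ℝ) * (B * (3 * ((B : ℝ) ^ (-(c3 / 2 * N)) * (B : ℝ) ^ (-(c3 / 2 * N))) * I.card)) =
        ((N : ℝ) * (B : ℝ) ^ (-(c3 / 2 * N)) * (3 * B)) * ((B : ℝ) ^ (-(c3 / 2 * N)) * I.card) := by ring
    _ ≤ 1 * ((B : ℝ) ^ (-(c3 / 2 * N)) * I.card) :=
        mul_le_mul_of_nonneg_right h5.le (by positivity)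
    _ = _ := one_mul _

/-! ### blocks -/

/-- the number of occurrences of the block `a` (an integer below `b ^ k`) starting at one of the
places `1, …, n` of `y` -/
noncomputable def ob (b k a n : ℕ) (y : ℝ) : ℕ := ((range n).filter (fun i => wd b k i y = a)).card

lemma wd_block {b k : ℕ} (hb : 2 ≤ b) (r j : ℕ) (y : ℝ) :
    wd (b ^ k) 1 j ((b : ℝ) ^ r * y) = wd b k (k * j + r) y := by
  unfold wd
  push_cast
  rw [← mul_assoc, ← pow_mul, ← pow_add, pow_one]
  congr 4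
  ring

lemma ob_split {b k : ℕ} (hb : 2 ≤ b) (hk : 1 ≤ k) (a n : ℕ) (y : ℝ) :
    ob b k a n y = ∑ r ∈ range k, oc (b ^ k) a ((n + k - 1 - r) / k) ((b : ℝ) ^ r * y) := by
  unfold ob oc
  rw [card_eq_sum_card_fiberwise (f := fun i => i % k) (t := range k)
    (fun i _ => by rw [mem_coe, mem_range]; exact Nat.mod_lt _ (by omega))]
  apply sum_congr rfl
  intro r hr
  rw [mem_range] at hr
  symm
  apply card_bij (fun j _ => k * j + r)
  · intro j hj
    rw [mem_filter, mem_range] at hj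
    have h1 : k * j + r < n := by
      have h2 := hj.1
      rw [Nat.lt_div_iff_mul_lt (by omega)] at h2
      have h3 : k * j = j * k := mul_comm _ _
      omega
    rw [mem_filter, mem_filter, mem_range]
    refine ⟨⟨h1, by rw [← wd_block hb]; exact hj.2⟩, ?_⟩
    rw [Nat.mul_add_mod, Nat.mod_eq_of_lt hr]
  · intro j _ j' _ h
    have : k * j = k * j' := by omega
    exact Nat.eq_of_mul_eq_mul_left (by omega) this
  · intro i hi
    rw [mem_filter, mem_filter, mem_range] at hi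
    obtain ⟨⟨h1, h2⟩, h3⟩ := hi
    have h4 := Nat.div_add_mod i k
    rw [h3] at h4
    refine ⟨i / k, ?_, h4⟩
    rw [mem_filter, mem_range, wd_block hb, h4]
    refine ⟨?_, h2⟩
    rw [Nat.lt_div_iff_mul_lt (by omega)]
    have h5 : k * (i / k) = i / k * k := mul_comm _ _
    omega

lemma sum_places {k : ℕ} (hk : 1 ≤ k) (n : ℕ) : ∑ r ∈ range k, (n + k - 1 - r) / k = n := by
  have h : ∀ n, ∑ r ∈ range k, (n + r) / k = n := by
    intro n
    induction n with
    | zero =>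
      apply sum_eq_zero
      intro r hr
      rw [mem_range] at hr
      rw [zero_add]
      exact Nat.div_eq_of_lt hr
    | succ n ih =>
      have h1 : ∑ r ∈ range k, (n + 1 + r) / k = ∑ r ∈ range (k + 1), (n + r) / k - n / k := by
        rw [sum_range_succ']
        rw [add_zero, Nat.add_sub_cancel]
        apply sum_congr rfl
        intro r _
        congr 1; ring
      rw [h1, sum_range_succ, ih, Nat.add_div_right _ (by omega : 0 < k)]
      omega
  rw [← h n, ← sum_range_reflect]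
  apply sum_congr rfl
  intro r hr
  rw [mem_range] at hr
  congr 1
  rw [h n]
  omega

lemma small_shift {ι : Type} {I : Finset ι} {y : ι → ℝ} {b k r e R : ℕ} {D : ℝ} (hb : 2 ≤ b)
    (h : Small I y b 1 (fun _ => k * e + r) R D) :
    Small I (fun i => (b : ℝ) ^ r * y i) (b ^ k) 1 (fun _ => e) R D := by
  intro lam hlam hne
  have e1 : ∑ j, lam j * (((b ^ k : ℕ) : ℕ) : ℤ) ^ e = lam 0 * (b : ℤ) ^ (k * e) := by
    rw [Fin.sum_univ_one]
    push_cast
    rw [← pow_mul]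
  have e2 : ∑ j : Fin 1, lam j * (b : ℤ) ^ (k * e + r) = lam 0 * (b : ℤ) ^ (k * e + r) := by
    rw [Fin.sum_univ_one]
  have hne' : ∑ j : Fin 1, lam j * (b : ℤ) ^ (k * e + r) ≠ 0 := by
    rw [e2]
    rw [e1] at hne
    exact mul_ne_zero (left_ne_zero_of_mul hne) (by positivity)
  have h1 := h lam hlam hne'
  refine le_trans (le_of_eq ?_) h1
  congr 1
  apply sum_congr rfl
  intro i _
  rw [e1, e2]
  congr 1
  push_cast
  rw [pow_add]
  ring

open Classical in
/-- blocks: all frequencies are right outside an exponentially small set -/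
theorem bfreq (b k : ℕ) (hb : 2 ≤ b) (hk : 1 ≤ k) (κ η ε : ℝ) (hκ : 0 < κ) (hη : 0 < η) (hε : 0 < ε)
    (hε1 : ε ≤ 1) :
    ∃ c : ℝ, 0 < c ∧ ∃ N0 : ℕ, ∀ N : ℕ, N0 ≤ N → ∀ {ι : Type} (I : Finset ι), I.Nonempty →
      ∀ (y : ι → ℝ),
      (∀ e : ℕ, e ≤ k * N + k → ∀ R : ℕ, 1 ≤ R → (R : ℝ) ≤ (b : ℝ) ^ (κ * N) →
        Small I y b 1 (fun _ => e) R ((b : ℝ) ^ (-(η * N)))) →
      ((I.filter (fun i => ¬ ∀ n ≤ N, ∀ a < b ^ k,
        |(ob b k a n (y i) : ℝ) - n / ((b ^ k : ℕ) : ℝ)| ≤ ε * N)).card : ℝ) ≤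
        (b : ℝ) ^ (-(c * N)) * I.card := by
  have hkR : (1 : ℝ) ≤ k := by exact_mod_cast hk
  have hB : 2 ≤ b ^ k := by
    calc 2 ≤ b := hb
      _ = b ^ 1 := (pow_one b).symm
      _ ≤ b ^ k := Nat.pow_le_pow_right (by omega) hk
  have hbR : (2 : ℝ) ≤ b := by exact_mod_cast hb
  have hb0 : (0 : ℝ) < b := by linarith
  have hb1 : (1 : ℝ) < b := by linarith
  obtain ⟨c, hc, N1, h⟩ := dfreq (b ^ k) hB (κ / k) (η / k) (ε / k) (by positivity) (by positivity)
    (by positivity) (by rw [div_le_one (by linarith)]; linarith)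
  have hpow : ∀ x : ℝ, (((b ^ k : ℕ) : ℝ)) ^ x = (b : ℝ) ^ (k * x) := by
    intro x
    push_cast
    rw [← Real.rpow_natCast, ← Real.rpow_mul hb0.le]
  obtain ⟨N2, hN2⟩ := eventually_atTop.1 (((tendsto_rpow_atTop (show (0 : ℝ) < 1 by norm_num)).comp
    tendsto_natCast_atTop_atTop : Tendsto (fun N : ℕ => (N : ℝ) ^ (1 : ℝ)) atTop atTop).eventually_ge_atTop
    (2 * k / c))
  refine ⟨c / 2, by positivity, max N1 N2, fun N hN {ι} I hI y hsm => ?_⟩
  have hN0 : (0 : ℝ) ≤ N := Nat.cast_nonneg _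
  have hNN1 : N1 ≤ N := (le_max_left _ _).trans hN
  have hNN2 : 2 * k / c ≤ (N : ℝ) := by
    have := hN2 N ((le_max_right _ _).trans hN)
    simpa using this
  rw [div_le_iff₀ hc] at hNN2
  set Bd : ℕ → Finset ι := fun r => I.filter (fun i => ¬ ∀ n ≤ N, ∀ a < b ^ k,
    |(oc (b ^ k) a n ((b : ℝ) ^ r * y i) : ℝ) - n / ((b ^ k : ℕ) : ℝ)| ≤ ε / k * N) with hBd
  have hBdc : ∀ r ∈ range k, ((Bd r).card : ℝ) ≤ (b : ℝ) ^ (-(k * (c * N))) * I.card := by
    intro r hr
    rw [mem_range] at hr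
    have h1 := h N hNN1 I hI (fun i => (b : ℝ) ^ r * y i) (fun e he R hR1 hR => by
      rw [hpow] at hR ⊢
      have e1 : (k : ℝ) * (κ / k * N) = κ * N := by field_simp
      have e2 : (k : ℝ) * -(η / k * N) = -(η * N) := by field_simp
      rw [e1] at hR
      rw [e2]
      apply small_shift hb
      apply hsm _ _ R hR1 hR
      have : k * e ≤ k * N := Nat.mul_le_mul_left _ he
      omega)
    rw [hpow] at h1
    have e3 : (k : ℝ) * -(c * N) = -(k * (c * N)) := by ring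
    rw [e3] at h1
    exact h1
  have hsub : I.filter (fun i => ¬ ∀ n ≤ N, ∀ a < b ^ k,
      |(ob b k a n (y i) : ℝ) - n / ((b ^ k : ℕ) : ℝ)| ≤ ε * N) ⊆ (range k).biUnion Bd := by
    intro i hi
    rw [mem_filter] at hi
    by_contra hcon
    apply hi.2
    intro n hn a ha
    have h1 : ∀ r ∈ range k, |(oc (b ^ k) a ((n + k - 1 - r) / k) ((b : ℝ) ^ r * y i) : ℝ) -
        ((n + k - 1 - r) / k : ℕ) / ((b ^ k : ℕ) : ℝ)| ≤ ε / k * N := by
      intro r hr
      by_contra h2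
      apply hcon
      rw [mem_biUnion]
      refine ⟨r, hr, ?_⟩
      rw [hBd, mem_filter]
      refine ⟨hi.1, fun h3 => h2 (h3 _ ?_ a ha)⟩
      rcases Nat.eq_zero_or_pos n with h0 | h0
      · subst h0
        have : (0 + k - 1 - r) / k = 0 := Nat.div_eq_of_lt (by omega)
        omega
      · have : (n + k - 1 - r) / k ≤ n := by
          apply Nat.div_le_of_le_mul
          have : n + k ≤ k * n + 1 := by
            obtain ⟨k', rfl⟩ : ∃ k', k = k' + 1 := ⟨k - 1, by omega⟩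
            obtain ⟨n', rfl⟩ : ∃ n', n = n' + 1 := ⟨n - 1, by omega⟩
            have e : (k' + 1) * (n' + 1) = k' * n' + k' + n' + 1 := by ring
            rw [e]
            have := Nat.zero_le (k' * n')
            omega
          omega
        omega
    rw [ob_split hb hk]
    have h4 : (n : ℝ) / ((b ^ k : ℕ) : ℝ) = ∑ r ∈ range k, (((n + k - 1 - r) / k : ℕ) : ℝ) / ((b ^ k : ℕ) : ℝ) := by
      rw [← sum_div, ← Nat.cast_sum, sum_places hk]
    rw [h4]
    push_cast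
    rw [← sum_sub_distrib]
    refine (abs_sum_le_sum_abs _ _).trans ?_
    have h5 : ∀ r ∈ range k, |(oc (b ^ k) a ((n + k - 1 - r) / k) ((b : ℝ) ^ r * y i) : ℝ) -
        ((((n + k - 1 - r) / k : ℕ) : ℝ)) / (b : ℝ) ^ k| ≤ ε / k * N := by
      intro r hr
      have := h1 r hr
      push_cast at this
      exact this
    refine (sum_le_card_nsmul _ _ _ h5).trans (le_of_eq ?_)
    rw [card_range, nsmul_eq_mul]
    field_simp
  have hI0 : (0 : ℝ) ≤ I.card := Nat.cast_nonneg _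
  calc ((I.filter (fun i => ¬ ∀ n ≤ N, ∀ a < b ^ k,
        |(ob b k a n (y i) : ℝ) - n / ((b ^ k : ℕ) : ℝ)| ≤ ε * N)).card : ℝ) ≤
        (((range k).biUnion Bd).card : ℝ) := by exact_mod_cast card_le_card hsub
    _ ≤ ∑ r ∈ range k, ((Bd r).card : ℝ) := by
        exact_mod_cast (card_biUnion_le (s := range k) (t := Bd))
    _ ≤ ∑ r ∈ range k, (b : ℝ) ^ (-(k * (c * N))) * I.card := sum_le_sum hBdc
    _ = k * ((b : ℝ) ^ (-(k * (c * N))) * I.card) := by
        rw [sum_const, card_range, nsmul_eq_mul]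
    _ ≤ (b : ℝ) ^ (-(c / 2 * N)) * I.card := by
        rw [← mul_assoc]
        apply mul_le_mul_of_nonneg_right _ hI0
        have h6 : (k : ℝ) ≤ (b : ℝ) ^ (c / 2 * N) := by
          calc (k : ℝ) ≤ (b : ℝ) ^ (k : ℝ) := by
                rw [Real.rpow_natCast]
                exact_mod_cast (Nat.lt_pow_self (by omega : 1 < b)).le
            _ ≤ _ := Real.rpow_le_rpow_of_exponent_le hb1.le (by linarith)
        calc (k : ℝ) * (b : ℝ) ^ (-(k * (c * N))) ≤ (b : ℝ) ^ (c / 2 * N) * (b : ℝ) ^ (-(k * (c * N))) :=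
              mul_le_mul_of_nonneg_right h6 (Real.rpow_pos_of_pos hb0 _).le
          _ = (b : ℝ) ^ (c / 2 * N + -(k * (c * N))) := (Real.rpow_add hb0 _ _).symm
          _ ≤ _ := by
              apply Real.rpow_le_rpow_of_exponent_le hb1.le
              have : 0 ≤ c * N := by positivity
              nlinarith

end Pool.Agent.W301.RM
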