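import Pool.Agent.W301.RM.Block

/-! Exponential sums over `A m ^ κ + P(m)`, `m < M`. -/

set_option autoImplicit false

namespace Pool.Agent.W301.RM
open Finset Filter Topology
open Pool.Agent.H373R2.NB
open Pool.Agent.Helper602.MK (ee)
open Pool.Agent.Helper602.MK.N_J5b (norm_ee ee_add)

/-- splitting a sum into blocks -/
lemma blocks (f : ℕ → ℂ) (hf : ∀ n, ‖f n‖ ≤ 1) {M m0 L : ℕ} (hL : 1 ≤ L) {θ : ℝ} (hθ : 0 ≤ θ)
    (h : ∀ a, m0 ≤ a → a ≤ M → ‖∑ t ∈ range L, f (a + t)‖ ≤ L * θ) :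
    ‖∑ m ∈ range M, f m‖ ≤ m0 + M * θ + L := by
  have key : ∀ J : ℕ, m0 + J * L ≤ M → ‖∑ m ∈ range (m0 + J * L), f m‖ ≤ m0 + J * L * θ := by
    intro J
    induction J with
    | zero =>
      intro _
      rw [zero_mul, add_zero]
      push_cast
      rw [zero_mul, zero_mul, add_zero]
      refine (norm_sum_le _ _).trans ?_
      refine (sum_le_card_nsmul _ _ 1 fun n _ => hf n).trans (le_of_eq ?_)
      rw [card_range, nsmul_eq_mul, mul_one]
    | succ J ih =>
      intro hJ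
      have e : m0 + (J + 1) * L = (m0 + J * L) + L := by ring
      have hJ' : m0 + J * L ≤ M := by nlinarith
      rw [e, sum_range_add]
      refine (norm_add_le _ _).trans ?_
      have h1 := ih hJ'
      have h2 := h (m0 + J * L) (by omega) hJ'
      push_cast
      linarith
  by_cases hm : m0 ≤ M
  · set J := (M - m0) / L with hJ
    have h1 : m0 + J * L ≤ M := by
      have := Nat.div_mul_le_self (M - m0) L
      rw [← hJ] at this
      omega
    have h2 : M < m0 + J * L + L := by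
      have := Nat.lt_div_mul_add (a := M - m0) (b := L) (by omega)
      rw [← hJ] at this
      omega
    obtain ⟨r, hr⟩ := Nat.exists_eq_add_of_le h1
    have h3 := key J h1
    have h4 : ‖∑ t ∈ range r, f (m0 + J * L + t)‖ ≤ L := by
      refine (norm_sum_le _ _).trans ?_
      refine (sum_le_card_nsmul _ _ 1 fun n _ => hf _).trans ?_
      rw [card_range, nsmul_eq_mul, mul_one]
      exact_mod_cast (by omega : r ≤ L)
    have h5 : ∑ m ∈ range M, f m = ∑ m ∈ range (m0 + J * L), f m + ∑ t ∈ range r, f (m0 + J * L + t) := by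
      rw [hr, sum_range_add]
    rw [h5]
    refine (norm_add_le _ _).trans ?_
    have h6 : (J : ℝ) * L ≤ M := by exact_mod_cast (by omega : J * L ≤ M)
    have h7 := mul_le_mul_of_nonneg_right h6 hθ
    linarith
  · push Not at hm
    refine (norm_sum_le _ _).trans ?_
    refine (sum_le_card_nsmul _ _ 1 fun n _ => hf n).trans ?_
    rw [card_range, nsmul_eq_mul, mul_one]
    have h1 : (M : ℝ) ≤ m0 := by exact_mod_cast hm.le
    have : (0 : ℝ) ≤ M * θ := by positivity
    have : (0 : ℝ) ≤ L := by positivity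
    linarith

open Polynomial in
theorem full_sum (κ : ℝ) (hκ0 : 0 < κ) (hκ : ∀ i : ℕ, κ ≠ i) (k : ℕ) (hk : κ ≤ k) (hk1 : 1 ≤ k) :
    ∃ γ : ℝ, 0 < γ ∧ ∃ M0 : ℕ, ∀ M : ℕ, M0 ≤ M → ∀ A : ℝ, (M : ℝ) ^ (κ / 2) ≤ |A| * (M : ℝ) ^ κ →
      |A| * (M : ℝ) ^ κ ≤ (M : ℝ) ^ ((k : ℝ) - 1) → ∀ P : ℝ[X], P.natDegree < k →
      ‖∑ m ∈ range M, ee (A * (m : ℝ) ^ κ + P.eval (m : ℝ))‖ ≤ (M : ℝ) ^ (1 - γ) := by
  obtain ⟨cI, mI, hcI, hI⟩ := IW_all k hk1
  have hkR : (1 : ℝ) ≤ k := by exact_mod_cast hk1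
  have hcI1 : (1 : ℝ) ≤ cI := by exact_mod_cast hcI
  set τ : ℝ := 1 / (2 * k + 1) with hτ
  have hτ0 : 0 < τ := by positivity
  have hτk : (2 * k + 1) * τ = 1 := by rw [hτ]; field_simp
  set K1 : ℝ := |(k.factorial : ℝ) * bc κ k| with hK1
  have hK10 : 0 < K1 := by
    rw [hK1, abs_pos]
    exact mul_ne_zero (by positivity) (bc_ne k κ hκ)
  set K2 : ℝ := |bc κ (k + 1)| with hK2
  have hK20 : 0 ≤ K2 := abs_nonneg _
  set δ : ℝ := κ * τ / (4 * (k + 1)) with hδ
  have hδ0 : 0 < δ := by positivity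
  have hδk : δ * (k + 1) = κ * τ / 4 := by rw [hδ]; field_simp
  set γ : ℝ := δ / (mI + 1) with hγ
  have hγ0 : 0 < γ := by positivity
  have hγm : γ * (mI + 1) = δ := by rw [hγ]; field_simp
  have hmI0 : (0 : ℝ) ≤ mI := Nat.cast_nonneg _
  have hγδ : γ ≤ δ := by nlinarith
  have hγmI : γ * mI ≤ δ := by nlinarith
  have hκτ : κ * τ ≤ 1 / 2 := by nlinarith
  have hδκ : δ ≤ κ * τ / 4 := by nlinarith
  -- large M
  have T : ∀ {p : ℝ}, 0 < p → Tendsto (fun M : ℕ => (M : ℝ) ^ p) atTop atTop := fun hp =>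
    (tendsto_rpow_atTop hp).comp tendsto_natCast_atTop_atTop
  obtain ⟨M0, hM0⟩ := eventually_atTop.1 (((T (by positivity : 0 < 3 * τ)).eventually_ge_atTop 2).and
    (((T (by norm_num : (0 : ℝ) < 1 / 2)).eventually_gt_atTop (2 * (cI * K1))).and
    (((T (by positivity : 0 < κ * τ / 4)).eventually_gt_atTop (cI * 2 ^ k / K1)).and
    (((T (by positivity : 0 < γ / 2)).eventually_ge_atTop (4 + 2 * Real.pi * K2)).and
      (eventually_ge_atTop 1)))))
  refine ⟨γ / 2, by positivity, M0, fun M hM A hA1 hA2 P hP => ?_⟩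
  obtain ⟨g1, g2, g3, g4, g5⟩ := hM0 M hM
  set X : ℝ := (M : ℝ) with hX
  have hX1 : (1 : ℝ) ≤ X := by rw [hX]; exact_mod_cast g5
  have hX0 : 0 < X := by linarith
  have mono : ∀ {x y : ℝ}, x ≤ y → X ^ x ≤ X ^ y := fun h => Real.rpow_le_rpow_of_exponent_le hX1 h
  have padd : ∀ x y : ℝ, X ^ x * X ^ y = X ^ (x + y) := fun x y => (Real.rpow_add hX0 x y).symm
  have ppos : ∀ x : ℝ, 0 < X ^ x := fun x => Real.rpow_pos_of_pos hX0 x
  set F : ℝ := |A| * X ^ κ with hF
  have hF0 : 0 < F := lt_of_lt_of_le (ppos _) hA1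
  set G : ℝ := F ^ τ with hG
  have hG0 : 0 < G := Real.rpow_pos_of_pos hF0 _
  have hGF : G ^ (2 * k + 1) = F := by
    rw [hG, ← Real.rpow_natCast, ← Real.rpow_mul hF0.le]
    push_cast
    rw [mul_comm τ, hτk, Real.rpow_one]
  have hG1 : X ^ (κ * τ / 2) ≤ G := by
    have : (X ^ (κ / 2)) ^ τ ≤ G := Real.rpow_le_rpow (ppos _).le hA1 hτ0.le
    rw [← Real.rpow_mul hX0.le] at this
    refine le_trans (le_of_eq ?_) this
    congr 1; ring
  have hG2 : G ^ 2 ≤ X ^ (1 - 3 * τ) := by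
    have : G ≤ (X ^ ((k : ℝ) - 1)) ^ τ := Real.rpow_le_rpow hF0.le hA2 hτ0.le
    rw [← Real.rpow_mul hX0.le] at this
    calc G ^ 2 ≤ (X ^ (((k : ℝ) - 1) * τ)) ^ 2 := pow_le_pow_left₀ hG0.le this 2
      _ = X ^ (1 - 3 * τ) := by
          rw [← Real.rpow_natCast, ← Real.rpow_mul hX0.le]
          congr 1
          push_cast
          linarith
  set Λ : ℝ := X / G ^ 2 with hΛ
  have hΛ0 : 0 < Λ := by positivity
  have hΛ2 : 2 ≤ Λ := by
    rw [hΛ, le_div_iff₀ (by positivity)]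
    calc 2 * G ^ 2 ≤ X ^ (3 * τ) * X ^ (1 - 3 * τ) :=
          mul_le_mul g1 hG2 (by positivity) (ppos _).le
      _ = X := by rw [padd]; ring_nf; rw [Real.rpow_one]
  set L : ℕ := ⌊Λ⌋₊ with hL
  have hL1 : (L : ℝ) ≤ Λ := Nat.floor_le hΛ0.le
  have hL2 : Λ / 2 ≤ L := by
    have := Nat.lt_floor_add_one Λ
    rw [← hL] at this
    linarith
  have hL3 : 1 ≤ L := by
    have : (1 : ℝ) ≤ L := by linarith
    exact_mod_cast this
  set u : ℝ := X ^ γ with hu
  have hu1 : 1 ≤ u := Real.one_le_rpow hX1 hγ0.le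
  have hu0 : 0 < u := by linarith
  have hum : u ^ mI ≤ X ^ δ := by
    rw [hu, ← Real.rpow_natCast, ← Real.rpow_mul hX0.le]
    exact mono hγmI
  set D : ℝ := X ^ δ with hD
  have hD1 : 1 ≤ D := Real.one_le_rpow hX1 hδ0.le
  have hD0 : 0 < D := by linarith
  have hDk : D ^ (k + 1) = X ^ (κ * τ / 4) := by
    rw [hD, ← Real.rpow_natCast, ← Real.rpow_mul hX0.le]
    congr 1
    push_cast
    exact hδk
  set ε : ℝ := K2 * (D ^ (k + 1) / G) with hε
  have hε0 : 0 ≤ ε := by positivity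
  have hε1 : ε ≤ K2 * X ^ (-γ) := by
    apply mul_le_mul_of_nonneg_left _ hK20
    rw [div_le_iff₀ hG0, hDk]
    calc X ^ (κ * τ / 4) ≤ X ^ (-γ + κ * τ / 2) := mono (by linarith)
      _ = X ^ (-γ) * X ^ (κ * τ / 2) := (padd _ _).symm
      _ ≤ X ^ (-γ) * G := mul_le_mul_of_nonneg_left hG1 (ppos _).le
  set m0 : ℕ := ⌈X / D⌉₊ with hm0
  have hblock : ∀ a, m0 ≤ a → a ≤ M →
      ‖∑ t ∈ range L, ee (A * ((a + t : ℕ) : ℝ) ^ κ + P.eval ((a + t : ℕ) : ℝ))‖ ≤
        L * (1 / u + 2 * Real.pi * ε) := by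
    intro a ha haM
    have ha1 : X / D ≤ a := (Nat.le_ceil _).trans (by exact_mod_cast ha)
    have hXD : 0 < X / D := by positivity
    have ha0 : (0 : ℝ) < a := by linarith
    have ha2 : 1 ≤ a := by exact_mod_cast ha0
    have ha3 : (a : ℝ) ≤ X := by rw [hX]; exact_mod_cast haM
    have hAX : |A| = F * X ^ (-κ) := by
      rw [hF, mul_assoc, padd]; simp
    -- bounds for powers of a
    have up : ∀ j : ℕ, κ ≤ j → |A| * (a : ℝ) ^ (κ - j) ≤ F * D ^ j / X ^ j := by
      intro j hj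
      have h1 : (a : ℝ) ^ (κ - j) ≤ (X / D) ^ (κ - j) :=
        Real.rpow_le_rpow_of_nonpos hXD ha1 (by linarith)
      have h2 : (X / D) ^ (κ - j) = X ^ (κ - j) * D ^ (j - κ) := by
        rw [Real.div_rpow hX0.le hD0.le, div_eq_mul_inv, ← Real.rpow_neg hD0.le]
        congr 2; ring
      have h3 : D ^ (j - κ) ≤ D ^ j := by
        rw [← Real.rpow_natCast]
        exact Real.rpow_le_rpow_of_exponent_le hD1 (by linarith)
      rw [hAX]
      calc F * X ^ (-κ) * (a : ℝ) ^ (κ - j) ≤ F * X ^ (-κ) * (X ^ (κ - j) * D ^ j) := by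
            apply mul_le_mul_of_nonneg_left _ (by positivity)
            refine h1.trans ?_
            rw [h2]
            exact mul_le_mul_of_nonneg_left h3 (ppos _).le
        _ = F * D ^ j * (X ^ (-κ) * X ^ (κ - j)) := by ring
        _ = F * D ^ j / X ^ j := by
            rw [padd, div_eq_mul_inv]
            congr 1
            rw [← Real.rpow_natCast, ← Real.rpow_neg hX0.le]
            congr 1; ring
    have low : F / X ^ k ≤ |A| * (a : ℝ) ^ (κ - k) := by
      have h1 : X ^ (κ - k) ≤ (a : ℝ) ^ (κ - k) :=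
        Real.rpow_le_rpow_of_nonpos ha0 ha3 (by linarith)
      rw [hAX]
      calc F / X ^ k = F * (X ^ (-κ) * X ^ (κ - k)) := by
            rw [padd, div_eq_mul_inv]
            congr 1
            rw [← Real.rpow_natCast, ← Real.rpow_neg hX0.le]
            congr 1; ring
        _ = F * X ^ (-κ) * X ^ (κ - k) := by ring
        _ ≤ _ := mul_le_mul_of_nonneg_left h1 (by positivity)
    apply block_pow hcI hI hk P hP hL3 hu1 A ha2
    · -- not too large
      rw [← hK1]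
      have h1 := up k hk
      have h2 : F * D ^ k / X ^ k ≤ X ^ (-(1 : ℝ)) * D ^ k := by
        rw [div_le_iff₀ (by positivity)]
        have h3 : X ^ (-(1 : ℝ)) * D ^ k * X ^ k = X ^ ((k : ℝ) - 1) * D ^ k := by
          have h4 : X ^ k = X ^ (k : ℝ) := (Real.rpow_natCast _ _).symm
          rw [h4, mul_right_comm, padd]
          congr 2; ring
        rw [h3]
        exact mul_le_mul_of_nonneg_right hA2 (by positivity)
      have h5 : u ^ mI * D ^ k ≤ X ^ (κ * τ / 4) := by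
        rw [← hDk, pow_succ, mul_comm]
        exact mul_le_mul_of_nonneg_left hum (by positivity)
      have h6 : cI * u ^ mI * (K1 * (|A| * (a : ℝ) ^ (κ - k))) ≤ cI * K1 * X ^ (-(1 / 2 : ℝ)) := by
        calc cI * u ^ mI * (K1 * (|A| * (a : ℝ) ^ (κ - k))) ≤
              cI * u ^ mI * (K1 * (X ^ (-(1 : ℝ)) * D ^ k)) := by
              apply mul_le_mul_of_nonneg_left _ (by positivity)
              exact mul_le_mul_of_nonneg_left (h1.trans h2) hK10.le
          _ = cI * K1 * (X ^ (-(1 : ℝ)) * (u ^ mI * D ^ k)) := by ring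
          _ ≤ cI * K1 * (X ^ (-(1 : ℝ)) * X ^ (κ * τ / 4)) := by
              apply mul_le_mul_of_nonneg_left _ (by positivity)
              exact mul_le_mul_of_nonneg_left h5 (ppos _).le
          _ ≤ _ := by
              apply mul_le_mul_of_nonneg_left _ (by positivity)
              rw [padd]
              exact mono (by linarith)
      refine lt_of_le_of_lt h6 ?_
      have h7 : X ^ (-(1 / 2 : ℝ)) * X ^ (1 / 2 : ℝ) = 1 := by
        rw [padd]; simp
      have h8 : 0 < X ^ (-(1 / 2 : ℝ)) := ppos _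
      nlinarith [mul_lt_mul_of_pos_left g2 h8]
    · -- not too small
      rw [← hK1]
      have h1 : (Λ / 2) ^ k ≤ (L : ℝ) ^ k := pow_le_pow_left₀ (by positivity) hL2 k
      have h2 : F / X ^ k * (Λ / 2) ^ k = G / 2 ^ k := by
        rw [hΛ, ← hGF, div_pow, div_pow]
        field_simp
        ring
      calc cI * u ^ mI ≤ cI * X ^ (κ * τ / 4) := by
            apply mul_le_mul_of_nonneg_left _ (by positivity)
            exact hum.trans (mono hδκ)
        _ < K1 / 2 ^ k * X ^ (κ * τ / 4) * X ^ (κ * τ / 4) := by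
            apply mul_lt_mul_of_pos_right _ (ppos _)
            rw [div_lt_iff₀ hK10] at g3
            rw [div_mul_eq_mul_div, lt_div_iff₀ (by positivity)]
            linarith
        _ = K1 / 2 ^ k * X ^ (κ * τ / 2) := by
            rw [mul_assoc, padd]
            congr 2; ring
        _ ≤ K1 / 2 ^ k * G := mul_le_mul_of_nonneg_left hG1 (by positivity)
        _ = K1 * (F / X ^ k) * (Λ / 2) ^ k := by
            rw [mul_assoc, h2]; ring
        _ ≤ K1 * (|A| * (a : ℝ) ^ (κ - k)) * (L : ℝ) ^ k := by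
            apply mul_le_mul _ h1 (by positivity) (by positivity)
            exact mul_le_mul_of_nonneg_left low hK10.le
    · -- remainder
      rw [← hK2, hε, mul_assoc]
      apply mul_le_mul_of_nonneg_left _ hK20
      have h1 := up (k + 1) (by push_cast; linarith)
      calc |A| * (a : ℝ) ^ (κ - (k + 1 : ℕ)) * (L : ℝ) ^ (k + 1) ≤
            F * D ^ (k + 1) / X ^ (k + 1) * Λ ^ (k + 1) := by
            apply mul_le_mul h1 _ (by positivity) (by positivity)
            exact pow_le_pow_left₀ (Nat.cast_nonneg _) hL1 _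
        _ = D ^ (k + 1) / G := by
            rw [hΛ, ← hGF, div_pow]
            field_simp
            ring
  have hall := blocks (fun m : ℕ => ee (A * (m : ℝ) ^ κ + P.eval (m : ℝ))) (fun n => (norm_ee _).le)
    (M := M) (m0 := m0) hL3 (θ := 1 / u + 2 * Real.pi * ε) (by positivity) hblock
  refine hall.trans ?_
  have f1 : (m0 : ℝ) ≤ X ^ (1 - γ) + X ^ (1 - γ) := by
    have h1 : (m0 : ℝ) ≤ X / D + 1 := (Nat.ceil_lt_add_one (by positivity)).le
    have h2 : X / D ≤ X ^ (1 - γ) := by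
      rw [div_le_iff₀ hD0, hD, padd]
      calc X = X ^ (1 : ℝ) := (Real.rpow_one _).symm
        _ ≤ _ := mono (by linarith)
    have h3 : (1 : ℝ) ≤ X ^ (1 - γ) := Real.one_le_rpow hX1 (by linarith)
    linarith
  have f2 : X * (1 / u + 2 * Real.pi * ε) ≤ (1 + 2 * Real.pi * K2) * X ^ (1 - γ) := by
    have h1 : 1 / u = X ^ (-γ) := by rw [hu, Real.rpow_neg hX0.le, one_div]
    have h2 : X * X ^ (-γ) = X ^ (1 - γ) := by
      rw [sub_eq_add_neg, Real.rpow_add hX0, Real.rpow_one]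
    have h3 : 2 * Real.pi * ε ≤ 2 * Real.pi * (K2 * X ^ (-γ)) :=
      mul_le_mul_of_nonneg_left hε1 (by positivity)
    rw [h1]
    calc X * (X ^ (-γ) + 2 * Real.pi * ε) ≤ X * (X ^ (-γ) + 2 * Real.pi * (K2 * X ^ (-γ))) := by
          apply mul_le_mul_of_nonneg_left _ hX0.le
          linarith
      _ = (1 + 2 * Real.pi * K2) * (X * X ^ (-γ)) := by ring
      _ = _ := by rw [h2]
  have f3 : (L : ℝ) ≤ X ^ (1 - γ) := by
    refine hL1.trans ?_
    rw [hΛ, div_le_iff₀ (by positivity)]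
    have h1 : X ^ γ ≤ G ^ 2 := by
      calc X ^ γ ≤ (X ^ (κ * τ / 2)) ^ 2 := by
            rw [← Real.rpow_natCast, ← Real.rpow_mul hX0.le]
            exact mono (by push_cast; linarith)
        _ ≤ G ^ 2 := pow_le_pow_left₀ (ppos _).le hG1 2
    calc X = X ^ (1 - γ) * X ^ γ := by rw [padd]; ring_nf; rw [Real.rpow_one]
      _ ≤ _ := mul_le_mul_of_nonneg_left h1 (ppos _).le
  calc (m0 : ℝ) + X * (1 / u + 2 * Real.pi * ε) + L ≤ (4 + 2 * Real.pi * K2) * X ^ (1 - γ) := by linarith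
    _ ≤ X ^ (γ / 2) * X ^ (1 - γ) := mul_le_mul_of_nonneg_right g4 (ppos _).le
    _ = X ^ (1 - γ / 2) := by rw [padd]; congr 1; ring

end Pool.Agent.W301.RM
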