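import Pool.Agent.W301.RM.Full
import Pool.Agent.W301.RM.Freq2

/-! Exponential sums over `A g(m) + P(m)`, `m < M`, for functions `g` with good Taylor
approximations. -/

set_option autoImplicit false

namespace Pool.Agent.W301.RM
open Finset Filter Topology
open Pool.Agent.H373R2.NB
open Pool.Agent.Helper602.MK (ee)
open Pool.Agent.Helper602.MK.N_J5b (norm_ee ee_add)

open Polynomial in
/-- Taylor approximations of degree `k` at the positive integers -/
def Tay (g : ℝ → ℝ) (κ : ℝ) (k : ℕ) (K1 K2 : ℝ) : Prop :=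
  ∀ a : ℕ, 1 ≤ a → ∃ Q : ℝ[X], Q.natDegree ≤ k ∧
    |(k.factorial : ℝ) * Q.coeff k| = K1 * (a : ℝ) ^ (κ - k) ∧
    ∀ t : ℕ, |g ((a + t : ℕ) : ℝ) - Q.eval (t : ℝ)| ≤ K2 * (a : ℝ) ^ (κ - (k + 1 : ℕ)) * (t : ℝ) ^ (k + 1)

lemma tay_pow (κ : ℝ) (k : ℕ) (hk : κ ≤ k) :
    Tay (fun x => x ^ κ) κ k |(k.factorial : ℝ) * bc κ k| |bc κ (k + 1)| := by
  intro a ha
  have ha0 : (0 : ℝ) < a := by exact_mod_cast ha
  refine ⟨TPp κ a (k + 1), TPp_natDegree κ a k, ?_, fun t => ?_⟩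
  · rw [TPp_coeff, ← mul_assoc, abs_mul, abs_of_pos (Real.rpow_pos_of_pos ha0 _)]
  · have := taylor_pow ha0 (k + 1) κ (by push_cast; linarith) (t : ℝ) (Nat.cast_nonneg _)
    rw [TPp_eval]
    push_cast at this ⊢
    exact this

open Polynomial in
lemma tay_log (k : ℕ) (hk : 1 ≤ k) :
    Tay Real.log 0 k (((k - 1).factorial : ℕ) : ℝ) 1 := by
  intro a ha
  have ha0 : (0 : ℝ) < a := by exact_mod_cast ha
  have hbc : ∀ n : ℕ, bc (-1) n = (-1) ^ n := by
    have h1 : ∀ n : ℕ, ∀ κ : ℝ, (κ - n) * bc κ n = ((n : ℝ) + 1) * bc κ (n + 1) := by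
      intro n
      induction n with
      | zero => intro κ; simp [bc]
      | succ n ih =>
        intro κ
        have h2 := ih (κ - 1)
        have h3 := bc_succ κ n
        have h4 := bc_succ κ (n + 1)
        rw [h4]
        have h5 : ((n : ℝ) + 1) ≠ 0 := by positivity
        apply mul_left_cancel₀ h5
        have e1 : ((n : ℝ) + 1) * ((κ - (n + 1 : ℕ)) * bc κ (n + 1)) =
            (κ - 1 - n) * (((n : ℝ) + 1) * bc κ (n + 1)) := by push_cast; ring
        rw [e1, h3]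
        linear_combination κ * h2
    intro n
    induction n with
    | zero => simp [bc]
    | succ n ih =>
      have h2 := h1 n (-1)
      rw [ih] at h2
      have h5 : ((n : ℝ) + 1) ≠ 0 := by positivity
      apply mul_left_cancel₀ h5
      rw [← h2]
      ring
  -- the polynomial
  set Q : ℝ[X] := C (Real.log a) + ∑ j ∈ range k, C (bc (-1) j * (a : ℝ) ^ (-1 - (j : ℝ)) / (j + 1)) * X ^ (j + 1)
    with hQ
  refine ⟨Q, ?_, ?_, fun t => ?_⟩
  · rw [hQ]
    refine (natDegree_add_le _ _).trans (max_le (by simp) ?_)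
    apply natDegree_sum_le_of_forall_le
    intro j hj
    refine (natDegree_C_mul_X_pow_le _ _).trans ?_
    rw [mem_range] at hj
    omega
  · have hc : Q.coeff k = bc (-1) (k - 1) * (a : ℝ) ^ (-1 - ((k - 1 : ℕ) : ℝ)) / ((k - 1 : ℕ) + 1) := by
      rw [hQ, coeff_add, coeff_C, if_neg (by omega), zero_add, finset_sum_coeff]
      simp only [coeff_C_mul, coeff_X_pow]
      rw [sum_eq_single (k - 1)]
      · rw [if_pos (by omega), mul_one]
      · intro j _ hj
        rw [if_neg (by omega), mul_zero]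
      · intro h
        exact absurd (mem_range.2 (by omega)) h
    have hk' : ((k - 1 : ℕ) : ℝ) + 1 = k := by
      have : ((k - 1 : ℕ) : ℝ) + 1 = ((k - 1 + 1 : ℕ) : ℝ) := by push_cast; ring
      rw [this]; congr 1; omega
    have hfac : (k.factorial : ℝ) = k * ((k - 1).factorial : ℕ) := by
      have : k.factorial = k * (k - 1).factorial := (Nat.mul_factorial_pred (by omega)).symm
      rw [this]; push_cast; ring
    have hkR : (0 : ℝ) < k := by exact_mod_cast hk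
    rw [hc, hbc, hk', hfac]
    have e : (-1 - ((k - 1 : ℕ) : ℝ)) = 0 - (k : ℝ) := by linarith
    rw [e]
    have e2 : (k : ℝ) * ((k - 1).factorial : ℕ) * ((-1) ^ (k - 1) * (a : ℝ) ^ (0 - (k : ℝ)) / k) =
        (-1) ^ (k - 1) * ((((k - 1).factorial : ℕ) : ℝ) * (a : ℝ) ^ (0 - (k : ℝ))) := by
      field_simp
    rw [e2, abs_mul, abs_pow, abs_neg, abs_one, one_pow, one_mul, abs_of_nonneg (by positivity)]
  · have hQe : ∀ s : ℝ, Q.eval s = Real.log a + ∑ j ∈ range k, bc (-1) j * (a : ℝ) ^ (-1 - (j : ℝ)) / (j + 1) * s ^ (j + 1) := by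
      intro s
      rw [hQ, eval_add, eval_C, eval_finset_sum]
      simp
    have hd : ∀ s : ℝ, HasDerivAt (fun s : ℝ => Q.eval s) (TP (-1) a k s) s := by
      intro s
      have e : (fun s : ℝ => Q.eval s) = fun s : ℝ => Real.log a +
          ∑ j ∈ range k, bc (-1) j * (a : ℝ) ^ (-1 - (j : ℝ)) / (j + 1) * s ^ (j + 1) := funext hQe
      rw [e]
      have h1 : HasDerivAt (fun s : ℝ => ∑ j ∈ range k, bc (-1) j * (a : ℝ) ^ (-1 - (j : ℝ)) / (j + 1) * s ^ (j + 1))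
          (∑ j ∈ range k, bc (-1) j * (a : ℝ) ^ (-1 - (j : ℝ)) * s ^ j) s := by
        apply HasDerivAt.fun_sum
        intro j _
        have h2 := (hasDerivAt_pow (j + 1) s).const_mul (bc (-1) j * (a : ℝ) ^ (-1 - (j : ℝ)) / (j + 1))
        refine h2.congr_deriv ?_
        rw [Nat.add_sub_cancel]
        push_cast
        have : ((j : ℝ) + 1) ≠ 0 := by positivity
        field_simp
      have h3 := h1.const_add (Real.log a)
      exact h3
    have hl : ∀ s : ℝ, 0 ≤ s → HasDerivAt (fun s : ℝ => Real.log (a + s)) ((a + s) ^ (-1 : ℝ)) s := by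
      intro s hs
      have h1 : HasDerivAt (fun s : ℝ => (a : ℝ) + s) 1 s := by simpa using (hasDerivAt_id s).const_add (a : ℝ)
      have h2 := h1.log (by positivity)
      refine h2.congr_deriv ?_
      rw [Real.rpow_neg_one, one_div]
    have key := image_norm_le_of_norm_deriv_right_le_deriv_boundary
      (f := fun s : ℝ => Real.log (a + s) - Q.eval s)
      (f' := fun s : ℝ => (a + s) ^ (-1 : ℝ) - TP (-1) a k s) (a := 0) (b := (t : ℝ))
      (B := fun s : ℝ => (a : ℝ) ^ (0 - ((k + 1 : ℕ) : ℝ)) * s ^ (k + 1))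
      (B' := fun s : ℝ => (a : ℝ) ^ (0 - ((k + 1 : ℕ) : ℝ)) * ((k + 1 : ℕ) * s ^ k))
      (fun s hs => ((hl s hs.1).sub (hd s)).continuousAt.continuousWithinAt)
      (fun s hs => ((hl s hs.1).sub (hd s)).hasDerivWithinAt)
      (by
        show ‖Real.log (a + 0) - Q.eval 0‖ ≤ (a : ℝ) ^ (0 - ((k + 1 : ℕ) : ℝ)) * 0 ^ (k + 1)
        rw [hQe, add_zero]
        simp)
      (fun s => by
        have h4 := (hasDerivAt_pow (k + 1) s).const_mul ((a : ℝ) ^ (0 - ((k + 1 : ℕ) : ℝ)))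
        refine h4.congr_deriv ?_
        rw [Nat.add_sub_cancel])
      (fun s hs => by
        have h5 := taylor_pow ha0 k (-1) (by have : (0 : ℝ) ≤ k := Nat.cast_nonneg _
                                             linarith) s hs.1
        rw [Real.norm_eq_abs]
        refine h5.trans ?_
        rw [hbc, abs_pow, abs_neg, abs_one, one_pow, one_mul]
        have e : (-1 : ℝ) - k = 0 - ((k + 1 : ℕ) : ℝ) := by push_cast; ring
        rw [e]
        apply mul_le_mul_of_nonneg_left _ (by positivity)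
        have h6 : (1 : ℝ) ≤ ((k + 1 : ℕ) : ℝ) := by push_cast; have : (0 : ℝ) ≤ k := Nat.cast_nonneg _
                                                    linarith
        have h7 : 0 ≤ s ^ k := pow_nonneg hs.1 _
        nlinarith)
    have := key (x := (t : ℝ)) ⟨Nat.cast_nonneg _, le_rfl⟩
    rw [Real.norm_eq_abs] at this
    rw [one_mul]
    push_cast at this ⊢
    exact this

open Polynomial in
/-- blocks -/
lemma block_gen {k : ℕ} {cI mI : ℕ} (hcI : 1 ≤ cI)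
    (hI : ∀ (N : ℕ) (u α : ℝ) (φ : ℕ → ℝ), 1 ≤ N → 1 ≤ u → Ph k α φ →
      (N : ℝ) ≤ u * ‖∑ n ∈ range N, ee (φ n)‖ →
      ∃ q : ℕ, 1 ≤ q ∧ (q : ℝ) ≤ cI * u ^ mI ∧ ∃ a : ℤ, |q * α - a| ≤ cI * u ^ mI / (N : ℝ) ^ k)
    {g : ℝ → ℝ} {κ K1 K2 : ℝ} (hg : Tay g κ k K1 K2) (hK2 : 0 ≤ K2)
    (P : ℝ[X]) (hP : P.natDegree < k) {L : ℕ} (hL : 1 ≤ L)
    {u : ℝ} (hu : 1 ≤ u) (A : ℝ) {a : ℕ} (ha : 1 ≤ a)
    (h1 : cI * u ^ mI * (K1 * (|A| * (a : ℝ) ^ (κ - k))) < 1 / 2)
    (h2 : cI * u ^ mI < K1 * (|A| * (a : ℝ) ^ (κ - k)) * (L : ℝ) ^ k)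
    {ε : ℝ} (h3 : K2 * (|A| * (a : ℝ) ^ (κ - (k + 1 : ℕ)) * (L : ℝ) ^ (k + 1)) ≤ ε) :
    ‖∑ t ∈ range L, ee (A * g ((a + t : ℕ) : ℝ) + P.eval ((a + t : ℕ) : ℝ))‖ ≤
      L * (1 / u + 2 * Real.pi * ε) := by
  have ha0 : (0 : ℝ) < a := by exact_mod_cast ha
  obtain ⟨T, hT1, hT2, hT3⟩ := hg a ha
  set Q : ℝ[X] := C A * T + taylor (a : ℝ) P with hQ
  have hPd : (taylor (a : ℝ) P).natDegree < k := by rw [natDegree_taylor]; exact hP
  have hQd : Q.natDegree ≤ k := by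
    rw [hQ]
    refine (natDegree_add_le _ _).trans (max_le ?_ hPd.le)
    exact (natDegree_C_mul_le _ _).trans hT1
  have hQc : Q.coeff k = A * T.coeff k := by
    rw [hQ, coeff_add, coeff_C_mul, coeff_eq_zero_of_natDegree_lt hPd, add_zero]
  have hQa : |(k.factorial : ℝ) * Q.coeff k| = K1 * (|A| * (a : ℝ) ^ (κ - k)) := by
    rw [hQc]
    have e : (k.factorial : ℝ) * (A * T.coeff k) = A * ((k.factorial : ℝ) * T.coeff k) := by ring
    rw [e, abs_mul, hT2]; ring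
  refine block_pert hcI hI Q hQd hL hu (by rw [hQa]; exact h1) (by rw [hQa]; exact h2) _ ?_
  intro n hn
  have hn0 : (0 : ℝ) ≤ n := Nat.cast_nonneg _
  have e1 : Q.eval (n : ℝ) = A * T.eval (n : ℝ) + P.eval ((a + n : ℕ) : ℝ) := by
    rw [hQ, eval_add, eval_mul, eval_C, taylor_eval]
    push_cast
    rw [add_comm (n : ℝ) (a : ℝ)]
  rw [e1]
  have e2 : A * g ((a + n : ℕ) : ℝ) + P.eval ((a + n : ℕ) : ℝ) -
      (A * T.eval (n : ℝ) + P.eval ((a + n : ℕ) : ℝ)) = A * (g ((a + n : ℕ) : ℝ) - T.eval (n : ℝ)) := by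
    ring
  rw [e2, abs_mul]
  calc |A| * |g ((a + n : ℕ) : ℝ) - T.eval (n : ℝ)| ≤
        |A| * (K2 * (a : ℝ) ^ (κ - (k + 1 : ℕ)) * (n : ℝ) ^ (k + 1)) :=
        mul_le_mul_of_nonneg_left (hT3 n) (abs_nonneg _)
    _ ≤ |A| * (K2 * (a : ℝ) ^ (κ - (k + 1 : ℕ)) * (L : ℝ) ^ (k + 1)) := by
        have h5 : (n : ℝ) ≤ L := by exact_mod_cast hn.le
        gcongr
    _ = K2 * (|A| * (a : ℝ) ^ (κ - (k + 1 : ℕ)) * (L : ℝ) ^ (k + 1)) := by ring
    _ ≤ ε := h3

open Polynomial in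
theorem full_gen (κ K1 K2 : ℝ) (hK10 : 0 < K1) (hK20 : 0 ≤ K2) (k : ℕ) (hk : κ ≤ k) (hk1 : 1 ≤ k)
    (δ₀ : ℝ) (hδ₀ : 0 < δ₀) (hδ₁ : δ₀ ≤ 1) :
    ∃ γ : ℝ, 0 < γ ∧ ∃ M0 : ℕ, ∀ M : ℕ, M0 ≤ M → ∀ g : ℝ → ℝ, Tay g κ k K1 K2 → ∀ A : ℝ,
      (M : ℝ) ^ δ₀ ≤ |A| * (M : ℝ) ^ κ → |A| * (M : ℝ) ^ κ ≤ (M : ℝ) ^ ((k : ℝ) - 1) →
      ∀ P : ℝ[X], P.natDegree < k →
      ‖∑ m ∈ range M, ee (A * g (m : ℝ) + P.eval (m : ℝ))‖ ≤ (M : ℝ) ^ (1 - γ) := by
  obtain ⟨cI, mI, hcI, hI⟩ := IW_all k hk1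
  have hkR : (1 : ℝ) ≤ k := by exact_mod_cast hk1
  have hcI1 : (1 : ℝ) ≤ cI := by exact_mod_cast hcI
  set τ : ℝ := 1 / (2 * k + 1) with hτ
  have hτ0 : 0 < τ := by positivity
  have hτk : (2 * k + 1) * τ = 1 := by rw [hτ]; field_simp
  have hτ3 : τ ≤ 1 / 3 := by nlinarith
  set w : ℝ := k + 1 + |κ| with hw
  have hw0 : 0 < w := by positivity
  have hw1 : 1 ≤ w := by have := abs_nonneg κ; linarith
  set δ : ℝ := δ₀ * τ / (4 * w) with hδ
  have hδ0 : 0 < δ := by positivity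
  have hδw : δ * w = δ₀ * τ / 4 := by rw [hδ]; field_simp
  set γ : ℝ := δ / (mI + 1) with hγ
  have hγ0 : 0 < γ := by positivity
  have hγm : γ * (mI + 1) = δ := by rw [hγ]; field_simp
  have hmI0 : (0 : ℝ) ≤ mI := Nat.cast_nonneg _
  have hγδ : γ ≤ δ := by nlinarith
  have hγmI : γ * mI ≤ δ := by nlinarith
  have hκτ : δ₀ * τ ≤ 1 / 3 := by nlinarith
  have hδκ : δ ≤ δ₀ * τ / 4 := by nlinarith
  have hκτ0 : 0 < δ₀ * τ := by positivity
  -- large M
  have T : ∀ {p : ℝ}, 0 < p → Tendsto (fun M : ℕ => (M : ℝ) ^ p) atTop atTop := fun hp =>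
    (tendsto_rpow_atTop hp).comp tendsto_natCast_atTop_atTop
  obtain ⟨M0, hM0⟩ := eventually_atTop.1 (((T (by positivity : 0 < 3 * τ)).eventually_ge_atTop 2).and
    (((T (by norm_num : (0 : ℝ) < 1 / 2)).eventually_gt_atTop (2 * (cI * K1))).and
    (((T (by positivity : 0 < δ₀ * τ / 4)).eventually_gt_atTop (cI * 2 ^ k / K1)).and
    (((T (by positivity : 0 < γ / 2)).eventually_ge_atTop (4 + 2 * Real.pi * K2)).and
      (eventually_ge_atTop 1)))))
  refine ⟨γ / 2, by positivity, M0, fun M hM g hg A hA1 hA2 P hP => ?_⟩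
  obtain ⟨g1, g2, g3, g4, g5⟩ := hM0 M hM
  set X : ℝ := (M : ℝ) with hX
  have hX1 : (1 : ℝ) ≤ X := by rw [hX]; exact_mod_cast g5
  have hX0 : 0 < X := by linarith
  have mono : ∀ {x y : ℝ}, x ≤ y → X ^ x ≤ X ^ y := fun h => Real.rpow_le_rpow_of_exponent_le hX1 h
  have padd : ∀ x y : ℝ, X ^ x * X ^ y = X ^ (x + y) := fun x y => (Real.rpow_add hX0 x y).symm
  have ppos : ∀ x : ℝ, 0 < X ^ x := fun x => Real.rpow_pos_of_pos hX0 x
  set F : ℝ := |A| * X ^ κ with hF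
  have hF0 : 0 < F := lt_of_lt_of_le (ppos _) hA1
  set G : ℝ := F ^ τ with hG
  have hG0 : 0 < G := Real.rpow_pos_of_pos hF0 _
  have hGF : G ^ (2 * k + 1) = F := by
    rw [hG, ← Real.rpow_natCast, ← Real.rpow_mul hF0.le]
    push_cast
    rw [mul_comm τ, hτk, Real.rpow_one]
  have hG1 : X ^ (δ₀ * τ / 2) ≤ G := by
    have : (X ^ δ₀) ^ τ ≤ G := Real.rpow_le_rpow (ppos _).le hA1 hτ0.le
    rw [← Real.rpow_mul hX0.le] at this
    exact (mono (by linarith)).trans this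
  have hG2 : G ^ 2 ≤ X ^ (1 - 3 * τ) := by
    have : G ≤ (X ^ ((k : ℝ) - 1)) ^ τ := Real.rpow_le_rpow hF0.le hA2 hτ0.le
    rw [← Real.rpow_mul hX0.le] at this
    calc G ^ 2 ≤ (X ^ (((k : ℝ) - 1) * τ)) ^ 2 := pow_le_pow_left₀ hG0.le this 2
      _ = X ^ (1 - 3 * τ) := by
          rw [← Real.rpow_natCast, ← Real.rpow_mul hX0.le]
          congr 1
          push_cast
          linarith
  set Λ : ℝ := X / G ^ 2 with hΛ
  have hΛ0 : 0 < Λ := by positivity
  have hΛ2 : 2 ≤ Λ := by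
    rw [hΛ, le_div_iff₀ (by positivity)]
    calc 2 * G ^ 2 ≤ X ^ (3 * τ) * X ^ (1 - 3 * τ) :=
          mul_le_mul g1 hG2 (by positivity) (ppos _).le
      _ = X := by rw [padd]; ring_nf; rw [Real.rpow_one]
  set L : ℕ := ⌊Λ⌋₊ with hL
  have hL1 : (L : ℝ) ≤ Λ := Nat.floor_le hΛ0.le
  have hL2 : Λ / 2 ≤ L := by
    have := Nat.lt_floor_add_one Λ
    rw [← hL] at this
    linarith
  have hL3 : 1 ≤ L := by
    have : (1 : ℝ) ≤ L := by linarith
    exact_mod_cast this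
  set u : ℝ := X ^ γ with hu
  have hu1 : 1 ≤ u := Real.one_le_rpow hX1 hγ0.le
  have hu0 : 0 < u := by linarith
  have hum : u ^ mI ≤ X ^ δ := by
    rw [hu, ← Real.rpow_natCast, ← Real.rpow_mul hX0.le]
    exact mono hγmI
  set D : ℝ := X ^ δ with hD
  have hD1 : 1 ≤ D := Real.one_le_rpow hX1 hδ0.le
  have hD0 : 0 < D := by linarith
  set E : ℝ := X ^ (δ₀ * τ / 4) with hE
  have hE0 : 0 < E := ppos _
  have hDE : ∀ p : ℝ, p ≤ w → D ^ p ≤ E := by
    intro p hp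
    rw [hD, hE, ← Real.rpow_mul hX0.le]
    apply mono
    rw [← hδw]
    exact mul_le_mul_of_nonneg_left hp hδ0.le
  set ε : ℝ := K2 * (E / G) with hε
  have hε0 : 0 ≤ ε := by positivity
  have hε1 : ε ≤ K2 * X ^ (-γ) := by
    apply mul_le_mul_of_nonneg_left _ hK20
    rw [div_le_iff₀ hG0, hE]
    calc X ^ (δ₀ * τ / 4) ≤ X ^ (-γ + δ₀ * τ / 2) := mono (by linarith)
      _ = X ^ (-γ) * X ^ (δ₀ * τ / 2) := (padd _ _).symm
      _ ≤ X ^ (-γ) * G := mul_le_mul_of_nonneg_left hG1 (ppos _).le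
  set m0 : ℕ := ⌈X / D⌉₊ with hm0
  have hblock : ∀ a, m0 ≤ a → a ≤ M →
      ‖∑ t ∈ range L, ee (A * g ((a + t : ℕ) : ℝ) + P.eval ((a + t : ℕ) : ℝ))‖ ≤
        L * (1 / u + 2 * Real.pi * ε) := by
    intro a ha haM
    have ha1 : X / D ≤ a := (Nat.le_ceil _).trans (by exact_mod_cast ha)
    have hXD : 0 < X / D := by positivity
    have ha0 : (0 : ℝ) < a := by linarith
    have ha2 : 1 ≤ a := by exact_mod_cast ha0
    have ha3 : (a : ℝ) ≤ X := by rw [hX]; exact_mod_cast haM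
    have hAX : |A| = F * X ^ (-κ) := by
      rw [hF, mul_assoc, padd]; simp
    have hκw : -|κ| ≤ κ := neg_abs_le κ
    -- bounds for powers of a
    have up : ∀ j : ℕ, κ ≤ j → j ≤ k + 1 → |A| * (a : ℝ) ^ (κ - j) ≤ F * E / X ^ j := by
      intro j hj hjk
      have hjk' : (j : ℝ) ≤ k + 1 := by exact_mod_cast hjk
      have h1 : (a : ℝ) ^ (κ - j) ≤ (X / D) ^ (κ - j) :=
        Real.rpow_le_rpow_of_nonpos hXD ha1 (by linarith)
      have h2 : (X / D) ^ (κ - j) = X ^ (κ - j) * D ^ (j - κ) := by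
        rw [Real.div_rpow hX0.le hD0.le, div_eq_mul_inv, ← Real.rpow_neg hD0.le]
        congr 2; ring
      have h3 : D ^ (j - κ) ≤ E := hDE _ (by linarith)
      rw [hAX]
      calc F * X ^ (-κ) * (a : ℝ) ^ (κ - j) ≤ F * X ^ (-κ) * (X ^ (κ - j) * E) := by
            apply mul_le_mul_of_nonneg_left _ (by positivity)
            refine h1.trans ?_
            rw [h2]
            exact mul_le_mul_of_nonneg_left h3 (ppos _).le
        _ = F * E * (X ^ (-κ) * X ^ (κ - j)) := by ring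
        _ = F * E / X ^ j := by
            rw [padd, div_eq_mul_inv]
            congr 1
            rw [← Real.rpow_natCast, ← Real.rpow_neg hX0.le]
            congr 1; ring
    have low : F / X ^ k ≤ |A| * (a : ℝ) ^ (κ - k) := by
      have h1 : X ^ (κ - k) ≤ (a : ℝ) ^ (κ - k) :=
        Real.rpow_le_rpow_of_nonpos ha0 ha3 (by linarith)
      rw [hAX]
      calc F / X ^ k = F * (X ^ (-κ) * X ^ (κ - k)) := by
            rw [padd, div_eq_mul_inv]
            congr 1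
            rw [← Real.rpow_natCast, ← Real.rpow_neg hX0.le]
            congr 1; ring
        _ = F * X ^ (-κ) * X ^ (κ - k) := by ring
        _ ≤ _ := mul_le_mul_of_nonneg_left h1 (by positivity)
    apply block_gen hcI hI hg hK20 P hP hL3 hu1 A ha2
    · -- not too large
      have h1 := up k hk (by omega)
      have h2 : F * E / X ^ k ≤ X ^ (-(1 : ℝ)) * E := by
        rw [div_le_iff₀ (by positivity)]
        have h3 : X ^ (-(1 : ℝ)) * E * X ^ k = X ^ ((k : ℝ) - 1) * E := by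
          have h4 : X ^ k = X ^ (k : ℝ) := (Real.rpow_natCast _ _).symm
          rw [h4, mul_right_comm, padd]
          congr 2; ring
        rw [h3]
        exact mul_le_mul_of_nonneg_right hA2 (by positivity)
      have h6 : cI * u ^ mI * (K1 * (|A| * (a : ℝ) ^ (κ - k))) ≤ cI * K1 * X ^ (-(1 / 2 : ℝ)) := by
        calc cI * u ^ mI * (K1 * (|A| * (a : ℝ) ^ (κ - k))) ≤
              cI * u ^ mI * (K1 * (X ^ (-(1 : ℝ)) * E)) := by
              apply mul_le_mul_of_nonneg_left _ (by positivity)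
              exact mul_le_mul_of_nonneg_left (h1.trans h2) hK10.le
          _ = cI * K1 * (X ^ (-(1 : ℝ)) * (u ^ mI * E)) := by ring
          _ ≤ cI * K1 * (X ^ (-(1 : ℝ)) * (X ^ δ * E)) := by
              apply mul_le_mul_of_nonneg_left _ (by positivity)
              apply mul_le_mul_of_nonneg_left _ (ppos _).le
              exact mul_le_mul_of_nonneg_right hum hE0.le
          _ ≤ _ := by
              apply mul_le_mul_of_nonneg_left _ (by positivity)
              rw [hE, padd, padd]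
              exact mono (by linarith)
      refine lt_of_le_of_lt h6 ?_
      have h7 : X ^ (-(1 / 2 : ℝ)) * X ^ (1 / 2 : ℝ) = 1 := by
        rw [padd]; simp
      have h8 : 0 < X ^ (-(1 / 2 : ℝ)) := ppos _
      nlinarith [mul_lt_mul_of_pos_left g2 h8]
    · -- not too small
      have h1 : (Λ / 2) ^ k ≤ (L : ℝ) ^ k := pow_le_pow_left₀ (by positivity) hL2 k
      have h2 : F / X ^ k * (Λ / 2) ^ k = G / 2 ^ k := by
        rw [hΛ, ← hGF, div_pow, div_pow]
        field_simp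
        ring
      calc cI * u ^ mI ≤ cI * X ^ (δ₀ * τ / 4) := by
            apply mul_le_mul_of_nonneg_left _ (by positivity)
            exact hum.trans (mono hδκ)
        _ < K1 / 2 ^ k * X ^ (δ₀ * τ / 4) * X ^ (δ₀ * τ / 4) := by
            apply mul_lt_mul_of_pos_right _ (ppos _)
            rw [div_lt_iff₀ hK10] at g3
            rw [div_mul_eq_mul_div, lt_div_iff₀ (by positivity)]
            linarith
        _ = K1 / 2 ^ k * X ^ (δ₀ * τ / 2) := by
            rw [mul_assoc, padd]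
            congr 2; ring
        _ ≤ K1 / 2 ^ k * G := mul_le_mul_of_nonneg_left hG1 (by positivity)
        _ = K1 * (F / X ^ k) * (Λ / 2) ^ k := by
            rw [mul_assoc, h2]; ring
        _ ≤ K1 * (|A| * (a : ℝ) ^ (κ - k)) * (L : ℝ) ^ k := by
            apply mul_le_mul _ h1 (by positivity) (by positivity)
            exact mul_le_mul_of_nonneg_left low hK10.le
    · -- remainder
      rw [hε]
      apply mul_le_mul_of_nonneg_left _ hK20
      have h1 := up (k + 1) (by push_cast; linarith) le_rfl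
      calc |A| * (a : ℝ) ^ (κ - (k + 1 : ℕ)) * (L : ℝ) ^ (k + 1) ≤
            F * E / X ^ (k + 1) * Λ ^ (k + 1) := by
            apply mul_le_mul h1 _ (by positivity) (by positivity)
            exact pow_le_pow_left₀ (Nat.cast_nonneg _) hL1 _
        _ = E / G := by
            rw [hΛ, ← hGF, div_pow]
            field_simp
            ring
  have hall := blocks (fun m : ℕ => ee (A * g (m : ℝ) + P.eval (m : ℝ))) (fun n => (norm_ee _).le)
    (M := M) (m0 := m0) hL3 (θ := 1 / u + 2 * Real.pi * ε) (by positivity) hblock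
  refine hall.trans ?_
  have f1 : (m0 : ℝ) ≤ X ^ (1 - γ) + X ^ (1 - γ) := by
    have h1 : (m0 : ℝ) ≤ X / D + 1 := (Nat.ceil_lt_add_one (by positivity)).le
    have h2 : X / D ≤ X ^ (1 - γ) := by
      rw [div_le_iff₀ hD0, hD, padd]
      calc X = X ^ (1 : ℝ) := (Real.rpow_one _).symm
        _ ≤ _ := mono (by linarith)
    have h3 : (1 : ℝ) ≤ X ^ (1 - γ) := Real.one_le_rpow hX1 (by linarith)
    linarith
  have f2 : X * (1 / u + 2 * Real.pi * ε) ≤ (1 + 2 * Real.pi * K2) * X ^ (1 - γ) := by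
    have h1 : 1 / u = X ^ (-γ) := by rw [hu, Real.rpow_neg hX0.le, one_div]
    have h2 : X * X ^ (-γ) = X ^ (1 - γ) := by
      rw [sub_eq_add_neg, Real.rpow_add hX0, Real.rpow_one]
    have h3 : 2 * Real.pi * ε ≤ 2 * Real.pi * (K2 * X ^ (-γ)) :=
      mul_le_mul_of_nonneg_left hε1 (by positivity)
    rw [h1]
    calc X * (X ^ (-γ) + 2 * Real.pi * ε) ≤ X * (X ^ (-γ) + 2 * Real.pi * (K2 * X ^ (-γ))) := by
          apply mul_le_mul_of_nonneg_left _ hX0.le
          linarith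
      _ = (1 + 2 * Real.pi * K2) * (X * X ^ (-γ)) := by ring
      _ = _ := by rw [h2]
  have f3 : (L : ℝ) ≤ X ^ (1 - γ) := by
    refine hL1.trans ?_
    rw [hΛ, div_le_iff₀ (by positivity)]
    have h1 : X ^ γ ≤ G ^ 2 := by
      calc X ^ γ ≤ (X ^ (δ₀ * τ / 2)) ^ 2 := by
            rw [← Real.rpow_natCast, ← Real.rpow_mul hX0.le]
            exact mono (by push_cast; linarith)
        _ ≤ G ^ 2 := pow_le_pow_left₀ (ppos _).le hG1 2
    calc X = X ^ (1 - γ) * X ^ γ := by rw [padd]; ring_nf; rw [Real.rpow_one]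
      _ ≤ _ := mul_le_mul_of_nonneg_left h1 (ppos _).le
  calc (m0 : ℝ) + X * (1 / u + 2 * Real.pi * ε) + L ≤ (4 + 2 * Real.pi * K2) * X ^ (1 - γ) := by linarith
    _ ≤ X ^ (γ / 2) * X ^ (1 - γ) := mul_le_mul_of_nonneg_right g4 (ppos _).le
    _ = X ^ (1 - γ / 2) := by rw [padd]; congr 1; ring

end Pool.Agent.W301.RM
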