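import Pool.Agent.W301.RM.Gen
import Pool.Agent.W301.RM.Roots

/-! Digits of `ξ g(m) + P(m)`. -/

set_option autoImplicit false

namespace Pool.Agent.W301.RM
open Finset Filter Topology
open Pool.Agent.Helper602.MK (ee)

open Polynomial in
/-- exponential sums -/
theorem small_gen (b : ℕ) (hb : 2 ≤ b) (g : ℝ → ℝ) (κ : ℝ)
    (hT : ∀ k : ℕ, κ ≤ k → 1 ≤ k → ∃ K1 K2 : ℝ, 0 < K1 ∧ 0 ≤ K2 ∧ Tay g κ k K1 K2)
    (D s : ℕ) (hs : 1 ≤ s) (δ₀ η C₀ : ℝ) (hδ₀ : 0 < δ₀) (hδ₁ : δ₀ ≤ 1) (hη : 0 < η) (hC₀ : 0 ≤ C₀) :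
    ∃ γ : ℝ, 0 < γ ∧ ∃ N0 : ℕ, ∀ N : ℕ, N0 ≤ N → ∀ M : ℕ, (b : ℝ) ^ (η * N) ≤ M →
      ∀ ξ : ℝ, (M : ℝ) ^ δ₀ ≤ |ξ| * (M : ℝ) ^ κ → |ξ| ≤ (M : ℝ) ^ C₀ →
      ∀ P : ℝ[X], P.natDegree ≤ D → ∀ n : Fin s → ℕ, (∀ j, n j ≤ N) → ∀ R : ℕ, 1 ≤ R →
      (R : ℝ) ≤ (b : ℝ) ^ (N : ℝ) →
      Small (range M) (fun m => ξ * g (m : ℝ) + P.eval (m : ℝ)) b s n R ((b : ℝ) ^ (-(γ * N))) := by
  have hbR : (2 : ℝ) ≤ b := by exact_mod_cast hb
  have hb0 : (0 : ℝ) < b := by linarith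
  have hb1 : (1 : ℝ) < b := by linarith
  have hs1 : (1 : ℝ) ≤ s := by exact_mod_cast hs
  set k : ℕ := max (D + 1) ⌈2 / η + |κ| + C₀ + 2⌉₊ with hk
  have hkD : D < k := by
    have := le_max_left (D + 1) ⌈2 / η + |κ| + C₀ + 2⌉₊
    rw [← hk] at this
    omega
  have hkη' : 2 / η + |κ| + C₀ + 2 ≤ k := (Nat.le_ceil _).trans (by exact_mod_cast le_max_right _ _)
  have hκκ := le_abs_self κ
  have hκκ0 := abs_nonneg κ
  have hη2 : 0 < 2 / η := by positivity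
  have hk1 : 1 ≤ k := by omega
  obtain ⟨K1, K2, hK1, hK2, hTay⟩ := hT k (by linarith) hk1
  obtain ⟨γ, hγ, M0, hfull⟩ := full_gen κ K1 K2 hK1 hK2 k (by linarith) hk1 δ₀ hδ₀ hδ₁
  -- large N
  have hb1' : 1 < (b : ℝ) ^ η := Real.one_lt_rpow hb1 hη
  have T : Tendsto (fun N : ℕ => ((b : ℝ) ^ η) ^ N) atTop atTop := tendsto_pow_atTop_atTop_of_one_lt hb1'
  obtain ⟨N0, hN0⟩ := eventually_atTop.1 ((T.eventually_ge_atTop (M0 : ℝ)).and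
    ((T.eventually_ge_atTop (s : ℝ)).and (T.eventually_ge_atTop 1)))
  refine ⟨γ * η, by positivity, N0, fun N hN M hM ξ hξ1 hξ2 P hP n hn R hR1 hR lam hlam hne => ?_⟩
  obtain ⟨g1, g3, g4⟩ := hN0 N hN
  have hbη : ((b : ℝ) ^ η) ^ N = (b : ℝ) ^ (η * N) := by
    rw [← Real.rpow_natCast, ← Real.rpow_mul hb0.le]
  rw [hbη] at g1 g3 g4
  set X : ℝ := (M : ℝ) with hX
  have hX1 : 1 ≤ X := g4.trans hM
  have hX0 : 0 < X := by linarith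
  set H : ℤ := ∑ j, lam j * (b : ℤ) ^ (n j) with hH
  have hH1 : (1 : ℝ) ≤ |(H : ℝ)| := by
    have := Int.one_le_abs hne
    exact_mod_cast this
  have hH2 : |(H : ℝ)| ≤ s * (b : ℝ) ^ (2 * (N : ℝ)) := by
    have h1 : |(H : ℝ)| ≤ ∑ j : Fin s, (b : ℝ) ^ (2 * (N : ℝ)) := by
      rw [hH]
      push_cast
      refine (abs_sum_le_sum_abs _ _).trans (sum_le_sum fun j _ => ?_)
      rw [abs_mul, abs_of_nonneg (by positivity : (0 : ℝ) ≤ (b : ℝ) ^ (n j)), two_mul,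
        Real.rpow_add hb0]
      apply mul_le_mul _ _ (by positivity) (by positivity)
      · refine le_trans ?_ hR
        have := (hlam j).le
        exact_mod_cast this
      · rw [Real.rpow_natCast]
        exact pow_le_pow_right₀ hb1.le (hn j)
    refine h1.trans (le_of_eq ?_)
    rw [sum_const, card_univ, Fintype.card_fin, nsmul_eq_mul]
  have hA : |(H : ℝ) * ξ| = |(H : ℝ)| * |ξ| := abs_mul _ _
  have hXκ : 0 < X ^ κ := Real.rpow_pos_of_pos hX0 _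
  -- lower bound
  have hl : X ^ δ₀ ≤ |(H : ℝ) * ξ| * X ^ κ := by
    rw [hA]
    refine hξ1.trans ?_
    have : 0 ≤ |ξ| * X ^ κ := by positivity
    nlinarith
  -- upper bound
  have hu : |(H : ℝ) * ξ| * X ^ κ ≤ X ^ ((k : ℝ) - 1) := by
    have h1 : (b : ℝ) ^ (2 * (N : ℝ)) ≤ X ^ (2 / η) := by
      calc (b : ℝ) ^ (2 * (N : ℝ)) = ((b : ℝ) ^ (η * N)) ^ (2 / η) := by
            rw [← Real.rpow_mul hb0.le]; congr 1; field_simp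
        _ ≤ _ := Real.rpow_le_rpow (by positivity) hM hη2.le
    have h2 : (s : ℝ) ≤ X := g3.trans hM
    rw [hA]
    calc |(H : ℝ)| * |ξ| * X ^ κ ≤ s * X ^ (2 / η) * X ^ C₀ * X ^ κ := by
          apply mul_le_mul_of_nonneg_right _ hXκ.le
          apply mul_le_mul _ hξ2 (abs_nonneg _) (by positivity)
          exact hH2.trans (mul_le_mul_of_nonneg_left h1 (by linarith))
      _ = s * (X ^ (2 / η) * (X ^ C₀ * X ^ κ)) := by ring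
      _ ≤ X ^ (1 : ℝ) * (X ^ (2 / η) * (X ^ C₀ * X ^ κ)) := by
          rw [Real.rpow_one]
          exact mul_le_mul_of_nonneg_right h2 (by positivity)
      _ = X ^ (1 + (2 / η + (C₀ + κ))) := by
          rw [← Real.rpow_add hX0, ← Real.rpow_add hX0, ← Real.rpow_add hX0]
      _ ≤ _ := Real.rpow_le_rpow_of_exponent_le hX1 (by linarith)
  have hMM0 : M0 ≤ M := by
    have : (M0 : ℝ) ≤ M := g1.trans hM
    exact_mod_cast this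
  have hf := hfull M hMM0 g hTay ((H : ℝ) * ξ) hl hu (C (H : ℝ) * P) (by
    refine lt_of_le_of_lt ((natDegree_C_mul_le _ _).trans hP) hkD)
  have e : ∑ i ∈ range M, ee ((H : ℝ) * (ξ * g (i : ℝ) + P.eval (i : ℝ))) =
      ∑ m ∈ range M, ee ((H : ℝ) * ξ * g (m : ℝ) + (C (H : ℝ) * P).eval (m : ℝ)) := by
    apply sum_congr rfl
    intro i _
    rw [eval_mul, eval_C]
    congr 1; ring
  show ‖∑ i ∈ range M, Pool.Agent.H807R2.Dav.ee ((H : ℝ) * (ξ * g (i : ℝ) + P.eval (i : ℝ)))‖ ≤ _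
  simp only [ee_ee]
  rw [e, card_range]
  refine hf.trans ?_
  rw [sub_eq_add_neg, Real.rpow_add hX0, Real.rpow_one, mul_comm]
  apply mul_le_mul_of_nonneg_right _ hX0.le
  calc X ^ (-γ) ≤ ((b : ℝ) ^ (η * N)) ^ (-γ) :=
        Real.rpow_le_rpow_of_nonpos (by positivity) hM (by linarith)
    _ = (b : ℝ) ^ (-(γ * η * N)) := by
        rw [← Real.rpow_mul hb0.le]; congr 1; ring

open Polynomial Classical in
/-- frequencies -/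
theorem freq_gen (b k : ℕ) (hb : 2 ≤ b) (hk : 1 ≤ k) (g : ℝ → ℝ) (κ : ℝ)
    (hT : ∀ k : ℕ, κ ≤ k → 1 ≤ k → ∃ K1 K2 : ℝ, 0 < K1 ∧ 0 ≤ K2 ∧ Tay g κ k K1 K2)
    (D : ℕ) (δ₀ η C₀ ε : ℝ) (hδ₀ : 0 < δ₀) (hδ₁ : δ₀ ≤ 1) (hη : 0 < η) (hC₀ : 0 ≤ C₀) (hε : 0 < ε) :
    ∃ c : ℝ, 0 < c ∧ ∃ N0 : ℕ, ∀ N : ℕ, N0 ≤ N → ∀ M : ℕ, (b : ℝ) ^ (η * N) ≤ M →
      ∀ ξ : ℝ, (M : ℝ) ^ δ₀ ≤ |ξ| * (M : ℝ) ^ κ → |ξ| ≤ (M : ℝ) ^ C₀ →
      ∀ P : ℝ[X], P.natDegree ≤ D →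
      (((range M).filter (fun m : ℕ => ¬ ∀ n ≤ N, ∀ a < b ^ k,
        |(ob b k a n (ξ * g (m : ℝ) + P.eval (m : ℝ)) : ℝ) - n / ((b ^ k : ℕ) : ℝ)| ≤ ε * N)).card : ℝ) ≤
        (b : ℝ) ^ (-(c * N)) * M := by
  have hbR : (2 : ℝ) ≤ b := by exact_mod_cast hb
  have hb0 : (0 : ℝ) < b := by linarith
  have hb1 : (1 : ℝ) < b := by linarith
  have hkR : (1 : ℝ) ≤ k := by exact_mod_cast hk
  obtain ⟨γ, hγ, N1, h1⟩ := small_gen b hb g κ hT D 1 le_rfl δ₀ (η / (2 * k)) C₀ hδ₀ hδ₁ (by positivity) hC₀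
  obtain ⟨c, hc, N2, h2⟩ := bfreq b k hb hk 1 γ (min ε 1) one_pos hγ (lt_min hε one_pos) (min_le_right _ _)
  refine ⟨c, hc, max (max N1 N2) 1, fun N hN M hM ξ hξ1 hξ2 P hP => ?_⟩
  have hN1 : N1 ≤ N := ((le_max_left _ _).trans (le_max_left _ _)).trans hN
  have hN2 : N2 ≤ N := ((le_max_right _ _).trans (le_max_left _ _)).trans hN
  have hN3 : 1 ≤ N := (le_max_right _ _).trans hN
  have hNR : (1 : ℝ) ≤ N := by exact_mod_cast hN3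
  have hM0 : 0 < M := by
    have : (0 : ℝ) < M := lt_of_lt_of_le (Real.rpow_pos_of_pos (by positivity) _) hM
    exact_mod_cast this
  set N' : ℕ := k * N + k with hN'
  have hN'R : (N' : ℝ) = k * N + k := by rw [hN']; push_cast; ring
  have hNN' : N ≤ N' := by
    have := Nat.le_mul_of_pos_left N hk
    omega
  have hM' : (b : ℝ) ^ (η / (2 * k) * (N' : ℕ)) ≤ M := by
    refine le_trans ?_ hM
    apply Real.rpow_le_rpow_of_exponent_le hb1.le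
    rw [hN'R]
    have e : η / (2 * k) * (k * N + k) = η * ((N + 1) / 2) := by field_simp
    rw [e]
    apply mul_le_mul_of_nonneg_left _ hη.le
    linarith
  have h3 := h2 N hN2 (range M) ⟨0, mem_range.2 hM0⟩
    (fun m : ℕ => ξ * g (m : ℝ) + P.eval (m : ℝ)) (fun e he R hR1 hR => by
      have h4 := h1 N' (hN1.trans hNN') M hM' ξ hξ1 hξ2 P hP (fun _ => e) (fun _ => he) R hR1 (by
        refine hR.trans ?_
        apply Real.rpow_le_rpow_of_exponent_le hb1.le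
        rw [one_mul]
        exact_mod_cast hNN')
      intro lam hlam hne
      refine (h4 lam hlam hne).trans ?_
      apply mul_le_mul_of_nonneg_right _ (Nat.cast_nonneg _)
      apply Real.rpow_le_rpow_of_exponent_le hb1.le
      have : (N : ℝ) ≤ N' := by exact_mod_cast hNN'
      nlinarith)
  rw [card_range] at h3
  refine le_trans ?_ h3
  have hsub : (range M).filter (fun m : ℕ => ¬ ∀ n ≤ N, ∀ a < b ^ k,
        |(ob b k a n (ξ * g (m : ℝ) + P.eval (m : ℝ)) : ℝ) - n / ((b ^ k : ℕ) : ℝ)| ≤ ε * N) ⊆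
      (range M).filter (fun m : ℕ => ¬ ∀ n ≤ N, ∀ a < b ^ k,
        |(ob b k a n (ξ * g (m : ℝ) + P.eval (m : ℝ)) : ℝ) - n / ((b ^ k : ℕ) : ℝ)| ≤ min ε 1 * N) := by
    intro m hm
    rw [mem_filter] at hm ⊢
    refine ⟨hm.1, fun h5 => hm.2 fun n hn a ha => (h5 n hn a ha).trans ?_⟩
    exact mul_le_mul_of_nonneg_right (min_le_left _ _) (Nat.cast_nonneg _)
  exact_mod_cast card_le_card hsub

/-- the number of occurrences of the block `a` starting at one of the places `n₀ + 1, …, n₀ + n` -/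
noncomputable def ob' (b k a n₀ n : ℕ) (y : ℝ) : ℕ :=
  ((range n).filter (fun i => ⌊(b : ℝ) ^ (n₀ + i + k) * y⌋ % (b : ℤ) ^ k = a)).card

lemma ob_shift (b k a n₀ n : ℕ) (y : ℝ) : ob b k a n ((b : ℝ) ^ n₀ * y) = ob' b k a n₀ n y := by
  unfold ob ob' wd
  congr 1
  apply filter_congr
  intro i _
  rw [← mul_assoc, ← pow_add]
  have : i + k + n₀ = n₀ + i + k := by ring
  rw [this]

open Polynomial Classical in
/-- frequencies from the place `n₀` on -/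
theorem freq_shift (b k : ℕ) (hb : 2 ≤ b) (hk : 1 ≤ k) (g : ℝ → ℝ) (κ : ℝ)
    (hT : ∀ k : ℕ, κ ≤ k → 1 ≤ k → ∃ K1 K2 : ℝ, 0 < K1 ∧ 0 ≤ K2 ∧ Tay g κ k K1 K2)
    (ξ : ℝ) (hξ : ξ ≠ 0) (δ η ε : ℝ) (hδ : 0 < δ) (hη : 0 < η) (hε : 0 < ε) :
    ∃ c : ℝ, 0 < c ∧ ∃ N0 : ℕ, ∀ N : ℕ, N0 ≤ N → ∀ M : ℕ, (b : ℝ) ^ (η * N) ≤ M →
      ∀ n₀ : ℕ, n₀ ≤ N → (M : ℝ) ^ (δ - κ) ≤ (b : ℝ) ^ n₀ → ∀ x : ℝ,
      (((range M).filter (fun m : ℕ => ¬ ∀ n ≤ N, ∀ a < b ^ k,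
        |(ob' b k a n₀ n (x + ξ * g (m : ℝ)) : ℝ) - n / ((b ^ k : ℕ) : ℝ)| ≤ ε * N)).card : ℝ) ≤
        (b : ℝ) ^ (-(c * N)) * M := by
  have hbR : (2 : ℝ) ≤ b := by exact_mod_cast hb
  have hb0 : (0 : ℝ) < b := by linarith
  have hb1 : (1 : ℝ) < b := by linarith
  have hξ0 : 0 < |ξ| := abs_pos.2 hξ
  set δ₀ : ℝ := min (δ / 2) 1 with hδ₀
  have hδ₀0 : 0 < δ₀ := lt_min (by positivity) one_pos
  have hδ₀1 : δ₀ ≤ 1 := min_le_right _ _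
  have hδ₀2 : δ₀ ≤ δ / 2 := min_le_left _ _
  have hη1 : 0 < 1 / η := by positivity
  obtain ⟨c, hc, N1, h1⟩ := freq_gen b k hb hk g κ hT 0 δ₀ η (1 / η + 1) ε hδ₀0 hδ₀1 hη (by positivity) hε
  have hb1' : 1 < (b : ℝ) ^ η := Real.one_lt_rpow hb1 hη
  have T : Tendsto (fun N : ℕ => ((b : ℝ) ^ η) ^ N) atTop atTop := tendsto_pow_atTop_atTop_of_one_lt hb1'
  have T2 : Tendsto (fun N : ℕ => (((b : ℝ) ^ η) ^ N) ^ (δ / 2)) atTop atTop :=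
    (tendsto_rpow_atTop (by positivity : 0 < δ / 2)).comp T
  obtain ⟨N2, hN2⟩ := eventually_atTop.1 ((T2.eventually_ge_atTop (1 / |ξ|)).and
    ((T.eventually_ge_atTop |ξ|).and (T.eventually_ge_atTop 1)))
  refine ⟨c, hc, max N1 N2, fun N hN M hM n₀ hn₀ hMn x => ?_⟩
  obtain ⟨g2, g3, g4⟩ := hN2 N ((le_max_right _ _).trans hN)
  have hbη : ((b : ℝ) ^ η) ^ N = (b : ℝ) ^ (η * N) := by
    rw [← Real.rpow_natCast, ← Real.rpow_mul hb0.le]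
  rw [hbη] at g2 g3 g4
  set X : ℝ := (M : ℝ) with hX
  have hX1 : 1 ≤ X := g4.trans hM
  have hX0 : 0 < X := by linarith
  have hbn : (0 : ℝ) < (b : ℝ) ^ n₀ := by positivity
  have e1 : |(b : ℝ) ^ n₀ * ξ| = (b : ℝ) ^ n₀ * |ξ| := by rw [abs_mul, abs_of_pos hbn]
  have hl : X ^ δ₀ ≤ |(b : ℝ) ^ n₀ * ξ| * X ^ κ := by
    have h2 : 1 / |ξ| ≤ X ^ (δ / 2) := g2.trans (Real.rpow_le_rpow (by positivity) hM (by positivity))
    rw [div_le_iff₀ hξ0] at h2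
    rw [e1]
    calc X ^ δ₀ ≤ X ^ (δ / 2) := Real.rpow_le_rpow_of_exponent_le hX1 hδ₀2
      _ = 1 * X ^ (δ / 2) := (one_mul _).symm
      _ ≤ (X ^ (δ / 2) * |ξ|) * X ^ (δ / 2) := mul_le_mul_of_nonneg_right h2 (by positivity)
      _ = (X ^ (δ - κ) * |ξ|) * X ^ κ := by
          have : X ^ (δ - κ) * X ^ κ = X ^ (δ / 2) * X ^ (δ / 2) := by
            rw [← Real.rpow_add hX0, ← Real.rpow_add hX0]; congr 1; ring
          linear_combination -|ξ| * this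
      _ ≤ ((b : ℝ) ^ n₀ * |ξ|) * X ^ κ := by
          apply mul_le_mul_of_nonneg_right _ (by positivity)
          exact mul_le_mul_of_nonneg_right hMn hξ0.le
  have hu : |(b : ℝ) ^ n₀ * ξ| ≤ X ^ (1 / η + 1) := by
    have h2 : (b : ℝ) ^ n₀ ≤ X ^ (1 / η) := by
      calc (b : ℝ) ^ n₀ ≤ (b : ℝ) ^ N := pow_le_pow_right₀ hb1.le hn₀
        _ = ((b : ℝ) ^ (η * N)) ^ (1 / η) := by
            rw [← Real.rpow_mul hb0.le, ← Real.rpow_natCast]; congr 1; field_simp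
        _ ≤ _ := Real.rpow_le_rpow (by positivity) hM hη1.le
    have h3 : |ξ| ≤ X := g3.trans hM
    rw [e1, Real.rpow_add hX0, Real.rpow_one]
    exact mul_le_mul h2 h3 hξ0.le (by positivity)
  have h5 := h1 N ((le_max_left _ _).trans hN) M hM ((b : ℝ) ^ n₀ * ξ) hl hu (C ((b : ℝ) ^ n₀ * x)) (by rw [natDegree_C])
  refine le_trans (le_of_eq ?_) h5
  congr 2
  apply filter_congr
  intro m _
  have e2 : (b : ℝ) ^ n₀ * ξ * g (m : ℝ) + (C ((b : ℝ) ^ n₀ * x)).eval (m : ℝ) =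
      (b : ℝ) ^ n₀ * (x + ξ * g (m : ℝ)) := by
    rw [eval_C]; ring
  rw [e2]
  simp only [ob_shift]

lemma hT_pow (κ : ℝ) (hκ : ∀ i : ℕ, κ ≠ i) :
    ∀ k : ℕ, κ ≤ k → 1 ≤ k → ∃ K1 K2 : ℝ, 0 < K1 ∧ 0 ≤ K2 ∧ Tay (fun x => x ^ κ) κ k K1 K2 := by
  intro k hk _
  refine ⟨_, _, ?_, abs_nonneg _, tay_pow κ k hk⟩
  rw [abs_pos]
  exact mul_ne_zero (by positivity) (bc_ne k κ hκ)

lemma hT_log : ∀ k : ℕ, (0 : ℝ) ≤ k → 1 ≤ k → ∃ K1 K2 : ℝ, 0 < K1 ∧ 0 ≤ K2 ∧ Tay Real.log 0 k K1 K2 := by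
  intro k _ hk
  exact ⟨_, _, by positivity, zero_le_one, tay_log k hk⟩

end Pool.Agent.W301.RM
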