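import Pool.Agent.W301.RM.Joint

/-! Windows of digits of general families of points. -/

set_option autoImplicit false

namespace Pool.Agent.W301.RM
open Finset
open Pool.Agent.H807R2.Dav Pool.Agent.W301.SS

/-- If the exponential sums of a family of points are exponentially small then disjoint windows of
digits are independent up to an exponentially small error. -/
theorem indep_gen (b : ℕ) (hb : 2 ≤ b) (s : ℕ) (hs : 1 ≤ s) (κ η : ℝ) (hκ : 0 < κ) (hη : 0 < η) :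
    ∃ c : ℝ, 0 < c ∧ ∃ N0 : ℕ, ∀ N : ℕ, N0 ≤ N → ∀ {ι : Type} (I : Finset ι), I.Nonempty →
      ∀ (y : ι → ℝ) (ℓ : ℕ), 1 ≤ ℓ → (ℓ : ℝ) ≤ c * N → ∀ n : Fin s → ℕ,
      (∀ i j, i ≠ j → n i + ℓ ≤ n j ∨ n j + ℓ ≤ n i) →
      (∀ R : ℕ, 1 ≤ R → (R : ℝ) ≤ (b : ℝ) ^ (κ * N) → Small I y b s n R ((b : ℝ) ^ (-(η * N)))) →
      ∀ A : Finset (Fin s → ℤ), A ⊆ Box b ℓ s →
      |((I.filter (fun i => tup b ℓ n (y i) ∈ A)).card : ℝ) -
        A.card / ((b ^ (s * ℓ) : ℕ) : ℝ) * I.card| ≤ (b : ℝ) ^ (-(c * N)) * I.card := by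
  have hbR : (2 : ℝ) ≤ b := by exact_mod_cast hb
  have hb0 : (0 : ℝ) < b := by linarith
  have hb1 : (1 : ℝ) ≤ b := by linarith
  have hs0 : (0 : ℝ) < s := by exact_mod_cast hs
  have hs1 : (1 : ℝ) ≤ s := by exact_mod_cast hs
  set κ' : ℝ := min (κ / 4) (η / (8 * s)) with hκ'
  have hκ'0 : 0 < κ' := lt_min (by positivity) (by positivity)
  have hκ'1 : 4 * κ' ≤ κ := by have := min_le_left (κ / 4) (η / (8 * s)); linarith
  have hκ'2 : 8 * s * κ' ≤ η := by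
    have := min_le_right (κ / 4) (η / (8 * s))
    rw [← hκ', le_div_iff₀ (by positivity)] at this
    linarith
  set c : ℝ := κ' / (2 * (s + 1)) with hc
  have hc0 : 0 < c := by positivity
  have hcs : (s + 1) * c = κ' / 2 := by rw [hc]; field_simp
  have hcκ : c ≤ κ' / 2 := by nlinarith
  refine ⟨c, hc0, max ⌈4 / κ'⌉₊ ⌈2 * (8 * s + 1) / κ'⌉₊, fun N hN {ι} I hI y ℓ hℓ hℓc n hdis hsm A hA => ?_⟩
  have hN2 : 4 / κ' ≤ N := (Nat.le_ceil _).trans (by exact_mod_cast (le_max_left _ _).trans hN)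
  have hN3 : 2 * (8 * s + 1) / κ' ≤ N := (Nat.le_ceil _).trans (by
    exact_mod_cast (le_max_right _ _).trans hN)
  rw [div_le_iff₀ hκ'0] at hN2 hN3
  have hM0 : (0 : ℝ) < I.card := by exact_mod_cast hI.card_pos
  have hN0 : (0 : ℝ) ≤ N := Nat.cast_nonneg _
  set r : ℕ := ⌊κ' * N⌋₊ with hr
  have hr1 : (r : ℝ) ≤ κ' * N := Nat.floor_le (by positivity)
  have hr2 : κ' * N < r + 1 := Nat.lt_floor_add_one _
  have hr3 : 2 ≤ r := by
    have : (2 : ℝ) < r := by linarith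
    exact_mod_cast this.le
  have hℓr : ℓ ≤ r := by
    have : (ℓ : ℝ) < r + 1 := by nlinarith
    have : ℓ < r + 1 := by exact_mod_cast this
    omega
  set ρ : ℕ := b ^ r with hρ
  have hρR : (ρ : ℝ) = (b : ℝ) ^ r := by rw [hρ]; push_cast; rfl
  have hρ4 : 4 ≤ ρ := by
    calc 4 = 2 ^ 2 := by norm_num
      _ ≤ b ^ 2 := Nat.pow_le_pow_left hb 2
      _ ≤ b ^ r := Nat.pow_le_pow_right (by omega) hr3
  have hR : ((ρ ^ 4 : ℕ) : ℝ) ≤ (b : ℝ) ^ (κ * N) := by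
    push_cast
    rw [hρR, ← pow_mul, ← Real.rpow_natCast]
    apply Real.rpow_le_rpow_of_exponent_le hb1
    push_cast
    nlinarith
  have hQ : b ^ ℓ * b ^ (4 * r - ℓ) = ρ ^ 4 := by
    rw [hρ, ← pow_add, ← pow_mul]; congr 1; omega
  have hn' : b ^ (4 * r - ℓ) + 2 * ρ ^ 3 ≤ ρ ^ 4 := by
    have h1 : 2 * b ^ (4 * r - ℓ) ≤ ρ ^ 4 := by
      rw [← hQ]
      apply Nat.mul_le_mul_right
      calc 2 ≤ b := hb
        _ = b ^ 1 := (pow_one b).symm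
        _ ≤ b ^ ℓ := Nat.pow_le_pow_right (by omega) hℓ
    have h2 : 4 * ρ ^ 3 ≤ ρ ^ 4 := by
      calc 4 * ρ ^ 3 ≤ ρ * ρ ^ 3 := Nat.mul_le_mul_right _ hρ4
        _ = ρ ^ 4 := by ring
    omega
  have hj := joint I hI y hb hs hℓ (by omega : 2 ≤ ρ) hQ hn' n hdis
    (B := (b : ℝ) ^ (-(η * N))) (by positivity)
    (hsm _ (Nat.one_le_pow _ _ (by omega)) hR) A hA
  refine le_trans hj ?_
  apply mul_le_mul_of_nonneg_right _ hM0.le
  -- bounding the error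
  have e1 : ((b ^ (s * ℓ) : ℕ) : ℝ) ≤ (b : ℝ) ^ (s * c * N) := by
    push_cast
    rw [← Real.rpow_natCast]
    apply Real.rpow_le_rpow_of_exponent_le hb1
    push_cast
    nlinarith
  have e3 : ((ρ : ℝ) ^ 4) ^ s ≤ (b : ℝ) ^ (4 * s * κ' * N) := by
    rw [hρR, ← pow_mul, ← pow_mul, ← Real.rpow_natCast]
    apply Real.rpow_le_rpow_of_exponent_le hb1
    push_cast
    nlinarith
  have e4 : ((ρ : ℝ) ^ 4) ^ s * (b : ℝ) ^ (-(η * N)) ≤ (b : ℝ) ^ (-(κ' * N)) := by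
    calc ((ρ : ℝ) ^ 4) ^ s * (b : ℝ) ^ (-(η * N)) ≤
          (b : ℝ) ^ (4 * s * κ' * N) * (b : ℝ) ^ (-(η * N)) :=
          mul_le_mul_of_nonneg_right e3 (by positivity)
      _ = (b : ℝ) ^ (4 * s * κ' * N + -(η * N)) := (Real.rpow_add hb0 _ _).symm
      _ ≤ _ := by
          apply Real.rpow_le_rpow_of_exponent_le hb1
          nlinarith
  have e5 : 4 * (s : ℝ) / ρ ≤ 4 * s * b * (b : ℝ) ^ (-(κ' * N)) := by
    rw [hρR, mul_assoc, div_eq_mul_inv, ← Real.rpow_natCast, ← Real.rpow_neg hb0.le]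
    apply mul_le_mul_of_nonneg_left _ (by positivity)
    have : (b : ℝ) * (b : ℝ) ^ (-(κ' * N)) = (b : ℝ) ^ (1 + -(κ' * N)) := by
      rw [Real.rpow_add hb0, Real.rpow_one]
    rw [this]
    apply Real.rpow_le_rpow_of_exponent_le hb1
    linarith
  have e6 : 4 * (s : ℝ) / ρ + ((ρ : ℝ) ^ 4) ^ s * (b : ℝ) ^ (-(η * N)) ≤
      (b : ℝ) ^ (8 * s + 1 : ℝ) * (b : ℝ) ^ (-(κ' * N)) := by
    have h1 : 4 * (s : ℝ) * b + 1 ≤ (b : ℝ) ^ (8 * s + 1 : ℝ) := by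
      have h2 : (8 * s : ℝ) + 1 ≤ (b : ℝ) ^ (8 * s : ℝ) := by
        have h3 : (b : ℝ) ^ (8 * s : ℝ) = (b : ℝ) ^ (8 * s : ℕ) := by
          rw [← Real.rpow_natCast]; push_cast; rfl
        rw [h3]
        have h4 : 8 * s < b ^ (8 * s) := Nat.lt_pow_self (by omega)
        exact_mod_cast h4
      rw [Real.rpow_add hb0, Real.rpow_one]
      nlinarith
    have hpos : (0 : ℝ) < (b : ℝ) ^ (-(κ' * N)) := Real.rpow_pos_of_pos hb0 _
    nlinarith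
  calc ((b ^ (s * ℓ) : ℕ) : ℝ) * (4 * s / ρ + ((ρ : ℝ) ^ 4) ^ s * (b : ℝ) ^ (-(η * N))) ≤
        (b : ℝ) ^ (s * c * N) * ((b : ℝ) ^ (8 * s + 1 : ℝ) * (b : ℝ) ^ (-(κ' * N))) :=
        mul_le_mul e1 e6 (by positivity) (by positivity)
    _ = (b : ℝ) ^ (s * c * N + (8 * s + 1) + -(κ' * N)) := by
        rw [← Real.rpow_add hb0, ← Real.rpow_add hb0]; congr 1; ring
    _ ≤ (b : ℝ) ^ (-(c * N)) := by
        apply Real.rpow_le_rpow_of_exponent_le hb1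
        have h1 : (s + 1) * c * N = κ' / 2 * N := by rw [hcs]
        nlinarith

end Pool.Agent.W301.RM
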