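import Mathlib

/-! Taylor polynomials of powers. -/

set_option autoImplicit false

namespace Pool.Agent.W301.RM
open Finset

/-- binomial coefficients with a real upper entry -/
noncomputable def bc (κ : ℝ) : ℕ → ℝ
  | 0 => 1
  | j + 1 => κ / (j + 1) * bc (κ - 1) j

lemma bc_succ (κ : ℝ) (j : ℕ) : ((j : ℝ) + 1) * bc κ (j + 1) = κ * bc (κ - 1) j := by
  show ((j : ℝ) + 1) * (κ / (j + 1) * bc (κ - 1) j) = _
  have : (0 : ℝ) < (j : ℝ) + 1 := by positivity
  field_simp

lemma bc_ne (j : ℕ) : ∀ κ : ℝ, (∀ i : ℕ, κ ≠ i) → bc κ j ≠ 0 := by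
  induction j with
  | zero => intro κ _; simp [bc]
  | succ j ih =>
    intro κ hκ
    have h1 : bc (κ - 1) j ≠ 0 := ih (κ - 1) (fun i h => hκ (i + 1) (by push_cast; linarith))
    have h2 : κ ≠ 0 := by simpa using hκ 0
    have h3 : (0 : ℝ) < (j : ℝ) + 1 := by positivity
    show κ / (j + 1) * bc (κ - 1) j ≠ 0
    exact mul_ne_zero (div_ne_zero h2 h3.ne') h1

/-- Taylor polynomial of `(a + t) ^ κ` with `n` terms -/
noncomputable def TP (κ a : ℝ) (n : ℕ) (t : ℝ) : ℝ := ∑ j ∈ range n, bc κ j * a ^ (κ - j) * t ^ j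

lemma TP_deriv (κ a : ℝ) (n : ℕ) (t : ℝ) :
    HasDerivAt (TP κ a (n + 1)) (κ * TP (κ - 1) a n t) t := by
  have e : TP κ a (n + 1) = fun t => (∑ j ∈ range n, bc κ (j + 1) * a ^ (κ - (j + 1 : ℕ)) * t ^ (j + 1)) +
      bc κ 0 * a ^ (κ - (0 : ℕ)) * 1 := by
    funext t
    unfold TP
    rw [sum_range_succ']
    simp
  rw [e]
  have h1 : HasDerivAt (fun t : ℝ => ∑ j ∈ range n, bc κ (j + 1) * a ^ (κ - (j + 1 : ℕ)) * t ^ (j + 1))
      (∑ j ∈ range n, κ * (bc (κ - 1) j * a ^ (κ - 1 - j) * t ^ j)) t := by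
    apply HasDerivAt.fun_sum
    intro j _
    have h2 := (hasDerivAt_pow (j + 1) t).const_mul (bc κ (j + 1) * a ^ (κ - (j + 1 : ℕ)))
    refine h2.congr_deriv ?_
    rw [Nat.add_sub_cancel]
    have h3 := bc_succ κ j
    have h4 : κ - ((j + 1 : ℕ) : ℝ) = κ - 1 - j := by push_cast; ring
    rw [h4]
    push_cast
    linear_combination (a ^ (κ - 1 - j) * t ^ j) * h3
  refine (h1.add_const _).congr_deriv ?_
  unfold TP
  rw [mul_sum]

lemma pow_deriv (κ a t : ℝ) (h : 0 < a + t) :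
    HasDerivAt (fun t : ℝ => (a + t) ^ κ) (κ * (a + t) ^ (κ - 1)) t := by
  have h1 : HasDerivAt (fun t : ℝ => a + t) 1 t := by simpa using (hasDerivAt_id t).const_add a
  have h2 := h1.rpow_const (p := κ) (Or.inl h.ne')
  refine h2.congr_deriv ?_
  ring

/-- Taylor estimate -/
lemma taylor_pow {a : ℝ} (ha : 0 < a) (n : ℕ) : ∀ κ : ℝ, κ ≤ n → ∀ t : ℝ, 0 ≤ t →
    |(a + t) ^ κ - TP κ a n t| ≤ |bc κ n| * a ^ (κ - n) * t ^ n := by
  induction n with
  | zero =>
    intro κ hκ t ht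
    have h1 : TP κ a 0 t = 0 := by simp [TP]
    rw [h1, sub_zero, abs_of_nonneg (by positivity)]
    simp only [bc, abs_one, one_mul, pow_zero, mul_one, Nat.cast_zero, sub_zero]
    push_cast at hκ
    exact Real.rpow_le_rpow_of_nonpos ha (by linarith) (by linarith)
  | succ n ih =>
    intro κ hκ t ht
    have key := image_norm_le_of_norm_deriv_right_le_deriv_boundary
      (f := fun s : ℝ => (a + s) ^ κ - TP κ a (n + 1) s)
      (f' := fun s : ℝ => κ * (a + s) ^ (κ - 1) - κ * TP (κ - 1) a n s) (a := 0) (b := t)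
      (B := fun s : ℝ => |bc κ (n + 1)| * a ^ (κ - (n + 1 : ℕ)) * s ^ (n + 1))
      (B' := fun s : ℝ => |bc κ (n + 1)| * a ^ (κ - (n + 1 : ℕ)) * ((n + 1 : ℕ) * s ^ n))
      (fun s hs => ((pow_deriv κ a s (by linarith [hs.1])).sub
        (TP_deriv κ a n s)).continuousAt.continuousWithinAt)
      (fun s hs => ((pow_deriv κ a s (by linarith [hs.1])).sub
        (TP_deriv κ a n s)).hasDerivWithinAt)
      (by
        have h0 : TP κ a (n + 1) 0 = a ^ κ := by
          unfold TP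
          rw [sum_range_succ']
          simp [bc]
        rw [h0]
        simp)
      (fun s => by
        have h4 := (hasDerivAt_pow (n + 1) s).const_mul (|bc κ (n + 1)| * a ^ (κ - (n + 1 : ℕ)))
        refine h4.congr_deriv ?_
        rw [Nat.add_sub_cancel])
      (fun s hs => by
        have h5 := ih (κ - 1) (by push_cast at hκ; linarith) s hs.1
        rw [← mul_sub, norm_mul, Real.norm_eq_abs, Real.norm_eq_abs]
        have h6 : |bc κ (n + 1)| * ((n + 1 : ℕ) : ℝ) = |κ| * |bc (κ - 1) n| := by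
          have h7 := bc_succ κ n
          rw [← abs_mul, ← h7, abs_mul, abs_of_nonneg (by positivity : (0 : ℝ) ≤ (n : ℝ) + 1)]
          push_cast; ring
        have h8 : κ - ((n + 1 : ℕ) : ℝ) = κ - 1 - n := by push_cast; ring
        calc |κ| * |(a + s) ^ (κ - 1) - TP (κ - 1) a n s| ≤
              |κ| * (|bc (κ - 1) n| * a ^ (κ - 1 - n) * s ^ n) :=
              mul_le_mul_of_nonneg_left h5 (abs_nonneg _)
          _ = (|bc κ (n + 1)| * ((n + 1 : ℕ) : ℝ)) * a ^ (κ - 1 - n) * s ^ n := by rw [h6]; ring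
          _ = _ := by rw [h8]; ring)
    have := key (x := t) ⟨ht, le_rfl⟩
    rw [Real.norm_eq_abs] at this
    exact this

open Polynomial in
/-- the Taylor polynomial as a polynomial -/
noncomputable def TPp (κ a : ℝ) (n : ℕ) : ℝ[X] := ∑ j ∈ range n, C (bc κ j * a ^ (κ - j)) * X ^ j

open Polynomial in
lemma TPp_eval (κ a : ℝ) (n : ℕ) (t : ℝ) : (TPp κ a n).eval t = TP κ a n t := by
  unfold TPp TP
  rw [eval_finset_sum]
  simp

open Polynomial in
lemma TPp_natDegree (κ a : ℝ) (k : ℕ) : (TPp κ a (k + 1)).natDegree ≤ k := by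
  unfold TPp
  apply natDegree_sum_le_of_forall_le
  intro j hj
  refine (natDegree_C_mul_X_pow_le _ _).trans ?_
  rw [mem_range] at hj
  omega

open Polynomial in
lemma TPp_coeff (κ a : ℝ) (k : ℕ) : (TPp κ a (k + 1)).coeff k = bc κ k * a ^ (κ - k) := by
  unfold TPp
  rw [finset_sum_coeff]
  simp only [coeff_C_mul, coeff_X_pow]
  rw [sum_eq_single k]
  · simp
  · intro j _ hj
    rw [if_neg (Ne.symm hj), mul_zero]
  · intro h
    exact absurd (mem_range.2 (by omega)) h

end Pool.Agent.W301.RM
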